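import Pool.Agent.HCN.T1
import Pool.Agent.HCF.Y4

namespace Pool.Agent.HCN

open Pool.Agent.HCH Pool.Agent.HCF Pool.Agent.HCJ MvPolynomial

variable {K : Type} [Field K] {σ : Type} {D : ℕ}

theorem B1_dm {B : Type} [CommRing B] [Algebra K B] [Algebra.FiniteType K B] {p : Ideal B} (hp : p.IsPrime) (n : ℕ) :
    dm K (p.map (C : B →+* MvPolynomial (Fin n) B)) = dm K p + n := by
  have h1 : Algebra.trdeg K (MvPolynomial (Fin n) B ⧸ p.map (C : B →+* MvPolynomial (Fin n) B)) =
      Algebra.trdeg K (MvPolynomial (Fin n) (B ⧸ p)) :=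
    (((quotientEquivQuotientMvPolynomial (σ := Fin n) p).restrictScalars K).trdeg_eq).symm
  have h2 : Algebra.trdeg K (B ⧸ p) + Algebra.trdeg (B ⧸ p) (MvPolynomial (Fin n) (B ⧸ p)) =
      Algebra.trdeg K (MvPolynomial (Fin n) (B ⧸ p)) := trdeg_add_eq K (B ⧸ p)
  have h3 : Algebra.trdeg K (B ⧸ p) < Cardinal.aleph0 := trdeg_lt_aleph0_of_finiteType
  rw [MvPolynomial.trdeg_of_isDomain, Cardinal.mk_fin, Cardinal.lift_natCast] at h2
  unfold dm
  rw [h1, ← h2, Cardinal.toNat_add h3 (Cardinal.natCast_lt_aleph0), Cardinal.toNat_natCast]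

open Classical in
/-- the translation by `-w` -/
noncomputable def B1_tr (s : Fin D → σ) : MvPolynomial σ K →ₐ[K] MvPolynomial (Fin D) (MvPolynomial σ K) :=
  aeval fun i => C (X i) - ∑ a, if s a = i then X a else 0

/-- the translations as endomorphisms -/
noncomputable def B1_p (s : Fin D → σ) :
    MvPolynomial (Fin D) (MvPolynomial σ K) →ₐ[K] MvPolynomial (Fin D) (MvPolynomial σ K) := aevalTower (tr s) X

noncomputable def B1_m (s : Fin D → σ) :
    MvPolynomial (Fin D) (MvPolynomial σ K) →ₐ[K] MvPolynomial (Fin D) (MvPolynomial σ K) := aevalTower (B1_tr s) X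

theorem B1_m_C (s : Fin D → σ) (h : MvPolynomial σ K) : B1_m s (C h) = B1_tr s h := by
  unfold B1_m
  exact aevalTower_C _ _ _

theorem B1_m_X (s : Fin D → σ) (a : Fin D) : B1_m (K := K) s (X a) = X a := by
  unfold B1_m
  exact aevalTower_X _ _ _

theorem B1_p_C (s : Fin D → σ) (h : MvPolynomial σ K) : B1_p s (C h) = tr s h := by
  unfold B1_p
  exact aevalTower_C _ _ _

theorem B1_p_X (s : Fin D → σ) (a : Fin D) : B1_p (K := K) s (X a) = X a := by
  unfold B1_p
  exact aevalTower_X _ _ _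

theorem B1_m_tr_X (s : Fin D → σ) (i : σ) : B1_m s (tr s (X i : MvPolynomial σ K)) = C (X i) := by
  classical
  have e0 : tr s (X i : MvPolynomial σ K) = C (X i) + ∑ a, if s a = i then X a else 0 := by
    unfold tr
    exact aeval_X _ _
  have e1 : B1_tr s (X i : MvPolynomial σ K) = C (X i) - ∑ a, if s a = i then X a else 0 := by
    unfold B1_tr
    exact aeval_X _ _
  have e2 : ∀ a : Fin D, B1_m (K := K) s (if s a = i then X a else 0) = if s a = i then X a else 0 := by
    intro a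
    split_ifs
    · exact B1_m_X s a
    · exact map_zero _
  rw [e0, map_add, map_sum, B1_m_C, e1, Finset.sum_congr rfl fun a _ => e2 a, sub_add_cancel]

theorem B1_m_tr (s : Fin D → σ) (h : MvPolynomial σ K) : B1_m s (tr s h) = C h := by
  induction h using MvPolynomial.induction_on with
  | C r =>
    have h1 : tr s (C r : MvPolynomial σ K) = algebraMap K _ r := (tr s).commutes r
    rw [h1, AlgHom.commutes]
    rfl
  | add f g hf hg => rw [map_add, map_add, hf, hg, C_add]
  | mul_X f i hf => rw [map_mul, map_mul, hf, C_mul, B1_m_tr_X]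

theorem B1_m_p (s : Fin D → σ) (f : MvPolynomial (Fin D) (MvPolynomial σ K)) : B1_m s (B1_p s f) = f := by
  induction f using MvPolynomial.induction_on with
  | C r => rw [B1_p_C, B1_m_tr]
  | add f g hf hg => rw [map_add, map_add, hf, hg]
  | mul_X f i hf => rw [map_mul, map_mul, hf, B1_p_X, B1_m_X]

theorem B1_ev0_C (h : MvPolynomial σ K) : ev0 (C h : MvPolynomial (Fin D) (MvPolynomial σ K)) = h := by
  unfold ev0
  show aeval _ (C h) = h
  rw [algHom_C]
  rfl

theorem B1_ev0_X (a : Fin D) : ev0 (X a : MvPolynomial (Fin D) (MvPolynomial σ K)) = 0 := by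
  unfold ev0
  show aeval _ (X a) = _
  rw [aeval_X]

theorem B1_ev0_tr_X (s : Fin D → σ) (i : σ) : ev0 (B1_tr s (X i : MvPolynomial σ K)) = X i := by
  classical
  have e1 : B1_tr s (X i : MvPolynomial σ K) = C (X i) - ∑ a, if s a = i then X a else 0 := by
    unfold B1_tr
    exact aeval_X _ _
  rw [e1, map_sub, map_sum, B1_ev0_C, Finset.sum_eq_zero, sub_zero]
  intro a _
  split_ifs
  · exact B1_ev0_X a
  · exact map_zero _

theorem B1_ev0_tr (s : Fin D → σ) (h : MvPolynomial σ K) : ev0 (B1_tr s h) = h := by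
  induction h using MvPolynomial.induction_on with
  | C r =>
    have h1 : B1_tr s (C r : MvPolynomial σ K) = algebraMap K _ r := (B1_tr s).commutes r
    rw [h1, AlgHom.commutes]
    rfl
  | add f g hf hg => rw [map_add, map_add, hf, hg]
  | mul_X f i hf => rw [map_mul, map_mul, hf, B1_ev0_tr_X]

theorem B1_ev0_m (s : Fin D → σ) (f : MvPolynomial (Fin D) (MvPolynomial σ K)) : ev0 (B1_m s f) = ev0 f := by
  induction f using MvPolynomial.induction_on with
  | C r => rw [B1_m_C, B1_ev0_tr, B1_ev0_C]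
  | add f g hf hg => rw [map_add, map_add, map_add, hf, hg]
  | mul_X f i hf => rw [map_mul, map_mul, map_mul, hf, B1_m_X]

/-
PROOF. θ : T → T, T = MvPolynomial (Fin D) (MvPolynomial σ K), θ (C x_{s a}) = C x_{s a} - w_a,
θ (C x_i) = C x_i for i ∉ range s, θ w_a = w_a (inverse: + w_a). θ (tr s h) = C h. The prime is
comap θ (p.map C); p.map C is prime (A1_map_C_prime of HCJ/A1) and dm K (p.map C) = dm K p + D
(B1_dm). ev0 ∘ θ = ev0.
-/
set_option linter.unusedVariables false in
theorem trP [Finite σ] {s : Fin D → σ} (hs : Function.Injective s)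
    (p : PrimeSpectrum (MvPolynomial σ K)) :
    ∃ Q : PrimeSpectrum (MvPolynomial (Fin D) (MvPolynomial σ K)),
      (∀ h ∈ p.asIdeal, tr s h ∈ Q.asIdeal) ∧ (∀ f ∈ Q.asIdeal, ev0 f ∈ p.asIdeal) ∧
        dm K Q.asIdeal = dm K p.asIdeal + D := by
  have hP : (p.asIdeal.map (C : MvPolynomial σ K →+* MvPolynomial (Fin D) (MvPolynomial σ K))).IsPrime :=
    A1_map_C_prime p.isPrime
  let P : PrimeSpectrum (MvPolynomial (Fin D) (MvPolynomial σ K)) := ⟨_, hP⟩
  refine ⟨PrimeSpectrum.comap (B1_m (K := K) s : MvPolynomial (Fin D) (MvPolynomial σ K) →+* _) P, ?_, ?_, ?_⟩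
  · intro h hh
    show B1_m s (tr s h) ∈ P.asIdeal
    rw [B1_m_tr]
    exact Ideal.mem_map_of_mem _ hh
  · intro f hf
    have h1 : B1_m s f ∈ p.asIdeal.map (C : MvPolynomial σ K →+* MvPolynomial (Fin D) (MvPolynomial σ K)) := hf
    have h2 : p.asIdeal.map (C : MvPolynomial σ K →+* MvPolynomial (Fin D) (MvPolynomial σ K)) ≤
        p.asIdeal.comap (ev0 (K := K) (σ := σ) (D := D) : MvPolynomial (Fin D) (MvPolynomial σ K) →+* _) := by
      rw [Ideal.map_le_iff_le_comap]
      intro h hh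
      show ev0 (C h) ∈ p.asIdeal
      rwa [B1_ev0_C]
    have h3 : ev0 (B1_m s f) ∈ p.asIdeal := h2 h1
    rwa [B1_ev0_m] at h3
  · have h1 := dm_comap (B1_m s) (fun f => ⟨B1_p s f, B1_m_p s f⟩) P.asIdeal
    exact h1.trans (B1_dm p.isPrime D)

end Pool.Agent.HCN
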