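import Pool.Agent.HCN.Defs

namespace Pool.Agent.HCN

open Pool.Agent.HCH Pool.Agent.HCF Pool.Agent.HCJ MvPolynomial

/-
PROOF. Induction on r. Given Q' for r: a minimal prime of Q' ⊔ span {h r} below m
(Ideal.exists_minimalPrimes_le), dm_le_min (HCH/B).
-/
theorem krull_chain {K T : Type} [Field K] [CommRing T] [Algebra K T] [Algebra.FiniteType K T]
    (h : ℕ → T) (r : ℕ) (Q m : PrimeSpectrum T) (hQm : Q.asIdeal ≤ m.asIdeal)
    (hh : ∀ k < r, h k ∈ m.asIdeal) :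
    ∃ Q' : PrimeSpectrum T, Q.asIdeal ≤ Q'.asIdeal ∧ Q'.asIdeal ≤ m.asIdeal ∧
      (∀ k < r, h k ∈ Q'.asIdeal) ∧ dm K Q.asIdeal ≤ dm K Q'.asIdeal + r := by
  induction r with
  | zero => exact ⟨Q, le_rfl, hQm, fun k hk => absurd hk (Nat.not_lt_zero k), le_rfl⟩
  | succ r ih =>
    obtain ⟨Q', h1, h2, h3, h4⟩ := ih fun k hk => hh k (Nat.lt_succ_of_lt hk)
    have hle : Q'.asIdeal ⊔ Ideal.span {h r} ≤ m.asIdeal := by
      rw [sup_le_iff, Ideal.span_singleton_le_iff_mem]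
      exact ⟨h2, hh r (Nat.lt_succ_self r)⟩
    have := m.isPrime
    have := Q'.isPrime
    obtain ⟨q, hq, hqm⟩ := Ideal.exists_minimalPrimes_le hle
    have hqp : q.IsPrime := hq.1.1
    have hsup : Q'.asIdeal ⊔ Ideal.span {h r} ≤ q := hq.1.2
    rw [sup_le_iff, Ideal.span_singleton_le_iff_mem] at hsup
    refine ⟨⟨q, hqp⟩, h1.trans hsup.1, hqm, fun k hk => ?_, ?_⟩
    · rcases Nat.lt_succ_iff_lt_or_eq.1 hk with hk | rfl
      · exact hsup.1 (h3 k hk)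
      · exact hsup.2
    · have := dm_le_min (K := K) Q'.asIdeal q (h r) hq
      show dm K Q.asIdeal ≤ dm K q + (r + 1)
      omega

end Pool.Agent.HCN
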