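import Pool.Agent.HCN.Defs

namespace Pool.Agent.HCN

open Pool.Agent.HCH Pool.Agent.HCF Pool.Agent.HCJ MvPolynomial

/-- The localized relation makes the quotient integral over the local ring. -/
private theorem B3_int {A : Type} [CommRing A] {D : ℕ} (J : Ideal (MvPolynomial (Fin D) A)) (M : ℕ)
    (hM0 : 0 < M)
    (hJ : ∀ α : Fin D →₀ ℕ, α.degree = M →
      ∃ c : MvPolynomial (Fin D) A, (∀ β ∈ c.support, β.degree < M) ∧ monomial α 1 - c ∈ J) :
    Algebra.IsIntegral A (MvPolynomial (Fin D) A ⧸ J) := by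
  classical
  set N : Submodule A (MvPolynomial (Fin D) A ⧸ J) :=
    Submodule.span A ((fun β : Fin D →₀ ℕ => Ideal.Quotient.mk J (monomial β 1)) ''
      {β | β.degree < M}) with hN
  have hfin : ({β : Fin D →₀ ℕ | β.degree < M}).Finite :=
    (Finsupp.finite_of_degree_le M).subset fun β (hβ : β.degree < M) => hβ.le
  have hlow : ∀ c : MvPolynomial (Fin D) A, (∀ β ∈ c.support, β.degree < M) →
      Ideal.Quotient.mk J c ∈ N := by
    intro c hc
    rw [c.as_sum, map_sum]
    refine Submodule.sum_mem _ fun β hβ => ?_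
    have : Ideal.Quotient.mk J (monomial β (coeff β c)) =
        coeff β c • Ideal.Quotient.mk J (monomial β (1 : A)) := by
      rw [← Ideal.Quotient.mkₐ_eq_mk A, ← map_smul, smul_monomial, smul_eq_mul, mul_one]
    rw [this]
    exact N.smul_mem _ (Submodule.subset_span ⟨β, hc β hβ, rfl⟩)
  have hmon : ∀ β : Fin D →₀ ℕ, β.degree ≤ M → Ideal.Quotient.mk J (monomial β 1) ∈ N := by
    intro β hβ
    rcases lt_or_eq_of_le hβ with h | h
    · exact Submodule.subset_span ⟨β, h, rfl⟩
    · obtain ⟨c, hc, hcJ⟩ := hJ β h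
      rw [(Ideal.Quotient.mk_eq_mk_iff_sub_mem _ _).2 hcJ]
      exact hlow c hc
  have hmul : ∀ (a : Fin D), ∀ n ∈ N, n * Ideal.Quotient.mk J (X a) ∈ N := by
    intro a n hn
    refine Submodule.span_induction ?_ ?_ ?_ ?_ hn
    · rintro _ ⟨β, hβ, rfl⟩
      rw [← map_mul, X, monomial_mul, mul_one]
      refine hmon _ ?_
      rw [map_add, Finsupp.degree_single]
      exact hβ
    · rw [zero_mul]; exact N.zero_mem
    · intro x y _ _ hx hy; rw [add_mul]; exact N.add_mem hx hy
    · intro r x _ hx; rw [smul_mul_assoc]; exact N.smul_mem _ hx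
  have htop : N = ⊤ := by
    rw [eq_top_iff]
    rintro x -
    obtain ⟨p, rfl⟩ := Ideal.Quotient.mk_surjective x
    induction p using MvPolynomial.induction_on with
    | C r =>
      refine hlow _ fun β hβ => ?_
      have : β = 0 := by
        by_contra h
        rw [mem_support_iff, coeff_C, if_neg (Ne.symm h)] at hβ
        exact hβ rfl
      rw [this, map_zero]; exact hM0
    | add p q hp hq => rw [map_add]; exact N.add_mem hp hq
    | mul_X p a hp => rw [map_mul]; exact hmul a _ hp
  have hfg : Module.Finite A (MvPolynomial (Fin D) A ⧸ J) := by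
    refine ⟨?_⟩
    rw [← htop, hN]
    exact Submodule.fg_span (hfin.image _)
  exact Algebra.IsIntegral.of_finite _ _

theorem lying {R : Type} [CommRing R] {D : ℕ} (Q : Ideal (MvPolynomial (Fin D) R)) [hQ : Q.IsPrime]
    (H δ : R) (M : ℕ) (hM : ∀ α : Fin D →₀ ℕ, α.degree = M →
      ∃ c : MvPolynomial (Fin D) R, (∀ β ∈ c.support, β.degree < M) ∧
        C δ * monomial α 1 + C H * c ∈ Q)
    (P : Ideal R) [hP : P.IsPrime] (hQP : Q.comap (C : R →+* MvPolynomial (Fin D) R) ≤ P)
    (hH : H ∈ P) (hδ : δ ∉ P) :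
    ∃ P' : Ideal (MvPolynomial (Fin D) R), P'.IsPrime ∧ Q ≤ P' ∧
      P'.comap (C : R →+* MvPolynomial (Fin D) R) = P ∧ ∀ a, X a ∈ P' := by
  classical
  have hM0 : 0 < M := by
    rcases Nat.eq_zero_or_pos M with h | h
    · exfalso
      obtain ⟨c, hc, hcQ⟩ := hM 0 (by rw [map_zero, h])
      have hc0 : c = 0 := by
        rw [← support_eq_empty, Finset.eq_empty_iff_forall_notMem]
        intro β hβ
        have := hc β hβ
        omega
      rw [hc0, mul_zero, add_zero, ← C_apply, C_1, mul_one] at hcQ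
      exact hδ (hQP hcQ)
    · exact h
  let A := Localization.AtPrime P
  let φ : MvPolynomial (Fin D) R →+* MvPolynomial (Fin D) A := MvPolynomial.map (algebraMap R A)
  let J : Ideal (MvPolynomial (Fin D) A) := Q.map φ
  have hunit : IsUnit (algebraMap R A δ) := IsLocalization.map_units A (⟨δ, hδ⟩ : P.primeCompl)
  obtain ⟨u, hu⟩ := hunit
  have hint : Algebra.IsIntegral A (MvPolynomial (Fin D) A ⧸ J) := by
    refine B3_int J M hM0 fun α hα => ?_
    obtain ⟨c, hc, hcQ⟩ := hM α hα
    refine ⟨- (C ((↑u⁻¹ : A) * algebraMap R A H) * φ c), ?_, ?_⟩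
    · intro β hβ
      refine hc β ?_
      rw [mem_support_iff] at hβ ⊢
      intro h0
      apply hβ
      rw [coeff_neg, coeff_C_mul]
      simp only [φ, coeff_map, h0, map_zero, mul_zero, neg_zero]
    · have h1 : φ (C δ * monomial α 1 + C H * c) ∈ J := Ideal.mem_map_of_mem _ hcQ
      have h2 := J.mul_mem_left (C (↑u⁻¹ : A)) h1
      convert h2 using 1
      simp only [φ, map_add, map_mul, map_C, map_monomial, map_one]
      have h3 : (C (↑u⁻¹ : A) * C (↑u : A) : MvPolynomial (Fin D) A) = 1 := by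
        rw [← C_mul, Units.inv_mul, C_1]
      rw [← hu, mul_add, ← mul_assoc, h3, one_mul]
      ring
  have hJ : J ≠ ⊤ := by
    let _ := algebraMvPolynomial (σ := Fin D) (R := R) (S := A)
    have h1 := (IsLocalization.map_algebraMap_ne_top_iff_disjoint
      (P.primeCompl.map (C : R →+* MvPolynomial (Fin D) R)) (MvPolynomial (Fin D) A) Q).2 ?_
    · exact h1
    · rw [Set.disjoint_left]
      rintro _ ⟨s, hs, rfl⟩ hsQ
      exact hs (hQP hsQ)
  obtain ⟨m, hm, hJm⟩ := Ideal.exists_le_maximal J hJ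
  have hcm : (m.comap (C : A →+* MvPolynomial (Fin D) A)).IsMaximal := by
    have hmax : (m.map (Ideal.Quotient.mk J)).IsMaximal :=
      Ideal.IsMaximal.map_of_surjective_of_ker_le Ideal.Quotient.mk_surjective
        (by rwa [Ideal.mk_ker])
    have h1 := Ideal.isMaximal_comap_of_isIntegral_of_isMaximal (R := A)
      (m.map (Ideal.Quotient.mk J))
    have h2 : (m.map (Ideal.Quotient.mk J)).comap (algebraMap A (MvPolynomial (Fin D) A ⧸ J)) =
        m.comap (C : A →+* MvPolynomial (Fin D) A) := by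
      have : algebraMap A (MvPolynomial (Fin D) A ⧸ J) =
        (Ideal.Quotient.mk J).comp (C : A →+* MvPolynomial (Fin D) A) := rfl
      rw [this, ← Ideal.comap_comap, Ideal.comap_map_of_surjective _ Ideal.Quotient.mk_surjective,
        ← RingHom.ker_eq_comap_bot, Ideal.mk_ker, sup_eq_left.2 hJm]
    rwa [h2] at h1
  have hcm' : m.comap (C : A →+* MvPolynomial (Fin D) A) = IsLocalRing.maximalIdeal A :=
    IsLocalRing.eq_maximalIdeal hcm
  have hprime : (m.comap φ).IsPrime := Ideal.comap_isPrime φ m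
  have hcomap : (m.comap φ).comap (C : R →+* MvPolynomial (Fin D) R) = P := by
    rw [Ideal.comap_comap]
    have : φ.comp (C : R →+* MvPolynomial (Fin D) R) =
        (C : A →+* MvPolynomial (Fin D) A).comp (algebraMap R A) := by
      ext r; simp [φ]
    rw [this, ← Ideal.comap_comap, hcm']
    exact Localization.AtPrime.under_maximalIdeal
  refine ⟨m.comap φ, hprime, ?_, hcomap, ?_⟩
  · intro q hq
    exact hJm (Ideal.mem_map_of_mem _ hq)
  · intro a
    obtain ⟨c, -, hcQ⟩ := hM (Finsupp.single a M) (by rw [Finsupp.degree_single])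
    have h1 : C δ * monomial (Finsupp.single a M) 1 + C H * c ∈ m.comap φ :=
      hJm (Ideal.mem_map_of_mem _ hcQ)
    have h2 : (C H : MvPolynomial (Fin D) R) ∈ m.comap φ := by
      have : H ∈ (m.comap φ).comap (C : R →+* MvPolynomial (Fin D) R) := by rw [hcomap]; exact hH
      exact this
    have h3 : C δ * monomial (Finsupp.single a M) 1 ∈ m.comap φ :=
      ((m.comap φ).add_mem_iff_left ((m.comap φ).mul_mem_right _ h2)).1 h1
    rcases hprime.mem_or_mem h3 with h4 | h4
    · exfalso
      have : δ ∈ (m.comap φ).comap (C : R →+* MvPolynomial (Fin D) R) := h4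
      rw [hcomap] at this
      exact hδ this
    · rw [← X_pow_eq_monomial] at h4
      exact hprime.mem_of_pow_mem _ h4

end Pool.Agent.HCN
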