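import Pool.Agent.HCN.T1
import Pool.Agent.HCN.B1
import Pool.Agent.HCN.B2
import Pool.Agent.HCN.B3

namespace Pool.Agent.HCN

open Pool.Agent.HCH Pool.Agent.HCF Pool.Agent.HCJ MvPolynomial

theorem hc_mul {R τ : Type} [CommRing R] (c f : MvPolynomial τ R) {n : ℕ} (hf : f.IsHomogeneous n)
    (M : ℕ) : homogeneousComponent M (c * f) =
      if n ≤ M then homogeneousComponent (M - n) c * f else 0 := by
  classical
  have h1 : c * f = ∑ i ∈ Finset.range (c.totalDegree + 1), homogeneousComponent i c * f := by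
    rw [← Finset.sum_mul, sum_homogeneousComponent]
  rw [h1, map_sum]
  have h2 : ∀ i, homogeneousComponent M (homogeneousComponent i c * f) =
      if M = i + n then homogeneousComponent i c * f else 0 := by
    intro i
    have h3 : homogeneousComponent i c * f ∈ homogeneousSubmodule τ R (i + n) :=
      (homogeneousComponent_isHomogeneous i c).mul hf
    rw [homogeneousComponent_of_mem h3]
  simp only [h2]
  split_ifs with h
  · rw [Finset.sum_eq_single (M - n)]
    · rw [if_pos (by omega)]
    · intro b _ hb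
      rw [if_neg (by omega)]
    · intro hb
      rw [Finset.mem_range, not_lt] at hb
      rw [if_pos (by omega), homogeneousComponent_eq_zero _ _ (by omega), zero_mul]
  · refine Finset.sum_eq_zero fun i _ => ?_
    rw [if_neg (by omega)]

theorem dm_comap_le {K R T : Type} [Field K] [CommRing R] [CommRing T] [Algebra K R] [Algebra K T]
    [Algebra.FiniteType K T] (φ : R →ₐ[K] T) (Q : Ideal T) [hQ : Q.IsPrime] :
    dm K (Q.comap (φ : R →+* T)) ≤ dm K Q := by
  unfold dm
  let f : (R ⧸ Q.comap (φ : R →+* T)) →ₐ[K] (T ⧸ Q) := Ideal.quotientMapₐ Q φ le_rfl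
  have hf : Function.Injective f := Ideal.quotientMap_injective' (H := le_rfl) le_rfl
  have h5 := trdeg_le_of_injective f hf
  exact Cardinal.toNat_le_toNat h5 trdeg_lt_aleph0_of_finiteType

variable {K : Type} [Field K] {σ : Type} {D : ℕ}

theorem ev0_hom {f : MvPolynomial (Fin D) (MvPolynomial σ K)} {n : ℕ} (hf : f.IsHomogeneous n)
    (hn : 1 ≤ n) : ev0 f = 0 := by
  have h1 : ev0 f = coeff 0 f := by
    change aeval (fun _ : Fin D => (0 : MvPolynomial σ K)) f = _
    have : (fun _ : Fin D => (0 : MvPolynomial σ K)) = 0 := rfl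
    rw [this, aeval_zero, constantCoeff_eq]
    rfl
  rw [h1]
  by_contra h
  have := hf h
  simp at this
  omega

theorem core [Finite σ] {s : Fin D → σ} (hs : Function.Injective s) (hD : 1 ≤ D)
    {H : MvPolynomial σ K} (hH : H.IsHomogeneous D) (p : PrimeSpectrum (MvPolynomial σ K))
    (hp : H ∈ p.asIdeal) {δ : MvPolynomial σ K} (hδ : δ ∉ p.asIdeal) {M : ℕ} (hM : Elim s H δ M) :
    ∃ q : PrimeSpectrum (MvPolynomial σ K), q.asIdeal ≤ p.asIdeal ∧
      cyl (Set.range s) p.asIdeal ≤ q.asIdeal ∧ H ∉ q.asIdeal ∧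
      dm K q.asIdeal = dm K p.asIdeal + 1 ∧
      ∀ P : PrimeSpectrum (MvPolynomial σ K), q.asIdeal ≤ P.asIdeal → H ∈ P.asIdeal →
        δ ∉ P.asIdeal → p.asIdeal ≤ P.asIdeal := by
  classical
  obtain ⟨Q0, h1, h2, h3⟩ := trP hs p
  have hft : Algebra.FiniteType K (MvPolynomial (Fin D) (MvPolynomial σ K)) :=
    Algebra.FiniteType.trans (S := MvPolynomial σ K) inferInstance inferInstance
  let m : PrimeSpectrum (MvPolynomial (Fin D) (MvPolynomial σ K)) :=
    PrimeSpectrum.comap ((ev0 : MvPolynomial (Fin D) (MvPolynomial σ K) →ₐ[K] MvPolynomial σ K) :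
      MvPolynomial (Fin D) (MvPolynomial σ K) →+* MvPolynomial σ K) p
  have hm : ∀ f, f ∈ m.asIdeal ↔ ev0 f ∈ p.asIdeal := fun f => Iff.rfl
  have hdm : dm K m.asIdeal = dm K p.asIdeal := dm_comap ev0 ev0_surj p.asIdeal
  have hhom : ∀ k, (tay s H k).IsHomogeneous k := fun k => homogeneousComponent_isHomogeneous _ _
  have hQm0 : Q0.asIdeal ≤ m.asIdeal := fun f hf => (hm f).2 (h2 f hf)
  obtain ⟨Q, hQ0, hQm, hQk, hQd⟩ := krull_chain (K := K) (fun k => tay s H (k + 1)) (D - 1) Q0 m hQm0
    (fun k _ => by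
      rw [hm, ev0_hom (hhom (k + 1)) (by omega)]
      exact zero_mem _)
  have hdQ : dm K p.asIdeal + 1 ≤ dm K Q.asIdeal := by omega
  have hδQ : ∀ P' : Ideal (MvPolynomial (Fin D) (MvPolynomial σ K)), P' ≤ m.asIdeal → C δ ∉ P' := by
    intro P' hP' hc
    have := (hm _).1 (hP' hc)
    rw [ev0_C] at this
    exact hδ this
  -- the last Taylor component is - H
  have hrel : tay s H D + C H ∈ Q.asIdeal := by
    have h4 : tr s H ∈ Q.asIdeal := hQ0 (h1 H hp)
    have e0 : ∑ x ∈ Finset.range D, tay s H x =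
        ∑ k ∈ Finset.range (D - 1), tay s H (k + 1) + C H := by
      have h5 := Finset.sum_range_succ' (fun x => tay s H x) (D - 1)
      rw [Nat.sub_add_cancel hD, tay_zero] at h5
      exact h5
    rw [← tay_sum s hH, Finset.sum_range_succ, e0] at h4
    have h5 : ∑ k ∈ Finset.range (D - 1), tay s H (k + 1) ∈ Q.asIdeal :=
      sum_mem fun k hk => hQk k (Finset.mem_range.1 hk)
    have h6 := sub_mem h4 h5
    have e : ∑ k ∈ Finset.range (D - 1), tay s H (k + 1) + C H + tay s H D -
        ∑ k ∈ Finset.range (D - 1), tay s H (k + 1) = tay s H D + C H := by ring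
    rwa [e] at h6
  have hM' : ∀ α : Fin D →₀ ℕ, α.degree = M →
      ∃ c : MvPolynomial (Fin D) (MvPolynomial σ K), (∀ β ∈ c.support, β.degree < M) ∧
        C δ * monomial α 1 + C H * c ∈ Q.asIdeal := by
    intro α hα
    have h4 := hM α hα
    have e1 : TI s H = Ideal.span (Set.range fun k : Fin D => tay s H (k + 1)) := by
      unfold TI
      congr 1
      ext f
      simp only [Set.mem_setOf_eq, Set.mem_range]
      constructor
      · rintro ⟨k, hk1, hk2, rfl⟩
        refine ⟨⟨k - 1, by omega⟩, ?_⟩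
        simp only
        rw [Nat.sub_add_cancel hk1]
      · rintro ⟨k, rfl⟩
        exact ⟨k + 1, by omega, by omega, rfl⟩
    rw [e1, Ideal.mem_span_range_iff_exists_fun] at h4
    obtain ⟨c, hc⟩ := h4
    have h5 : (C δ * monomial α 1 : MvPolynomial (Fin D) (MvPolynomial σ K)).IsHomogeneous M := by
      have h6 := (isHomogeneous_C (Fin D) δ).mul (isHomogeneous_monomial (1 : MvPolynomial σ K) hα)
      rwa [zero_add] at h6
    have h6 : homogeneousComponent M (∑ k, c k * tay s H (k + 1)) = C δ * monomial α 1 := by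
      rw [hc, homogeneousComponent_of_mem h5, if_pos rfl]
    rw [map_sum] at h6
    let k0 : Fin D := ⟨D - 1, by omega⟩
    have hk0 : (k0 : ℕ) + 1 = D := by simp only [k0]; omega
    rw [← Finset.add_sum_erase _ _ (Finset.mem_univ k0)] at h6
    have h7 : ∑ k ∈ Finset.univ.erase k0, homogeneousComponent M (c k * tay s H (k + 1)) ∈
        Q.asIdeal := by
      refine sum_mem fun k hk => ?_
      rw [hc_mul _ _ (hhom _)]
      split_ifs
      · refine Ideal.mul_mem_left _ _ (hQk k ?_)
        have h8 : k ≠ k0 := (Finset.mem_erase.1 hk).1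
        have h9 : (k : ℕ) ≠ D - 1 := fun h => h8 (Fin.ext h)
        have := k.2
        omega
      · exact zero_mem _
    rw [hc_mul _ _ (hhom _), hk0] at h6
    by_cases hDM : D ≤ M
    · rw [if_pos hDM] at h6
      refine ⟨homogeneousComponent (M - D) (c k0), ?_, ?_⟩
      · intro β hβ
        have h8 := homogeneousComponent_isHomogeneous (M - D) (c k0) (mem_support_iff.1 hβ)
        have h9 : β.degree = M - D := by
          rw [Finsupp.degree_eq_weight_one]
          exact h8
        omega
      · have h8 : C H * homogeneousComponent (M - D) (c k0) +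
            homogeneousComponent (M - D) (c k0) * tay s H D ∈ Q.asIdeal := by
          have h9 := Ideal.mul_mem_left _ (homogeneousComponent (M - D) (c k0)) hrel
          have e : homogeneousComponent (M - D) (c k0) * (tay s H D + C H) =
            C H * homogeneousComponent (M - D) (c k0) +
              homogeneousComponent (M - D) (c k0) * tay s H D := by ring
          rwa [e] at h9
        have h9 := add_mem h7 h8
        rw [← h6]
        have e : ∀ x y z : MvPolynomial (Fin D) (MvPolynomial σ K), x + y + z = y + (z + x) := by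
          intro x y z
          ring
        rw [e]
        exact h9
    · rw [if_neg hDM, zero_add] at h6
      refine ⟨0, by simp, ?_⟩
      rw [mul_zero, add_zero, ← h6]
      exact h7
  -- primes over Q which contain the variables
  have hX : ∀ P' : Ideal (MvPolynomial (Fin D) (MvPolynomial σ K)), Q.asIdeal ≤ P' →
      (∀ a, X a ∈ P') → ∀ h ∈ p.asIdeal, C h ∈ P' := by
    intro P' hP' hXP h hh
    have h4 : tr s h ∈ P' := hP' (hQ0 (h1 h hh))
    rw [mem_of_ev0 P' hXP, ev0_tr] at h4
    exact h4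
  have hX' : ∀ P' : PrimeSpectrum (MvPolynomial (Fin D) (MvPolynomial σ K)),
      Q.asIdeal ≤ P'.asIdeal → P'.asIdeal ≤ m.asIdeal → C H ∈ P'.asIdeal →
        m.asIdeal ≤ P'.asIdeal := by
    intro P' hQP hPm hHP
    have hXP : ∀ a, X a ∈ P'.asIdeal := by
      intro a
      obtain ⟨c, _, hc⟩ := hM' (Finsupp.single a M) (by simp [Finsupp.degree_single])
      have h4 : C δ * monomial (Finsupp.single a M) 1 ∈ P'.asIdeal := by
        have h5 := sub_mem (hQP hc) (Ideal.mul_mem_right c _ hHP)
        rwa [add_sub_cancel_right] at h5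
      rcases P'.isPrime.mem_or_mem h4 with h5 | h5
      · exact absurd h5 (hδQ _ hPm)
      · have e : (monomial (Finsupp.single a M) (1 : MvPolynomial σ K)) = X a ^ M := by
          rw [X_pow_eq_monomial]
        rw [e] at h5
        exact P'.isPrime.mem_of_pow_mem _ h5
    intro f hf
    rw [mem_of_ev0 P'.asIdeal hXP]
    exact hX _ hQP hXP _ ((hm f).1 hf)
  have hHm : C H ∈ m.asIdeal := by
    rw [hm, ev0_C]
    exact hp
  have hHQ : C H ∉ Q.asIdeal := by
    intro hc
    have h4 := hX' Q le_rfl hQm hc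
    have h5 := dm_le (K := K) m.asIdeal Q.asIdeal h4
    omega
  have hdQ' : dm K Q.asIdeal ≤ dm K p.asIdeal + 1 := by
    obtain ⟨Q', h4, h5, h6, h7⟩ := krull_chain (K := K) (fun _ => C H) 1 Q m hQm (fun _ _ => hHm)
    have h8 := hX' Q' h4 h5 (h6 0 one_pos)
    have h9 : Q'.asIdeal = m.asIdeal := le_antisymm h5 h8
    rw [h9, hdm] at h7
    exact h7
  let q : PrimeSpectrum (MvPolynomial σ K) :=
    PrimeSpectrum.comap (C : MvPolynomial σ K →+* MvPolynomial (Fin D) (MvPolynomial σ K)) Q
  have hq : ∀ h, h ∈ q.asIdeal ↔ C h ∈ Q.asIdeal := fun h => Iff.rfl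
  have hqp : q.asIdeal ≤ p.asIdeal := by
    intro h hh
    have h4 := (hm _).1 (hQm ((hq h).1 hh))
    rwa [ev0_C] at h4
  have hHq : H ∉ q.asIdeal := fun h => hHQ ((hq H).1 h)
  have hlt : q.asIdeal < p.asIdeal := lt_of_le_of_ne hqp fun h => hHq (h ▸ hp)
  have hdq1 : dm K p.asIdeal < dm K q.asIdeal := dm_lt _ _ hlt
  have hdq2 : dm K q.asIdeal ≤ dm K Q.asIdeal := by
    have h4 := dm_comap_le (K := K) (IsScalarTower.toAlgHom K (MvPolynomial σ K)
      (MvPolynomial (Fin D) (MvPolynomial σ K))) Q.asIdeal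
    exact h4
  refine ⟨q, hqp, ?_, hHq, by omega, ?_⟩
  · refine Ideal.span_le.2 ?_
    rintro h ⟨hh1, hh2⟩
    change h ∈ q.asIdeal
    rw [hq, ← tr_supp hh2]
    exact hQ0 (h1 h hh1)
  · intro P hqP hHP hδP h hh
    obtain ⟨P', _, h5, h6, h7⟩ := lying Q.asIdeal H δ M hM' P.asIdeal hqP hHP hδP
    have h8 := hX P' h5 h7 h hh
    rw [← h6]
    exact h8

end Pool.Agent.HCN
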