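import Pool.Agent.HCN.Defs

namespace Pool.Agent.HCN

open Pool.Agent.HCH Pool.Agent.HCF Pool.Agent.HCJ MvPolynomial

/-- The elements with a positive multiple in `T`. -/
def sat {M : Type} [AddCommGroup M] (T : AddSubgroup M) : AddSubgroup M where
  carrier := {z | ∃ N : ℕ, 0 < N ∧ (N : ℤ) • z ∈ T}
  zero_mem' := ⟨1, one_pos, by simp⟩
  add_mem' := by
    rintro a b ⟨N1, h1, h2⟩ ⟨N2, h3, h4⟩
    refine ⟨N1 * N2, Nat.mul_pos h1 h3, ?_⟩
    have e : ((N1 * N2 : ℕ) : ℤ) • (a + b) = (N2 : ℤ) • ((N1 : ℤ) • a) +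
        (N1 : ℤ) • ((N2 : ℤ) • b) := by
      rw [smul_add, smul_smul, smul_smul, Nat.cast_mul, mul_comm (N2 : ℤ) (N1 : ℤ)]
    rw [e]
    exact add_mem (zsmul_mem h2 _) (zsmul_mem h4 _)
  neg_mem' := by
    rintro a ⟨N1, h1, h2⟩
    refine ⟨N1, h1, ?_⟩
    rw [smul_neg]
    exact neg_mem h2

theorem mem_sat {M : Type} [AddCommGroup M] {T : AddSubgroup M} {z : M} :
    z ∈ sat T ↔ ∃ N : ℕ, 0 < N ∧ (N : ℤ) • z ∈ T := Iff.rfl

theorem le_sat {M : Type} [AddCommGroup M] (T : AddSubgroup M) : T ≤ sat T :=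
  fun z hz => ⟨1, one_pos, by simpa using hz⟩

theorem sat_of_smul {M : Type} [AddCommGroup M] {T : AddSubgroup M} {z : M} {n : ℤ} (hn : 0 < n)
    (h : n • z ∈ sat T) : z ∈ sat T := by
  obtain ⟨N, hN, h1⟩ := h
  refine ⟨N * n.toNat, Nat.mul_pos hN (by omega), ?_⟩
  have e : ((N * n.toNat : ℕ) : ℤ) • z = (N : ℤ) • (n • z) := by
    rw [smul_smul, Nat.cast_mul, Int.toNat_of_nonneg hn.le]
  rw [e]
  exact h1

theorem C0_mlt_ne_zero {R : Type} [CommRing R] (J : Ideal R) (P : PrimeSpectrum R)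
    (h : J ≤ P.asIdeal) : mlt J P ≠ 0 := by
  unfold mlt
  rw [Ne, Module.length_eq_zero_iff, Ideal.Quotient.subsingleton_iff]
  intro h1
  have h2 : J.map (algebraMap R (Localization.AtPrime P.asIdeal)) ≤
      IsLocalRing.maximalIdeal (Localization.AtPrime P.asIdeal) := by
    rw [← Localization.AtPrime.map_eq_maximalIdeal]
    exact Ideal.map_mono h
  rw [h1] at h2
  exact (IsLocalRing.maximalIdeal.isMaximal _).ne_top (top_le_iff.1 h2)

end Pool.Agent.HCN
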