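import Pool.Agent.HCN.C0
import Pool.Agent.HCN.B4

namespace Pool.Agent.HCN

open Pool.Agent.HCH Pool.Agent.HCF Pool.Agent.HCJ MvPolynomial

theorem aff_ind {K : Type} [Field K] [CharZero K] {N D : ℕ} {ι : Type} (hD : 1 ≤ D)
    {H : MvPolynomial (Fin N) K} (hH : H.IsHomogeneous D) (J : Finset ι) (s : ι → Fin D → Fin N)
    (hs : ∀ i ∈ J, Function.Injective (s i)) (δ : ι → MvPolynomial (Fin N) K) (M : ι → ℕ)
    (hM : ∀ i ∈ J, Elim (s i) H (δ i) (M i))
    (hfree : ∀ i ∈ J, ∀ j ∈ J, j ≠ i → δ i ∈ supported K (Set.range (s j))ᶜ) (e : ℕ)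
    (he : e + 1 < N)
    (hbad : ∀ P : PrimeSpectrum (MvPolynomial (Fin N) K), H ∈ P.asIdeal → dm K P.asIdeal = e →
      (∀ i ∈ J, δ i ∈ P.asIdeal) → Finsupp.single P (1 : ℤ) ∈ sat (Rt K (Ideal.span {H}) e))
    (n : ℕ) : ∀ I : Finset ι, I ⊆ J → J.card ≤ I.card + n →
      ∀ p : PrimeSpectrum (MvPolynomial (Fin N) K), H ∈ p.asIdeal → dm K p.asIdeal = e →
        (∀ i ∈ I, δ i ∈ p.asIdeal) → Finsupp.single p (1 : ℤ) ∈ sat (Rt K (Ideal.span {H}) e) := by
  classical
  induction n with
  | zero =>
    intro I hI hc p hp hdp hδ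
    have h1 : I = J := Finset.eq_of_subset_of_card_le hI (by simpa using hc)
    subst h1
    exact hbad p hp hdp hδ
  | succ n ih =>
    intro I hI hc p hp hdp hδ
    by_cases hIJ : J ⊆ I
    · have h1 : I = J := Finset.Subset.antisymm hI hIJ
      subst h1
      exact hbad p hp hdp hδ
    · obtain ⟨i, hiJ, hiI⟩ := Finset.not_subset.1 hIJ
      have hins : insert i I ⊆ J := Finset.insert_subset hiJ hI
      have hcard : J.card ≤ (insert i I).card + n := by
        rw [Finset.card_insert_of_notMem hiI]
        omega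
      by_cases hip : δ i ∈ p.asIdeal
      · refine ih (insert i I) hins hcard p hp hdp ?_
        intro j hj
        rcases Finset.mem_insert.1 hj with rfl | hj
        · exact hip
        · exact hδ j hj
      · obtain ⟨q, hqp, hcq, hHq, hdq, hP⟩ := core (hs i hiJ) hD hH p hp hip (hM i hiJ)
        rw [hdp] at hdq
        have hqpr := q.isPrime
        set T := sat (Rt K (Ideal.span {H}) e) with hT
        set v := fdiv K q.asIdeal H e with hv
        have hvT : v ∈ T := HCR.gys_tors' N e he H q hdq hHq
        have hvs : ∀ P, v P ≠ 0 → dm K P.asIdeal = e ∧ q.asIdeal ≤ P.asIdeal ∧ H ∈ P.asIdeal := by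
          intro P hP0
          obtain ⟨h1, h2⟩ := fdiv_supp _ _ _ _ hP0
          exact ⟨h1, le_sup_left.trans h2,
            h2 (Ideal.mem_sup_right (Ideal.mem_span_singleton_self H))⟩
        have hother : ∀ P, v P ≠ 0 → P ≠ p → Finsupp.single P (1 : ℤ) ∈ T := by
          intro P hP0 hPp
          obtain ⟨h1, h2, h3⟩ := hvs P hP0
          have h4 : δ i ∈ P.asIdeal := by
            by_contra h4
            have h5 := hP P h2 h3 h4
            have h6 := eq_of_dm_le (K := K) p.asIdeal P.asIdeal h5 (by rw [hdp, h1])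
            exact hPp (PrimeSpectrum.ext h6.symm)
          refine ih (insert i I) hins hcard P h3 h1 ?_
          intro j hj
          rcases Finset.mem_insert.1 hj with rfl | hj
          · exact h4
          · have h5 : δ j ∈ cyl (Set.range (s i)) p.asIdeal :=
              (mem_cyl (hfree j (hI hj) i hiJ (fun h => hiI (h ▸ hj)))).2 (hδ j hj)
            exact h2 (hcq h5)
        have hvp : 0 < v p := by
          rw [hv, fdiv_apply q.asIdeal H hHq e hdq p hdp]
          have h1 : q.asIdeal ⊔ Ideal.span {H} ≤ p.asIdeal :=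
            sup_le hqp ((Ideal.span_singleton_le_iff_mem _).2 hp)
          have h2 := C0_mlt_ne_zero _ _ h1
          have h3 := mlt_ne_top (K := K) q.asIdeal H hHq p (by rw [hdp, hdq])
          unfold od
          have h4 : (mlt (q.asIdeal ⊔ Ideal.span {H}) p).toNat ≠ 0 := by
            intro h5
            rcases ENat.toNat_eq_zero.1 h5 with h6 | h6
            · exact h2 h6
            · exact h3 h6
          omega
        have hsum : v p • Finsupp.single p (1 : ℤ) ∈ T := by
          have hpm : p ∈ v.support := Finsupp.mem_support_iff.2 hvp.ne'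
          have h1 : v = v p • Finsupp.single p (1 : ℤ) +
              ∑ P ∈ v.support.erase p, v P • Finsupp.single P (1 : ℤ) := by
            conv_lhs => rw [← Finsupp.sum_single v, Finsupp.sum, ← Finset.add_sum_erase _ _ hpm]
            simp only [Finsupp.smul_single, smul_eq_mul, mul_one]
          have h2 : ∑ P ∈ v.support.erase p, v P • Finsupp.single P (1 : ℤ) ∈ T := by
            refine sum_mem fun P hP1 => zsmul_mem ?_ _
            obtain ⟨h3, h4⟩ := Finset.mem_erase.1 hP1
            exact hother P (Finsupp.mem_support_iff.1 h4) h3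
          have h3 := eq_sub_of_add_eq h1.symm
          rw [h3]
          exact sub_mem hvT h2
        exact sat_of_smul hvp hsum

end Pool.Agent.HCN
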