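import Pool.Agent.HCJ.A1
import Pool.Agent.HCR.U1e

/-!
Hypersurfaces without mixed terms: definitions. `F` is a form of degree `D` and `s : Fin D → σ` a set
of `D` variables; `F (x + w) = ∑ k, F_k (x; w)`, `w` in the directions `s`, is the Taylor expansion.
-/

namespace Pool.Agent.HCN

open Pool.Agent.HCH Pool.Agent.HCF Pool.Agent.HCJ MvPolynomial

variable {K : Type} [Field K] {σ : Type} {D : ℕ}

open Classical in
/-- The translation `x_{s a} ↦ x_{s a} + w_a`. -/
noncomputable def tr (s : Fin D → σ) :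
    MvPolynomial σ K →ₐ[K] MvPolynomial (Fin D) (MvPolynomial σ K) :=
  aeval fun i => C (X i) + ∑ a, if s a = i then X a else 0

/-- The component `F_k (x; w)` of degree `k` in `w` of `F (x + w)`. -/
noncomputable def tay (s : Fin D → σ) (F : MvPolynomial σ K) (k : ℕ) :
    MvPolynomial (Fin D) (MvPolynomial σ K) :=
  homogeneousComponent k (tr s F)

/-- The ideal generated by the `F_k (x; w)`, `1 ≤ k ≤ D`. -/
noncomputable def TI (s : Fin D → σ) (F : MvPolynomial σ K) :
    Ideal (MvPolynomial (Fin D) (MvPolynomial σ K)) :=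
  Ideal.span {f | ∃ k, 1 ≤ k ∧ k ≤ D ∧ f = tay s F k}

/-- Outside `δ = 0` the `F_k (x; w)`, `1 ≤ k ≤ D`, have no common zero `w ≠ 0`. -/
def Elim (s : Fin D → σ) (F δ : MvPolynomial σ K) (M : ℕ) : Prop :=
  ∀ α : Fin D →₀ ℕ, α.degree = M → C δ * monomial α 1 ∈ TI s F

/-- `w ↦ 0`. -/
noncomputable def ev0 : MvPolynomial (Fin D) (MvPolynomial σ K) →ₐ[K] MvPolynomial σ K :=
  (aeval (R := MvPolynomial σ K) (fun _ : Fin D => (0 : MvPolynomial σ K))).restrictScalars K

open Classical in
/-- The variables outside `A` are set to zero. -/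
noncomputable def restr (A : Set σ) : MvPolynomial σ K →ₐ[K] MvPolynomial σ K :=
  aeval fun i => if i ∈ A then X i else 0

/-- No monomial of `F` contains variables of two different sets among the `s i`, `i ∈ J`, and `U`;
the space of each `s i` has a point `y` such that `F` is constant on no line through `y` in this
space, and the restriction of `F` to the space of `U` is irreducible. -/
structure Nm {ι : Type} (J : Finset ι) (s : ι → Fin D → σ) (U : Set σ) (F : MvPolynomial σ K) :
    Prop where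
  hom : F.IsHomogeneous D
  inj : ∀ i ∈ J, Function.Injective (s i)
  disj : ∀ i ∈ J, ∀ j ∈ J, i ≠ j → Disjoint (Set.range (s i)) (Set.range (s j))
  disjU : ∀ i ∈ J, Disjoint (Set.range (s i)) U
  mix : ∀ i ∈ J, ∀ j ∈ J, i ≠ j → ∀ d ∈ F.support, ∀ a, ∀ b ∈ Set.range (s j), d (s i a) = 0 ∨ d b = 0
  mixU : ∀ i ∈ J, ∀ d ∈ F.support, ∀ a, ∀ b ∈ U, d (s i a) = 0 ∨ d b = 0
  good : ∀ i ∈ J, ∃ y : σ → K, (∀ k, k ∉ Set.range (s i) → y k = 0) ∧
    ∀ w : σ → K, (∀ k, k ∉ Set.range (s i) → w k = 0) →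
      (∀ t : K, eval (y + t • w) F = eval y F) → w = 0
  irr : Irreducible (restr U F)

end Pool.Agent.HCN
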