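import Pool.Agent.HCN.Defs

namespace Pool.Agent.HCN

open Pool.Agent.HCH Pool.Agent.HCF Pool.Agent.HCJ MvPolynomial

open scoped TensorProduct in
theorem g1_ext (R S T : Type) [CommRing R] [CommRing S] [CommRing T] [Algebra R S]
    [Algebra R T] [Algebra S T] [IsScalarTower R S T] [Algebra.FormallyEtale S T]
    (D0 : Derivation R S T) : ∃ D : Derivation R T T, ∀ s : S, D (algebraMap S T s) = D0 s := by
  let φ : Ω[T⁄R] →ₗ[T] T := (D0.liftKaehlerDifferential.liftBaseChange T) ∘ₗ
      (KaehlerDifferential.tensorKaehlerEquivOfFormallyEtale R S T).symm.toLinearMap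
  refine ⟨φ.compDer (KaehlerDifferential.D R T), fun s => ?_⟩
  have h := KaehlerDifferential.tensorKaehlerEquivOfFormallyEtale_symm_D_algebraMap R S T s
  have h2 : (φ.compDer (KaehlerDifferential.D R T)) (algebraMap S T s) =
      (D0.liftKaehlerDifferential.liftBaseChange T)
        ((KaehlerDifferential.tensorKaehlerEquivOfFormallyEtale R S T).symm
          (KaehlerDifferential.D R T (algebraMap S T s))) := rfl
  rw [h2, h]
  simp

theorem g1_etale {K : Type} [Field K] [CharZero K] (D : ℕ) :
    Algebra.FormallyEtale (MvPolynomial (Fin D) K)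
      (AlgebraicClosure (FractionRing (MvPolynomial (Fin D) K))) := by
  have h1 : Algebra.FormallyEtale (MvPolynomial (Fin D) K)
      (FractionRing (MvPolynomial (Fin D) K)) := .of_isLocalization (nonZeroDivisors _)
  have hchar : CharZero (FractionRing (MvPolynomial (Fin D) K)) :=
    charZero_of_injective_algebraMap (algebraMap K _).injective
  have hsep : Algebra.IsSeparable (FractionRing (MvPolynomial (Fin D) K))
      (AlgebraicClosure (FractionRing (MvPolynomial (Fin D) K))) := inferInstance
  have h2 : Algebra.FormallyEtale (FractionRing (MvPolynomial (Fin D) K))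
      (AlgebraicClosure (FractionRing (MvPolynomial (Fin D) K))) :=
    Algebra.FormallyEtale.of_isSeparable _ _
  exact .comp _ (FractionRing (MvPolynomial (Fin D) K)) _

/-
PROOF. Algebra.FormallyEtale (MvPolynomial (Fin D) K) Ω (localization, then separable algebraic:
FormallyEtale.of_isLocalization, of_isSeparable, comp), so Ω ⊗ Ω[K[y]⁄K] ≃ Ω[Ω⁄K]
(KaehlerDifferential.tensorKaehlerEquivOfFormallyEtale, ..._symm_D_algebraMap); the derivation
K[y] → Ω, f ↦ algebraMap (pderiv a f), gives a linear map on the left side.
-/
theorem exists_pd {K : Type} [Field K] [CharZero K] (D : ℕ) :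
    ∃ d : Fin D → Derivation K (AlgebraicClosure (FractionRing (MvPolynomial (Fin D) K)))
        (AlgebraicClosure (FractionRing (MvPolynomial (Fin D) K))),
      ∀ a b, d a (algebraMap (MvPolynomial (Fin D) K) _ (X b)) = if a = b then 1 else 0 := by
  have := g1_etale (K := K) D
  have h : ∀ a : Fin D, ∃ d : Derivation K
      (AlgebraicClosure (FractionRing (MvPolynomial (Fin D) K)))
      (AlgebraicClosure (FractionRing (MvPolynomial (Fin D) K))),
      ∀ b, d (algebraMap (MvPolynomial (Fin D) K) _ (X b)) = if a = b then 1 else 0 := by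
    intro a
    obtain ⟨d, hd⟩ := g1_ext K (MvPolynomial (Fin D) K)
      (AlgebraicClosure (FractionRing (MvPolynomial (Fin D) K)))
      (mkDerivation K fun b => if a = b then 1 else 0)
    refine ⟨d, fun b => ?_⟩
    rw [hd, mkDerivation_X]
  choose d hd using h
  exact ⟨d, hd⟩

end Pool.Agent.HCN
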