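import Pool.Agent.HCN.Defs

namespace Pool.Agent.HCN

open Pool.Agent.HCH Pool.Agent.HCF Pool.Agent.HCJ MvPolynomial

/-
PROOF. The D vectors g 0, .., g (D - 1) lie in the hyperplane orthogonal to w ≠ 0, so they are
linearly dependent: ∑ λ_k g_k = 0. With k₀ the least k with λ_k ≠ 0 apply T^(D - 1 - k₀).
-/
theorem shift_lin {Ω : Type} [Field Ω] {D : ℕ} (hD : 1 ≤ D) (g : ℕ → Fin D → Ω)
    (T : (Fin D → Ω) →ₗ[Ω] (Fin D → Ω)) (hT : ∀ k, k + 1 < D → T (g k) = g (k + 1))
    (hT' : T (g (D - 1)) = 0) (w : Fin D → Ω) (hw : w ≠ 0)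
    (hgw : ∀ k < D, ∑ a, g k a * w a = 0) : g (D - 1) = 0 := by
  classical
  by_contra hg
  have hpow : ∀ j k, k < D → (T ^ j) (g k) = if k + j < D then g (k + j) else 0 := by
    intro j
    induction j with
    | zero => intro k hk; simp [hk]
    | succ j ih =>
      intro k hk
      rw [pow_succ', Module.End.mul_apply, ih k hk]
      by_cases h1 : k + j < D
      · rw [if_pos h1]
        by_cases h2 : k + (j + 1) < D
        · rw [if_pos h2, hT _ (by omega)]
          rfl
        · rw [if_neg h2]
          have : k + j = D - 1 := by omega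
          rw [this, hT']
      · rw [if_neg h1, if_neg (by omega), map_zero]
  have hli : LinearIndependent Ω (fun i : Fin D => g i) := by
    rw [Fintype.linearIndependent_iff]
    intro c hc i
    obtain ⟨i, hi⟩ := i
    induction i using Nat.strong_induction_on with
    | _ i ih =>
      have h1 := congrArg (T ^ (D - 1 - i)) hc
      rw [map_sum, map_zero, Finset.sum_eq_single (⟨i, hi⟩ : Fin D)] at h1
      · rw [map_smul, hpow _ _ hi] at h1
        have h2 : i + (D - 1 - i) = D - 1 := by omega
        simp only [h2] at h1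
        rw [if_pos (by omega)] at h1
        rcases smul_eq_zero.1 h1 with h3 | h3
        · exact h3
        · exact absurd h3 hg
      · rintro ⟨j, hj⟩ - hne
        have hne' : j ≠ i := fun h => hne (Fin.ext h)
        rcases lt_or_gt_of_ne hne' with h3 | h3
        · rw [ih j h3 hj, zero_smul, map_zero]
        · rw [map_smul, hpow _ _ hj, if_neg (by omega), smul_zero]
      · intro h; exact absurd (Finset.mem_univ _) h
  have hspan : Submodule.span Ω (Set.range (fun i : Fin D => g i)) = ⊤ := by
    have : Nonempty (Fin D) := ⟨⟨0, hD⟩⟩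
    refine hli.span_eq_top_of_card_eq_finrank ?_
    rw [Fintype.card_fin, Module.finrank_fin_fun]
  let ℓ : (Fin D → Ω) →ₗ[Ω] Ω := Fintype.linearCombination Ω w
  have hℓ : ∀ v, ℓ v = ∑ a, v a * w a := by
    intro v
    simp [ℓ, Fintype.linearCombination_apply]
  have hker : Submodule.span Ω (Set.range (fun i : Fin D => g i)) ≤ LinearMap.ker ℓ := by
    refine Submodule.span_le.2 ?_
    rintro _ ⟨i, rfl⟩
    rw [SetLike.mem_coe, LinearMap.mem_ker, hℓ]
    exact hgw i i.2
  apply hw
  funext a
  have h1 : Pi.single a (1 : Ω) ∈ LinearMap.ker ℓ := hker (hspan ▸ Submodule.mem_top)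
  rw [LinearMap.mem_ker, hℓ, Finset.sum_eq_single a] at h1
  · simpa using h1
  · intro b _ hb
    rw [Pi.single_eq_of_ne hb, zero_mul]
  · intro h; exact absurd (Finset.mem_univ _) h

/-- The chain rule. -/
private theorem G2_chain {K A M : Type} [CommRing K] [CommRing A] [Algebra K A] [AddCommGroup M]
    [Module A M] [Module K M] {S : Type} [Fintype S] (d : Derivation K A M) (f : S → A)
    (p : MvPolynomial S K) :
    d (aeval f p) = ∑ b, aeval f (pderiv b p) • d (f b) := by
  classical
  induction p using MvPolynomial.induction_on with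
  | C a =>
    rw [MvPolynomial.aeval_C, d.map_algebraMap]
    symm
    refine Finset.sum_eq_zero fun b _ => ?_
    rw [pderiv_C, map_zero, zero_smul]
  | add p q hp hq =>
    rw [map_add, map_add, hp, hq, ← Finset.sum_add_distrib]
    refine Finset.sum_congr rfl fun b _ => ?_
    rw [map_add, map_add, add_smul]
  | mul_X p i hp =>
    rw [map_mul, aeval_X, d.leibniz, hp]
    have h1 : ∀ b, aeval f (pderiv b (p * X i)) • d (f b) =
        f i • (aeval f (pderiv b p) • d (f b)) +
          (if b = i then aeval f p • d (f i) else 0) := by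
      intro b
      rw [pderiv_mul, map_add, map_mul, map_mul, aeval_X, add_smul, mul_comm, mul_smul]
      congr 1
      by_cases hb : b = i
      · subst hb
        rw [if_pos rfl, pderiv_X_self, map_one, mul_one]
      · rw [if_neg hb, pderiv_X_of_ne (Ne.symm hb), map_zero, mul_zero, zero_smul]
    rw [Finset.sum_congr rfl fun b _ => h1 b, Finset.sum_add_distrib, ← Finset.smul_sum,
      Finset.sum_ite_eq' Finset.univ i, if_pos (Finset.mem_univ i), add_comm]

/-- The derivation applied to the coefficients. -/
private theorem G2_coeffs {K Ω : Type} [Field K] [Field Ω] [Algebra K Ω] (d : Derivation K Ω Ω) :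
    ∃ E : Derivation K (Polynomial Ω) (Polynomial Ω),
      ∀ p n, (E p).coeff n = d (p.coeff n) := by
  classical
  have hco : ∀ (p : Polynomial Ω) (n : ℕ),
      (∑ i ∈ p.support, Polynomial.monomial i (d (p.coeff i))).coeff n = d (p.coeff n) := by
    intro p n
    rw [Polynomial.finsetSum_coeff]
    simp only [Polynomial.coeff_monomial]
    rw [Finset.sum_ite_eq' p.support n]
    by_cases h : n ∈ p.support
    · rw [if_pos h]
    · rw [if_neg h, Polynomial.notMem_support_iff.1 h, map_zero]
  let L : Polynomial Ω →ₗ[K] Polynomial Ω :=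
    { toFun := fun p => ∑ i ∈ p.support, Polynomial.monomial i (d (p.coeff i))
      map_add' := by
        intro p q
        ext n
        rw [Polynomial.coeff_add, hco, hco, hco, Polynomial.coeff_add, map_add]
      map_smul' := by
        intro c p
        ext n
        rw [RingHom.id_apply, Polynomial.coeff_smul, hco, hco, Polynomial.coeff_smul]
        exact d.toLinearMap.map_smul c _ }
  have hL : ∀ p n, (L p).coeff n = d (p.coeff n) := hco
  refine ⟨Derivation.mk' L ?_, hL⟩
  intro a b
  ext n
  rw [hL, Polynomial.coeff_mul, map_sum, Polynomial.coeff_add, smul_eq_mul, smul_eq_mul,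
    Polynomial.coeff_mul, mul_comm b, Polynomial.coeff_mul, ← Finset.sum_add_distrib]
  refine Finset.sum_congr rfl fun x _ => ?_
  rw [d.leibniz, hL, hL, smul_eq_mul, smul_eq_mul, mul_comm (b.coeff x.2)]

section Tay

variable {A L : Type} [CommRing A] [CommRing L] [Algebra A L] {S : Type}

/-- The polynomial `f (y + t w)` in `t`. -/
private noncomputable def G2_tay (f : MvPolynomial S A) (y w : S → L) : Polynomial L :=
  aeval (fun s => Polynomial.C (y s) + Polynomial.X * Polynomial.C (w s)) f

private theorem G2_lin_deg (y w : L) :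
    (Polynomial.C y + Polynomial.X * Polynomial.C w).natDegree ≤ 1 := by
  refine (Polynomial.natDegree_add_le _ _).trans (max_le ?_ ?_)
  · rw [Polynomial.natDegree_C]
    exact Nat.zero_le _
  · refine Polynomial.natDegree_mul_le.trans ?_
    rw [Polynomial.natDegree_C, add_zero]
    exact Polynomial.natDegree_X_le

private theorem G2_lin_coeff (y w : L) :
    (Polynomial.C y + Polynomial.X * Polynomial.C w).coeff 1 = w := by
  rw [Polynomial.coeff_add, Polynomial.coeff_C, if_neg one_ne_zero, zero_add,
    Polynomial.coeff_mul_C, Polynomial.coeff_X_one, one_mul]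

private theorem G2_prod (d : S → ℕ) (y w : S → L) (T : Finset S) :
    (∏ s ∈ T, (Polynomial.C (y s) + Polynomial.X * Polynomial.C (w s)) ^ d s).natDegree ≤
        ∑ s ∈ T, d s ∧
      (∏ s ∈ T, (Polynomial.C (y s) + Polynomial.X * Polynomial.C (w s)) ^ d s).coeff
        (∑ s ∈ T, d s) = ∏ s ∈ T, w s ^ d s := by
  classical
  induction T using Finset.induction_on with
  | empty => simp
  | insert s T hs ih =>
    have h1 : ((Polynomial.C (y s) + Polynomial.X * Polynomial.C (w s)) ^ d s).natDegree ≤ d s := by
      refine Polynomial.natDegree_pow_le.trans ?_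
      calc d s * _ ≤ d s * 1 := Nat.mul_le_mul_left _ (G2_lin_deg _ _)
        _ = d s := mul_one _
    have h2 : ((Polynomial.C (y s) + Polynomial.X * Polynomial.C (w s)) ^ d s).coeff (d s) =
        w s ^ d s := by
      have := Polynomial.coeff_pow_of_natDegree_le (m := d s) (G2_lin_deg (y s) (w s))
      rwa [mul_one, G2_lin_coeff] at this
    rw [Finset.prod_insert hs, Finset.sum_insert hs, Finset.prod_insert hs]
    constructor
    · exact Polynomial.natDegree_mul_le.trans (add_le_add h1 ih.1)
    · rw [Polynomial.coeff_mul_add_eq_of_natDegree_le h1 ih.1, h2, ih.2]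

private theorem G2_monomial (d : S →₀ ℕ) (a : A) (y w : S → L) :
    (G2_tay (monomial d a) y w).natDegree ≤ d.degree ∧
      (G2_tay (monomial d a) y w).coeff d.degree = aeval w (monomial d a) := by
  have h1 := G2_prod (fun s => d s) y w d.support
  have h2 : d.degree = ∑ s ∈ d.support, d s := rfl
  unfold G2_tay
  rw [aeval_monomial, aeval_monomial, h2, Finsupp.prod, Finsupp.prod,
    IsScalarTower.algebraMap_apply A L (Polynomial L), Polynomial.algebraMap_eq,
    Polynomial.coeff_C_mul, h1.2]
  exact ⟨(Polynomial.natDegree_C_mul_le _ _).trans h1.1, rfl⟩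

private theorem G2_tay_hom {f : MvPolynomial S A} {m : ℕ} (hf : f.IsHomogeneous m) (y w : S → L) :
    (G2_tay f y w).natDegree ≤ m ∧ (G2_tay f y w).coeff m = aeval w f := by
  classical
  have h1 : G2_tay f y w = ∑ d ∈ f.support, G2_tay (monomial d (coeff d f)) y w := by
    conv_lhs => rw [f.as_sum]
    unfold G2_tay
    rw [map_sum]
  have hd : ∀ d ∈ f.support, d.degree = m := by
    intro d hd
    rw [Finsupp.degree_eq_weight_one]
    exact hf (mem_support_iff.1 hd)
  constructor
  · rw [h1]
    refine Polynomial.natDegree_sum_le_of_forall_le _ _ fun d hd' => ?_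
    rw [← hd d hd']
    exact (G2_monomial d _ y w).1
  · rw [h1, Polynomial.finsetSum_coeff]
    conv_rhs => rw [f.as_sum]
    rw [map_sum]
    refine Finset.sum_congr rfl fun d hd' => ?_
    have := (G2_monomial d (coeff d f) y w).2
    rwa [hd d hd'] at this

end Tay

/-
PROOF. In Ω[t]: G (y + t w) = G (y). Derivative in t: ∑_b (∂_b G) (y + t w) w_b = 0. Apply d a
coefficientwise (Derivation.mapCoeffs): (∂_a G) (y + t w) + t ∑_b (∂_b G) (y + t w) d_a w_b =
(∂_a G) (y). So with g_k = coefficient of t^k of (∂_b G (y + t w))_b and (T v)_a = - ∑_b v_b d_a w_b: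
g_k · w = 0, T g_k = g_(k+1) for k + 1 < D, T g_(D-1) = 0 (∂_b G has degree D - 1). By shift_lin
g_(D-1) = (∂_b G (w))_b = 0 (top coefficient), contradiction to smoothness.
-/
theorem shift {K Ω : Type} [Field K] [Field Ω] [Algebra K Ω] {D : ℕ} (hD : 1 ≤ D)
    (G : MvPolynomial (Fin D) K) (hG : G.IsHomogeneous D)
    (hsm : ∀ w : Fin D → Ω, (∀ a, aeval w (pderiv a G) = 0) → w = 0) (y : Fin D → Ω)
    (d : Fin D → Derivation K Ω Ω) (hd : ∀ a b, d a (y b) = if a = b then 1 else 0)
    (w : Fin D → Ω) (hw : aeval (fun a => Polynomial.C (y a) + Polynomial.X * Polynomial.C (w a)) G =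
      Polynomial.C (aeval y G)) : w = 0 := by
  classical
  by_contra hw0
  set P : Fin D → Polynomial Ω := fun b => G2_tay (pderiv b G) y w with hP
  have hPh : ∀ b, (pderiv b G).IsHomogeneous (D - 1) := fun b => hG.pderiv
  have hPd : ∀ b, (P b).natDegree ≤ D - 1 := fun b => (G2_tay_hom (hPh b) y w).1
  have hPc : ∀ b, (P b).coeff (D - 1) = aeval w (pderiv b G) :=
    fun b => (G2_tay_hom (hPh b) y w).2
  -- the derivative in `t`
  have h1 : ∑ b, P b * Polynomial.C (w b) = 0 := by
    have h2 := congrArg (Polynomial.derivative' (R := Ω)) hw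
    have h3 := G2_chain ((Polynomial.derivative' (R := Ω)).restrictScalars K)
      (fun a => Polynomial.C (y a) + Polynomial.X * Polynomial.C (w a)) G
    rw [Derivation.restrictScalars_apply] at h3
    rw [h3] at h2
    have h4 : (Polynomial.derivative' (R := Ω)) (Polynomial.C (aeval y G)) = 0 := by
      rw [Polynomial.derivative'_apply, Polynomial.derivative_C]
    rw [h4] at h2
    rw [← h2]
    refine Finset.sum_congr rfl fun b _ => ?_
    rw [Derivation.restrictScalars_apply, Polynomial.derivative'_apply, smul_eq_mul]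
    congr 1
    simp
  -- the derivations of the coefficients
  have h5 : ∀ a, P a + Polynomial.X * ∑ b, P b * Polynomial.C (d a (w b)) =
      Polynomial.C (d a (aeval y G)) := by
    intro a
    obtain ⟨E, hE⟩ := G2_coeffs (d a)
    have hEC : ∀ c, E (Polynomial.C c) = Polynomial.C (d a c) := by
      intro c
      ext n
      rw [hE, Polynomial.coeff_C, Polynomial.coeff_C]
      split_ifs with h
      · rfl
      · rw [map_zero]
    have hEX : E Polynomial.X = 0 := by
      ext n
      rw [hE, Polynomial.coeff_X, Polynomial.coeff_zero]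
      split_ifs with h
      · exact (d a).map_one_eq_zero
      · rw [map_zero]
    have h2 := congrArg E hw
    rw [hEC, G2_chain] at h2
    rw [← h2]
    have h3 : ∀ b, E (Polynomial.C (y b) + Polynomial.X * Polynomial.C (w b)) =
        (if a = b then 1 else 0) + Polynomial.X * Polynomial.C (d a (w b)) := by
      intro b
      rw [map_add, E.leibniz, hEC, hEC, hEX, smul_zero, add_zero, smul_eq_mul, hd]
      congr 1
      split_ifs
      · rw [Polynomial.C_1]
      · rw [Polynomial.C_0]
    have h4 : ∀ b, (aeval fun a => Polynomial.C (y a) + Polynomial.X * Polynomial.C (w a))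
        (pderiv b G) • E (Polynomial.C (y b) + Polynomial.X * Polynomial.C (w b)) =
        P b * (if a = b then 1 else 0) + P b * (Polynomial.X * Polynomial.C (d a (w b))) := by
      intro b
      rw [h3 b, smul_eq_mul, mul_add]
      rfl
    rw [Finset.sum_congr rfl fun b _ => h4 b, Finset.sum_add_distrib, Finset.mul_sum]
    congr 1
    · symm
      rw [Finset.sum_eq_single a]
      · rw [if_pos rfl, mul_one]
      · intro b _ hb
        rw [if_neg (Ne.symm hb), mul_zero]
      · intro h; exact absurd (Finset.mem_univ _) h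
    · refine Finset.sum_congr rfl fun b _ => ?_
      ring
  have h6 : ∀ a k, (P a).coeff (k + 1) = - ∑ b, (P b).coeff k * d a (w b) := by
    intro a k
    have h7 := congrArg (fun p => Polynomial.coeff p (k + 1)) (h5 a)
    simp only [Polynomial.coeff_add, Polynomial.coeff_X_mul, Polynomial.finsetSum_coeff,
      Polynomial.coeff_mul_C, Polynomial.coeff_C_succ] at h7
    exact eq_neg_of_add_eq_zero_left h7
  let T : (Fin D → Ω) →ₗ[Ω] (Fin D → Ω) :=
    { toFun := fun v a => - ∑ b, v b * d a (w b)
      map_add' := by
        intro u v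
        funext a
        simp only [Pi.add_apply, add_mul, Finset.sum_add_distrib]
        ring
      map_smul' := by
        intro c v
        funext a
        simp only [Pi.smul_apply, smul_eq_mul, RingHom.id_apply, mul_assoc, ← Finset.mul_sum,
          mul_neg] }
  have hT : ∀ k, T (fun b => (P b).coeff k) = fun b => (P b).coeff (k + 1) := by
    intro k
    funext a
    exact (h6 a k).symm
  have h8 := shift_lin hD (fun k b => (P b).coeff k) T (fun k _ => hT k) (by
      rw [hT (D - 1)]
      funext b
      apply Polynomial.coeff_eq_zero_of_natDegree_lt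
      exact lt_of_le_of_lt (hPd b) (Nat.lt_succ_self _)) w hw0 (by
      intro k _
      have h9 := congrArg (fun p => Polynomial.coeff p k) h1
      simpa only [Polynomial.finsetSum_coeff, Polynomial.coeff_mul_C, Polynomial.coeff_zero]
        using h9)
  apply hw0
  refine hsm w fun a => ?_
  rw [← hPc a]
  exact congrFun h8 a

end Pool.Agent.HCN
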