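import Pool.Agent.HCN.Defs

namespace Pool.Agent.HCN

open Pool.Agent.HCH Pool.Agent.HCF Pool.Agent.HCJ MvPolynomial

variable {K : Type} [Field K] {σ : Type} {D : ℕ}

theorem tr_X_of_mem {s : Fin D → σ} (hs : Function.Injective s) (a : Fin D) :
    tr s (X (s a) : MvPolynomial σ K) = C (X (s a)) + X a := by
  classical
  rw [tr, aeval_X]
  congr 1
  rw [Finset.sum_eq_single a]
  · rw [if_pos rfl]
  · intro b _ hb
    rw [if_neg (fun h => hb (hs h))]
  · intro h
    exact absurd (Finset.mem_univ a) h

theorem tr_X_of_notMem {s : Fin D → σ} {i : σ} (hi : i ∉ Set.range s) :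
    tr s (X i : MvPolynomial σ K) = C (X i) := by
  classical
  rw [tr, aeval_X]
  rw [Finset.sum_eq_zero, add_zero]
  intro a _
  rw [if_neg (fun h => hi ⟨a, h⟩)]

/-- A polynomial in the other variables does not change. -/
theorem tr_supp {s : Fin D → σ} {h : MvPolynomial σ K} (hh : h ∈ supported K (Set.range s)ᶜ) :
    tr s h = C h := by
  rw [supported] at hh
  induction hh using Algebra.adjoin_induction with
  | mem x hx =>
    obtain ⟨i, hi, rfl⟩ := hx
    exact tr_X_of_notMem hi
  | algebraMap r =>
    rw [AlgHom.commutes]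
    rfl
  | add x y _ _ hx hy => rw [map_add, hx, hy, map_add]
  | mul x y _ _ hx hy => rw [map_mul, hx, hy, map_mul]

theorem ev0_C (h : MvPolynomial σ K) : ev0 (C h : MvPolynomial (Fin D) (MvPolynomial σ K)) = h := by
  rw [ev0, AlgHom.restrictScalars_apply, aeval_C]
  rfl

theorem ev0_X (a : Fin D) :
    ev0 (X a : MvPolynomial (Fin D) (MvPolynomial σ K)) = 0 := by
  rw [ev0, AlgHom.restrictScalars_apply, aeval_X]

theorem ev0_tr (s : Fin D → σ) (h : MvPolynomial σ K) : ev0 (tr s h) = h := by
  classical
  have : (ev0.comp (tr s) : MvPolynomial σ K →ₐ[K] MvPolynomial σ K) = AlgHom.id K _ := by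
    apply algHom_ext
    intro i
    rw [AlgHom.comp_apply, tr, aeval_X, map_add, ev0_C, map_sum, Finset.sum_eq_zero, add_zero]
    · rfl
    · intro a _
      split_ifs
      · exact ev0_X a
      · exact map_zero _
  exact DFunLike.congr_fun this h

theorem ev0_surj : Function.Surjective (ev0 : MvPolynomial (Fin D) (MvPolynomial σ K) → _) :=
  fun h => ⟨C h, ev0_C h⟩

/-- An ideal which contains the variables contains `f` iff it contains its constant term. -/
theorem mem_of_ev0 (I : Ideal (MvPolynomial (Fin D) (MvPolynomial σ K))) (hI : ∀ a, X a ∈ I)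
    (f : MvPolynomial (Fin D) (MvPolynomial σ K)) : f ∈ I ↔ C (ev0 f) ∈ I := by
  have key : f - C (ev0 f) ∈ I := by
    induction f using MvPolynomial.induction_on with
    | C a => rw [ev0_C, sub_self]; exact I.zero_mem
    | add p q hp hq =>
      rw [map_add, map_add]
      have := I.add_mem hp hq
      convert this using 1
      ring
    | mul_X p i hp =>
      rw [map_mul, ev0_X, mul_zero, map_zero, sub_zero]
      exact I.mul_mem_left _ (hI i)
  constructor
  · intro h
    have := I.sub_mem h key
    rwa [sub_sub_cancel] at this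
  · intro h
    have := I.add_mem key h
    rwa [sub_add_cancel] at this

theorem t1_ev0_eq (f : MvPolynomial (Fin D) (MvPolynomial σ K)) : ev0 f = coeff 0 f := by
  rw [ev0, AlgHom.restrictScalars_apply, aeval_zero']
  rfl

theorem tay_zero (s : Fin D → σ) (F : MvPolynomial σ K) : tay s F 0 = C F := by
  rw [tay, homogeneousComponent_zero, ← t1_ev0_eq, ev0_tr]

/-- All the terms have the total degree `n`. -/
def t1_BH (n : ℕ) (f : MvPolynomial (Fin D) (MvPolynomial σ K)) : Prop :=
  ∀ α, (coeff α f).IsHomogeneous (n - α.degree) ∧ (n < α.degree → coeff α f = 0)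

theorem t1_BH_add {n : ℕ} {f g : MvPolynomial (Fin D) (MvPolynomial σ K)} (hf : t1_BH n f)
    (hg : t1_BH n g) : t1_BH n (f + g) := by
  intro α
  rw [coeff_add]
  refine ⟨(hf α).1.add (hg α).1, fun h => ?_⟩
  rw [(hf α).2 h, (hg α).2 h, add_zero]

theorem t1_BH_zero (n : ℕ) : t1_BH n (0 : MvPolynomial (Fin D) (MvPolynomial σ K)) := by
  intro α
  rw [coeff_zero]
  exact ⟨isHomogeneous_zero _ _ _, fun _ => rfl⟩

theorem t1_BH_sum {ι : Type*} (t : Finset ι) {n : ℕ}
    {f : ι → MvPolynomial (Fin D) (MvPolynomial σ K)}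
    (hf : ∀ i ∈ t, t1_BH n (f i)) : t1_BH n (∑ i ∈ t, f i) := by
  classical
  induction t using Finset.induction_on with
  | empty => rw [Finset.sum_empty]; exact t1_BH_zero n
  | insert i t hi ih =>
    rw [Finset.sum_insert hi]
    exact t1_BH_add (hf i (Finset.mem_insert_self i t))
      (ih fun j hj => hf j (Finset.mem_insert_of_mem hj))

theorem t1_BH_mul {m n : ℕ} {f g : MvPolynomial (Fin D) (MvPolynomial σ K)} (hf : t1_BH m f)
    (hg : t1_BH n g) : t1_BH (m + n) (f * g) := by
  classical
  intro α
  rw [coeff_mul]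
  constructor
  · apply IsHomogeneous.sum
    intro x hx
    have hdeg : x.1.degree + x.2.degree = α.degree := by
      rw [Finset.HasAntidiagonal.mem_antidiagonal] at hx
      rw [← hx, map_add]
    by_cases h1 : m < x.1.degree
    · rw [(hf x.1).2 h1, zero_mul]
      exact isHomogeneous_zero _ _ _
    by_cases h2 : n < x.2.degree
    · rw [(hg x.2).2 h2, mul_zero]
      exact isHomogeneous_zero _ _ _
    have h3 := (hf x.1).1.mul (hg x.2).1
    have h4 : m - x.1.degree + (n - x.2.degree) = m + n - α.degree := by omega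
    rwa [h4] at h3
  · intro h
    apply Finset.sum_eq_zero
    intro x hx
    have hdeg : x.1.degree + x.2.degree = α.degree := by
      rw [Finset.HasAntidiagonal.mem_antidiagonal] at hx
      rw [← hx, map_add]
    by_cases h1 : m < x.1.degree
    · rw [(hf x.1).2 h1, zero_mul]
    · rw [(hg x.2).2 (by omega), mul_zero]

theorem t1_BH_C {n : ℕ} {r : MvPolynomial σ K} (hr : r.IsHomogeneous n) :
    t1_BH n (C r : MvPolynomial (Fin D) (MvPolynomial σ K)) := by
  classical
  intro α
  rw [coeff_C]
  split_ifs with h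
  · subst h
    simp only [map_zero, Nat.sub_zero]
    exact ⟨hr, fun h => absurd h (Nat.not_lt_zero n)⟩
  · exact ⟨isHomogeneous_zero _ _ _, fun _ => rfl⟩

theorem t1_BH_X (a : Fin D) : t1_BH 1 (X a : MvPolynomial (Fin D) (MvPolynomial σ K)) := by
  classical
  intro α
  rw [MvPolynomial.coeff_X]
  split_ifs with h
  · subst h
    rw [Finsupp.degree_single]
    exact ⟨isHomogeneous_one _ _, fun h => absurd h (lt_irrefl 1)⟩
  · exact ⟨isHomogeneous_zero _ _ _, fun _ => rfl⟩

theorem t1_BH_tr_X (s : Fin D → σ) (i : σ) : t1_BH 1 (tr s (X i : MvPolynomial σ K)) := by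
  classical
  rw [tr, aeval_X]
  apply t1_BH_add
  · exact t1_BH_C (isHomogeneous_X K i)
  · apply t1_BH_sum
    intro a _
    split_ifs
    · exact t1_BH_X a
    · exact t1_BH_zero 1

theorem t1_BH_tr_monomial (s : Fin D → σ) (d : σ →₀ ℕ) (r : K) :
    t1_BH d.degree (tr s (monomial d r)) := by
  classical
  induction d using Finsupp.induction_linear generalizing r with
  | zero =>
    rw [map_zero]
    have : tr s (monomial 0 r) = C (C r) := by
      have h0 : (monomial 0 r : MvPolynomial σ K) = algebraMap K _ r := rfl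
      rw [h0, AlgHom.commutes]
      rfl
    rw [this]
    exact t1_BH_C (isHomogeneous_C σ r)
  | add d e hd he =>
    have : (monomial (d + e) r : MvPolynomial σ K) = monomial d r * monomial e 1 := by
      rw [monomial_mul, mul_one]
    rw [this, map_mul, map_add]
    exact t1_BH_mul (hd r) (he 1)
  | single i k =>
    rw [Finsupp.degree_single]
    induction k generalizing r with
    | zero =>
      have : tr s (monomial (Finsupp.single i 0) r) = C (C r) := by
        rw [Finsupp.single_zero]
        have h0 : (monomial 0 r : MvPolynomial σ K) = algebraMap K _ r := rfl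
        rw [h0, AlgHom.commutes]
        rfl
      rw [this]
      exact t1_BH_C (isHomogeneous_C σ r)
    | succ k ih =>
      have : (monomial (Finsupp.single i (k + 1)) r : MvPolynomial σ K) =
          monomial (Finsupp.single i k) r * X i := by
        rw [X, monomial_mul, mul_one, ← Finsupp.single_add]
      rw [this, map_mul]
      exact t1_BH_mul (ih r) (t1_BH_tr_X s i)

theorem t1_BH_tr (s : Fin D → σ) {n : ℕ} {F : MvPolynomial σ K} (hF : F.IsHomogeneous n) :
    t1_BH n (tr s F) := by
  classical
  rw [F.as_sum, map_sum]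
  apply t1_BH_sum
  intro d hd
  have h1 : d.degree = n := by
    rw [Finsupp.degree_eq_weight_one]
    exact hF (mem_support_iff.1 hd)
  have := t1_BH_tr_monomial s d (coeff d F)
  rwa [h1] at this

theorem tay_sum (s : Fin D → σ) {F : MvPolynomial σ K} (hF : F.IsHomogeneous D) :
    ∑ k ∈ Finset.range (D + 1), tay s F k = tr s F := by
  classical
  ext1 α
  rw [coeff_sum]
  simp only [tay, coeff_homogeneousComponent]
  rw [Finset.sum_ite_eq]
  split_ifs with h
  · rfl
  · rw [(t1_BH_tr s hF α).2 (by simpa using h)]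

/-- `F_k (x; w)` is homogeneous of degree `D - k` in `x`. -/
theorem tay_coeff_hom (s : Fin D → σ) {F : MvPolynomial σ K} (hF : F.IsHomogeneous D) (k : ℕ)
    (α : Fin D →₀ ℕ) : (coeff α (tay s F k)).IsHomogeneous (D - k) := by
  rw [tay, coeff_homogeneousComponent]
  split_ifs with h
  · rw [← h]
    exact (t1_BH_tr s hF α).1
  · exact isHomogeneous_zero _ _ _

end Pool.Agent.HCN
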