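import Pool.Agent.HCN.G1
import Pool.Agent.HCN.G2
import Pool.Agent.HCN.T1

namespace Pool.Agent.HCN

open Pool.Agent.HCH Pool.Agent.HCF Pool.Agent.HCJ MvPolynomial

/-
PROOF. MvPolynomial.vanishingIdeal_zeroLocus_eq_radical: every X a is in the radical of I.
-/
theorem null_power {k Ω : Type} [Field k] [Field Ω] [IsAlgClosed Ω] [Algebra k Ω] {D : ℕ}
    (I : Ideal (MvPolynomial (Fin D) k))
    (h : ∀ w : Fin D → Ω, (∀ f ∈ I, aeval w f = 0) → w = 0) :
    ∃ M : ℕ, ∀ α : Fin D →₀ ℕ, α.degree = M → monomial α 1 ∈ I := by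
  classical
  have h1 : ∀ a : Fin D, ∃ n : ℕ, (X a : MvPolynomial (Fin D) k) ^ n ∈ I := by
    intro a
    have : (X a : MvPolynomial (Fin D) k) ∈ I.radical := by
      rw [← vanishingIdeal_zeroLocus_eq_radical (K := Ω) I]
      intro w hw
      rw [h w hw, aeval_X]
      rfl
    exact this
  choose n hn using h1
  refine ⟨∑ a, n a + 1, fun α hα => ?_⟩
  have h2 : ∃ a, n a ≤ α a := by
    by_contra hcon
    push Not at hcon
    have h3 : α.degree ≤ ∑ a, n a := by
      rw [Finsupp.degree_eq_sum]
      exact Finset.sum_le_sum fun a _ => (hcon a).le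
    omega
  obtain ⟨a, ha⟩ := h2
  have h4 : monomial α (1 : k) = monomial (α - Finsupp.single a (n a)) 1 * X a ^ n a := by
    rw [X_pow_eq_monomial, monomial_mul, mul_one]
    congr 1
    rw [tsub_add_cancel_of_le]
    rw [Finsupp.single_le_iff]
    exact ha
  rw [h4]
  exact I.mul_mem_left _ (hn a)

/-- Smoothness over an algebraically closed field is smoothness over every extension. -/
theorem smooth_ext {K Ω : Type} [Field K] [IsAlgClosed K] [Field Ω] [Algebra K Ω] {D : ℕ}
    (G : MvPolynomial (Fin D) K)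
    (h : ∀ w : Fin D → K, (∀ a, eval w (pderiv a G) = 0) → w = 0) (w : Fin D → Ω)
    (hw : ∀ a, aeval w (pderiv a G) = 0) : w = 0 := by
  obtain ⟨M, hM⟩ := null_power (Ω := K) (Ideal.span (Set.range fun a => pderiv a G)) (by
    intro w' hw'
    refine h w' fun a => ?_
    have := hw' (pderiv a G) (Ideal.subset_span ⟨a, rfl⟩)
    rwa [← coe_aeval_eq_eval] )
  have hI : ∀ f ∈ Ideal.span (Set.range fun a => pderiv a G), aeval w f = 0 := by
    intro f hf
    have hle : Ideal.span (Set.range fun a => pderiv a G) ≤ RingHom.ker (aeval (R := K) w) := by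
      rw [Ideal.span_le]
      rintro _ ⟨a, rfl⟩
      exact hw a
    exact hle hf
  funext a
  have h1 := hI _ (hM (Finsupp.single a M) (Finsupp.degree_single a M))
  rw [← X_pow_eq_monomial, map_pow, aeval_X] at h1
  exact eq_zero_of_pow_eq_zero h1

attribute [local instance] MvPolynomial.algebraMvPolynomial in
theorem g3_clear {A k : Type} [CommRing A] [IsDomain A] [Field k] [Algebra A k] [IsFractionRing A k]
    {D : ℕ} (I : Ideal (MvPolynomial (Fin D) A)) (g : MvPolynomial (Fin D) A)
    (h : MvPolynomial.map (algebraMap A k) g ∈ I.map (MvPolynomial.map (algebraMap A k))) :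
    ∃ ε : A, ε ≠ 0 ∧ C ε * g ∈ I := by
  have h2 : algebraMap (MvPolynomial (Fin D) A) (MvPolynomial (Fin D) k) g ∈
      I.map (algebraMap (MvPolynomial (Fin D) A) (MvPolynomial (Fin D) k)) := h
  rw [IsLocalization.mem_map_algebraMap_iff
    (Submonoid.map (C : A →+* MvPolynomial (Fin D) A) (nonZeroDivisors A))] at h2
  obtain ⟨⟨⟨f, hf⟩, ⟨_, ⟨m, hm, rfl⟩⟩⟩, h3⟩ := h2
  have h4 : MvPolynomial.map (algebraMap A k) (C m * g) = MvPolynomial.map (algebraMap A k) f := by
    rw [map_mul, mul_comm]
    exact h3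
  refine ⟨m, nonZeroDivisors.ne_zero hm, ?_⟩
  rw [map_injective _ (IsFractionRing.injective A k) h4]
  exact hf

/-
PROOF. MvPolynomial.isLocalization, IsLocalization.mem_map_algebraMap_iff; product over the finitely
many g.
-/
theorem clear_den {A k : Type} [CommRing A] [IsDomain A] [Field k] [Algebra A k] [IsFractionRing A k]
    {D : ℕ} (I : Ideal (MvPolynomial (Fin D) A)) (S : Set (MvPolynomial (Fin D) A)) (hS : S.Finite)
    (h : ∀ g ∈ S, MvPolynomial.map (algebraMap A k) g ∈ I.map (MvPolynomial.map (algebraMap A k))) :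
    ∃ ε : A, ε ≠ 0 ∧ ∀ g ∈ S, C ε * g ∈ I := by
  classical
  have h1 : ∀ g ∈ S, ∃ ε : A, ε ≠ 0 ∧ C ε * g ∈ I := by
    exact fun g hg => g3_clear I g (h g hg)
  choose! e he1 he2 using h1
  refine ⟨∏ g ∈ hS.toFinset, e g, ?_, fun g hg => ?_⟩
  · exact Finset.prod_ne_zero_iff.2 fun g hg => he1 g (hS.mem_toFinset.1 hg)
  · rw [← Finset.prod_erase_mul _ _ (hS.mem_toFinset.2 hg), map_mul, mul_assoc]
    exact I.mul_mem_left _ (he2 g hg)

theorem g3_finite (D M : ℕ) : {α : Fin D →₀ ℕ | α.degree = M}.Finite := by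
  classical
  refine (Finset.finite_toSet (Finset.finsuppAntidiag (Finset.univ : Finset (Fin D)) M)).subset ?_
  intro α hα
  rw [Finset.mem_coe, Finset.mem_finsuppAntidiag]
  refine ⟨?_, fun _ _ => Finset.mem_univ _⟩
  rw [← Finsupp.degree_eq_sum]
  exact hα

/-- The value of a form at `t w`. -/
theorem g3_homog {A Ω : Type} [CommRing A] [Field Ω] {D : ℕ} (φ : A →+* Ω) (w : Fin D → Ω) {k : ℕ}
    {p : MvPolynomial (Fin D) A} (hp : p.IsHomogeneous k) :
    eval₂ ((Polynomial.C : Ω →+* Polynomial Ω).comp φ)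
      (fun a => Polynomial.X * Polynomial.C (w a)) p =
      Polynomial.X ^ k * Polynomial.C (eval₂ φ w p) := by
  rw [eval₂_eq', eval₂_eq', map_sum, Finset.mul_sum]
  refine Finset.sum_congr rfl fun d hd => ?_
  have h1 : ∑ i, d i = k := by
    rw [← Finsupp.degree_eq_sum]
    by_contra hne
    exact (mem_support_iff.1 hd) (hp.coeff_eq_zero hne)
  simp only [mul_pow, Finset.prod_mul_distrib, Finset.prod_pow_eq_pow_sum, h1, map_mul, map_prod,
    map_pow, RingHom.comp_apply]
  ring

/-
PROOF. k = FractionRing K[y], Ω its algebraic closure, I = (TI id G).map (map (algebraMap K[y] k)).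
A common zero w ∈ Ω^D of I: the coefficient of t^j, j ≥ 1, of G (y + t w) is G_j (y; w), which is 0 (for
j > D by degree), so hw of shift holds and w = 0. null_power, clear_den.
-/
theorem good {K : Type} [Field K] [IsAlgClosed K] [CharZero K] {D : ℕ} (hD : 1 ≤ D)
    (G : MvPolynomial (Fin D) K) (hG : G.IsHomogeneous D)
    (hsm : ∀ w : Fin D → K, (∀ a, eval w (pderiv a G) = 0) → w = 0) :
    ∃ (ε : MvPolynomial (Fin D) K) (M : ℕ), ε ≠ 0 ∧ Elim id G ε M := by
  classical
  obtain ⟨d, hd⟩ := exists_pd (K := K) D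
  obtain ⟨M, hM⟩ := null_power
    (Ω := AlgebraicClosure (FractionRing (MvPolynomial (Fin D) K)))
    ((TI id G).map (MvPolynomial.map
      (algebraMap (MvPolynomial (Fin D) K) (FractionRing (MvPolynomial (Fin D) K))))) (by
    intro w hw
    refine shift hD G hG (smooth_ext G hsm)
      (fun b => algebraMap (MvPolynomial (Fin D) K) _ (X b)) d hd w ?_
    have hφ : (algebraMap (MvPolynomial (Fin D) K)
        (AlgebraicClosure (FractionRing (MvPolynomial (Fin D) K)))) =
        ((aeval (R := K) fun b : Fin D => algebraMap (MvPolynomial (Fin D) K)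
          (AlgebraicClosure (FractionRing (MvPolynomial (Fin D) K))) (X b)) :
          MvPolynomial (Fin D) K →+* _) := by
      apply MvPolynomial.ringHom_ext
      · intro r
        rw [RingHom.coe_coe, aeval_C, ← algebraMap_eq]
        exact (IsScalarTower.algebraMap_apply _ _ _ r).symm
      · intro i
        rw [RingHom.coe_coe, aeval_X]
    set φ := (algebraMap (MvPolynomial (Fin D) K)
        (AlgebraicClosure (FractionRing (MvPolynomial (Fin D) K)))) with hφ0
    set y : Fin D → AlgebraicClosure (FractionRing (MvPolynomial (Fin D) K)) :=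
      fun b => φ (X b) with hy
    have h1 : ∀ g : MvPolynomial (Fin D) K,
        aeval (fun a => Polynomial.C (y a) + Polynomial.X * Polynomial.C (w a)) g =
        eval₂ ((Polynomial.C).comp φ) (fun a => Polynomial.X * Polynomial.C (w a)) (tr id g) := by
      intro g
      have e : ((aeval (R := K) (fun a => Polynomial.C (y a) + Polynomial.X * Polynomial.C (w a))) :
          MvPolynomial (Fin D) K →+* _) =
          (eval₂Hom ((Polynomial.C).comp φ) (fun a => Polynomial.X * Polynomial.C (w a))).comp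
            ((tr id : MvPolynomial (Fin D) K →ₐ[K] _) : MvPolynomial (Fin D) K →+* _) := by
        apply MvPolynomial.ringHom_ext
        · intro r
          rw [RingHom.coe_coe, aeval_C, RingHom.comp_apply, RingHom.coe_coe, algHom_C,
            coe_eval₂Hom, show algebraMap K (MvPolynomial (Fin D) (MvPolynomial (Fin D) K)) r =
              C (C r) from rfl, eval₂_C, RingHom.comp_apply, Polynomial.algebraMap_apply, hφ0,
            ← algebraMap_eq, ← IsScalarTower.algebraMap_apply]
        · intro i
          rw [RingHom.coe_coe, aeval_X, RingHom.comp_apply, RingHom.coe_coe, tr, aeval_X]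
          simp only [id, coe_eval₂Hom, eval₂_add, eval₂_C, RingHom.comp_apply, eval₂_sum, hy]
          congr 1
          rw [Finset.sum_eq_single i]
          · rw [if_pos rfl, eval₂_X]
          · intro b _ hb
            rw [if_neg hb, eval₂_zero]
          · intro hi
            exact absurd (Finset.mem_univ i) hi
      exact RingHom.congr_fun e g
    rw [h1, ← tay_sum id hG, eval₂_sum, Finset.sum_eq_single 0]
    · rw [tay_zero, eval₂_C, RingHom.comp_apply]
      congr 1
      exact RingHom.congr_fun hφ G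
    · intro k hk hk0
      have h4 : (tay id G k).IsHomogeneous k := homogeneousComponent_isHomogeneous k (tr id G)
      rw [g3_homog φ w h4]
      have h2 := hw _ (Ideal.mem_map_of_mem _ (Ideal.subset_span
        ⟨k, Nat.one_le_iff_ne_zero.2 hk0, Nat.lt_succ_iff.1 (Finset.mem_range.1 hk), rfl⟩ :
          tay id G k ∈ TI id G))
      rw [aeval_map_algebraMap] at h2
      have h3 : eval₂ φ w (tay id G k) = 0 := by
        rw [← h2, aeval_def]
      rw [h3, map_zero, mul_zero]
    · intro h0
      exact absurd (Finset.mem_range.2 (Nat.succ_pos D)) h0)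
  obtain ⟨ε, hε, hε'⟩ := clear_den (k := FractionRing (MvPolynomial (Fin D) K)) (TI id G)
    ((fun α : Fin D →₀ ℕ => monomial α (1 : MvPolynomial (Fin D) K)) '' {α | α.degree = M})
    ((g3_finite D M).image _) (by
      rintro _ ⟨α, hα, rfl⟩
      rw [map_monomial, map_one]
      exact hM α hα)
  exact ⟨ε, M, hε, fun α hα => hε' _ ⟨α, hα, rfl⟩⟩

end Pool.Agent.HCN
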