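import Pool.Agent.HCN.Defs

namespace Pool.Agent.HCN

open Pool.Agent.HCH Pool.Agent.HCF Pool.Agent.HCJ MvPolynomial

private theorem H1_comp {A : Type} [CommRing A] {D : ℕ} (I : Ideal (MvPolynomial (Fin D) A))
    (c f : MvPolynomial (Fin D) A) {n : ℕ} (hf : f.IsHomogeneous n) (hfI : f ∈ I) (M : ℕ) :
    homogeneousComponent M (c * f) ∈ I := by
  rw [c.as_sum, Finset.sum_mul, map_sum]
  refine Submodule.sum_mem _ fun d _ => ?_
  have h1 : (monomial d (coeff d c) * f).IsHomogeneous (d.degree + n) :=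
    (isHomogeneous_monomial _ rfl).mul hf
  rw [homogeneousComponent_of_mem ((mem_homogeneousSubmodule _ _).2 h1)]
  split_ifs
  · exact I.mul_mem_left _ hfI
  · exact I.zero_mem

/-
PROOF. The monomials of degree M are finitely many. Taking components of degree M in w,
C ε w^α = ∑_k c_{αk} g_k with c_{αk} homogeneous of degree M - n_k, so
C ε w^α + ∑_k c_{αk} (f_k - g_k) = ∑_k c_{αk} f_k ∈ I = span (range f) and the second term is
∑_{|β| = M} C a_{αβ} w^β with a_{αβ} ∈ Z. Multiply the system (ε 1 + (a)) (w^β) ∈ I by the adjugate: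
δ = det (ε 1 + (a)) ≡ ε^r mod Z.
-/
theorem det_elim {A : Type} [CommRing A] {D r : ℕ} (Z : Ideal A) [hZ : Z.IsPrime]
    (f g : Fin r → MvPolynomial (Fin D) A) (n : Fin r → ℕ) (hf : ∀ k, (f k).IsHomogeneous (n k))
    (hg : ∀ k, (g k).IsHomogeneous (n k)) (hfg : ∀ k α, coeff α (f k) - coeff α (g k) ∈ Z)
    (ε : A) (hε : ε ∉ Z) (M : ℕ) (h : ∀ α : Fin D →₀ ℕ, α.degree = M →
      C ε * monomial α 1 ∈ Ideal.span (Set.range g)) :
    ∃ δ : A, δ ∉ Z ∧ ∀ α : Fin D →₀ ℕ, α.degree = M →
      C δ * monomial α 1 ∈ Ideal.span (Set.range f) := by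
  classical
  set I := Ideal.span (Set.range f) with hI
  have hfI : ∀ k, f k ∈ I := fun k => Ideal.subset_span ⟨k, rfl⟩
  have hfin : Finite {α : Fin D →₀ ℕ // α.degree = M} :=
    ((Finsupp.finite_of_degree_le M).subset fun β (hβ : β.degree = M) => hβ.le).to_subtype
  let _ : Fintype {α : Fin D →₀ ℕ // α.degree = M} := Fintype.ofFinite _
  have h1 : ∀ α : {α : Fin D →₀ ℕ // α.degree = M}, ∃ c : Fin r → MvPolynomial (Fin D) A,
      ∑ k, c k * g k = C ε * monomial (α : Fin D →₀ ℕ) 1 := fun α =>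
    Ideal.mem_span_range_iff_exists_fun.1 (h α α.2)
  choose c hc using h1
  let R : {α : Fin D →₀ ℕ // α.degree = M} → MvPolynomial (Fin D) A :=
    fun α => ∑ k, c α k * (f k - g k)
  have hR : ∀ α β, coeff β (R α) ∈ Z := by
    intro α
    have h2 : R α ∈ Z.map (C : A →+* MvPolynomial (Fin D) A) := by
      refine Submodule.sum_mem _ fun k _ => Ideal.mul_mem_left _ _ ?_
      rw [mem_map_C_iff]
      intro β
      rw [coeff_sub]
      exact hfg k β
    exact mem_map_C_iff.1 h2
  have hP : ∀ α, ∑ k, c α k * f k = C ε * monomial (α : Fin D →₀ ℕ) 1 + R α := by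
    intro α
    rw [← hc α, ← Finset.sum_add_distrib]
    refine Finset.sum_congr rfl fun k _ => ?_
    ring
  clear_value R
  have hRM : ∀ α, homogeneousComponent M (R α) =
      ∑ β : {α : Fin D →₀ ℕ // α.degree = M}, C (coeff (β : Fin D →₀ ℕ) (R α)) *
        monomial (β : Fin D →₀ ℕ) 1 := by
    intro α
    ext γ
    rw [coeff_homogeneousComponent, coeff_sum]
    by_cases hγ : γ.degree = M
    · rw [if_pos hγ, Finset.sum_eq_single ⟨γ, hγ⟩]
      · rw [coeff_C_mul, coeff_monomial, if_pos rfl, mul_one]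
      · intro β _ hβ
        rw [coeff_C_mul, coeff_monomial, if_neg (fun h => hβ (Subtype.ext h)), mul_zero]
      · intro h; exact absurd (Finset.mem_univ _) h
    · rw [if_neg hγ]
      symm
      refine Finset.sum_eq_zero fun β _ => ?_
      rw [coeff_C_mul, coeff_monomial, if_neg (fun h6 : (β : Fin D →₀ ℕ) = γ => hγ (h6 ▸ β.2)),
        mul_zero]
  let B : Matrix {α : Fin D →₀ ℕ // α.degree = M} {α : Fin D →₀ ℕ // α.degree = M} A :=
    fun α β => (if α = β then ε else 0) + coeff (β : Fin D →₀ ℕ) (R α)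
  have hB : ∀ α, ∑ β : {α : Fin D →₀ ℕ // α.degree = M}, C (B α β) *
      monomial (β : Fin D →₀ ℕ) 1 ∈ I := by
    intro α
    have h2 : homogeneousComponent M (∑ k, c α k * f k) ∈ I := by
      rw [map_sum]
      exact Submodule.sum_mem _ fun k _ => H1_comp I _ _ (hf k) (hfI k) M
    have h3 : homogeneousComponent M (C ε * monomial (α : Fin D →₀ ℕ) 1) =
        C ε * monomial (α : Fin D →₀ ℕ) 1 := by
      rw [C_mul_monomial, mul_one, homogeneousComponent_of_mem
        ((mem_homogeneousSubmodule _ _).2 (isHomogeneous_monomial _ α.2)), if_pos rfl]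
    have h4 : ∑ β : {α : Fin D →₀ ℕ // α.degree = M}, C (B α β) *
        monomial (β : Fin D →₀ ℕ) 1 = C ε * monomial (α : Fin D →₀ ℕ) 1 +
          ∑ β : {α : Fin D →₀ ℕ // α.degree = M}, C (coeff (β : Fin D →₀ ℕ) (R α)) *
            monomial (β : Fin D →₀ ℕ) 1 := by
      have h5 : ∀ β : {α : Fin D →₀ ℕ // α.degree = M}, C (B α β) *
          monomial (β : Fin D →₀ ℕ) (1 : A) = (if α = β then C ε * monomial (α : Fin D →₀ ℕ) 1 else 0) +
            C (coeff (β : Fin D →₀ ℕ) (R α)) * monomial (β : Fin D →₀ ℕ) 1 := by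
        intro β
        simp only [B]
        rw [C_add, add_mul]
        congr 1
        split_ifs with h6
        · rw [h6]
        · rw [C_0, zero_mul]
      rw [Finset.sum_congr rfl fun β _ => h5 β, Finset.sum_add_distrib, Finset.sum_ite_eq,
        if_pos (Finset.mem_univ _)]
    rw [h4, ← hRM, ← h3, ← map_add, ← hP]
    exact h2
  refine ⟨B.det, ?_, ?_⟩
  · have h2 : Ideal.Quotient.mk Z B.det =
        (Ideal.Quotient.mk Z ε) ^ Fintype.card {α : Fin D →₀ ℕ // α.degree = M} := by
      have h3 : (Ideal.Quotient.mk Z).mapMatrix B =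
          Matrix.diagonal (fun _ => Ideal.Quotient.mk Z ε) := by
        ext α β
        rw [RingHom.mapMatrix_apply, Matrix.map_apply, Matrix.diagonal_apply]
        simp only [B]
        rw [map_add, Ideal.Quotient.eq_zero_iff_mem.2 (hR α β), add_zero]
        split_ifs
        · rfl
        · exact map_zero _
      rw [RingHom.map_det, h3, Matrix.det_diagonal, Finset.prod_const]
      rfl
    intro h4
    rw [Ideal.Quotient.eq_zero_iff_mem.2 h4] at h2
    exact hε (Ideal.Quotient.eq_zero_iff_mem.1 (eq_zero_of_pow_eq_zero h2.symm))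
  · intro γ hγ
    have h2 : C B.det * monomial γ 1 = ∑ α : {α : Fin D →₀ ℕ // α.degree = M},
        C (B.adjugate ⟨γ, hγ⟩ α) * ∑ β : {α : Fin D →₀ ℕ // α.degree = M}, C (B α β) *
          monomial (β : Fin D →₀ ℕ) 1 := by
      have h3 : ∀ β : {α : Fin D →₀ ℕ // α.degree = M},
          ∑ α : {α : Fin D →₀ ℕ // α.degree = M}, B.adjugate ⟨γ, hγ⟩ α * B α β =
            if (⟨γ, hγ⟩ : {α : Fin D →₀ ℕ // α.degree = M}) = β then B.det else 0 := by
        intro β
        have h4 := congrFun (congrFun (Matrix.adjugate_mul B) ⟨γ, hγ⟩) β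
        rw [Matrix.mul_apply, Matrix.smul_apply, Matrix.one_apply, smul_eq_mul, mul_ite, mul_one,
          mul_zero] at h4
        exact h4
      simp only [Finset.mul_sum]
      rw [Finset.sum_comm]
      have h5 : ∀ β : {α : Fin D →₀ ℕ // α.degree = M},
          ∑ α : {α : Fin D →₀ ℕ // α.degree = M}, C (B.adjugate ⟨γ, hγ⟩ α) *
            (C (B α β) * monomial (β : Fin D →₀ ℕ) 1) =
            if (⟨γ, hγ⟩ : {α : Fin D →₀ ℕ // α.degree = M}) = β then
              C B.det * monomial γ (1 : A) else 0 := by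
        intro β
        have h6 : ∑ α : {α : Fin D →₀ ℕ // α.degree = M}, C (B.adjugate ⟨γ, hγ⟩ α) *
            (C (B α β) * monomial (β : Fin D →₀ ℕ) (1 : A)) =
            C (∑ α : {α : Fin D →₀ ℕ // α.degree = M}, B.adjugate ⟨γ, hγ⟩ α * B α β) *
              monomial (β : Fin D →₀ ℕ) 1 := by
          rw [map_sum, Finset.sum_mul]
          refine Finset.sum_congr rfl fun α _ => ?_
          rw [C_mul, mul_assoc]
        rw [h6, h3]
        split_ifs with h7
        · rw [← h7]
        · rw [C_0, zero_mul]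
      rw [Finset.sum_congr rfl fun β _ => h5 β, Finset.sum_ite_eq, if_pos (Finset.mem_univ _)]
    rw [h2]
    exact Submodule.sum_mem _ fun α _ => I.mul_mem_left _ (hB α)

end Pool.Agent.HCN
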