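import Pool.Agent.HCN.Defs

namespace Pool.Agent.HCN

open Pool.Agent.HCH Pool.Agent.HCF Pool.Agent.HCJ MvPolynomial

/-- The homogeneous component of a product with a homogeneous factor. -/
theorem h2_hc_mul {K σ : Type} [Field K] (a b : MvPolynomial σ K) (n e : ℕ)
    (hb : b.IsHomogeneous n) :
    homogeneousComponent e (a * b) = if n ≤ e then homogeneousComponent (e - n) a * b else 0 := by
  classical
  conv_lhs => rw [← sum_homogeneousComponent a, Finset.sum_mul, map_sum]
  have key : ∀ i, homogeneousComponent e (homogeneousComponent i a * b) =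
      if i + n = e then homogeneousComponent i a * b else 0 := by
    intro i
    have h1 : (homogeneousComponent i a * b).IsHomogeneous (i + n) :=
      (homogeneousComponent_isHomogeneous i a).mul hb
    rw [homogeneousComponent_of_mem h1]
    by_cases h : i + n = e
    · rw [if_pos h, if_pos h.symm]
    · rw [if_neg h, if_neg (fun h' => h h'.symm)]
  rw [Finset.sum_congr rfl (fun i _ => key i)]
  split_ifs with hne
  · rw [Finset.sum_eq_single (e - n)]
    · rw [if_pos (by omega)]
    · intro i _ hi
      rw [if_neg (by omega)]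
    · intro hi
      rw [if_pos (by omega)]
      rw [homogeneousComponent_eq_zero, zero_mul]
      simp only [Finset.mem_range, not_lt] at hi
      omega
  · apply Finset.sum_eq_zero
    intro i _
    rw [if_neg (by omega)]

/-- The homogeneous component of degree `e` of every coefficient. -/
noncomputable def h2_P {K σ : Type} [Field K] {D : ℕ} (e : ℕ)
    (g : MvPolynomial (Fin D) (MvPolynomial σ K)) : MvPolynomial (Fin D) (MvPolynomial σ K) :=
  ∑ α ∈ g.support, monomial α (homogeneousComponent e (coeff α g))

theorem h2_coeff_P {K σ : Type} [Field K] {D : ℕ} (e : ℕ)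
    (g : MvPolynomial (Fin D) (MvPolynomial σ K)) (α : Fin D →₀ ℕ) :
    coeff α (h2_P e g) = homogeneousComponent e (coeff α g) := by
  classical
  rw [h2_P, coeff_sum]
  simp only [coeff_monomial]
  rw [Finset.sum_ite_eq' g.support α (fun β => homogeneousComponent e (coeff β g))]
  split_ifs with h
  · rfl
  · rw [notMem_support_iff] at h
    rw [h, map_zero]

theorem h2_P_sum {K σ : Type} [Field K] {D r : ℕ} (e : ℕ)
    (g : Fin r → MvPolynomial (Fin D) (MvPolynomial σ K)) :
    h2_P e (∑ k, g k) = ∑ k, h2_P e (g k) := by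
  ext1 α
  rw [h2_coeff_P, coeff_sum, map_sum, coeff_sum]
  exact Finset.sum_congr rfl fun k _ => (h2_coeff_P e (g k) α).symm

theorem h2_P_mul {K σ : Type} [Field K] {D : ℕ} (e n : ℕ)
    (c f : MvPolynomial (Fin D) (MvPolynomial σ K)) (hf : ∀ α, (coeff α f).IsHomogeneous n) :
    h2_P e (c * f) = if n ≤ e then h2_P (e - n) c * f else 0 := by
  classical
  ext1 α
  rw [h2_coeff_P, coeff_mul, map_sum]
  rw [Finset.sum_congr rfl (fun x _ => h2_hc_mul (coeff x.1 c) (coeff x.2 f) n e (hf x.2))]
  split_ifs with hne
  · rw [coeff_mul]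
    exact Finset.sum_congr rfl fun x _ => by rw [h2_coeff_P]
  · simp

/-
PROOF. For e let Π_e be the additive map of T = R[w], R = K[σ], which takes the homogeneous component
of degree e of every coefficient. If the coefficients of f are homogeneous of degree n then
Π_e (c f) = Π_(e - n) c * f for e ≥ n and 0 for e < n. Apply Π_d to C δ * w^α = ∑ c_k f_k.
-/
theorem comp_elim {K σ : Type} [Field K] {D r : ℕ}
    (f : Fin r → MvPolynomial (Fin D) (MvPolynomial σ K)) (n : Fin r → ℕ)
    (hf : ∀ k α, (coeff α (f k)).IsHomogeneous (n k)) (δ : MvPolynomial σ K) (α : Fin D →₀ ℕ)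
    (h : C δ * monomial α 1 ∈ Ideal.span (Set.range f)) (d : ℕ) :
    C (homogeneousComponent d δ) * monomial α 1 ∈ Ideal.span (Set.range f) := by
  classical
  rw [Ideal.mem_span_range_iff_exists_fun] at h
  obtain ⟨c, hc⟩ := h
  have h1 : h2_P d (C δ * monomial α 1) = C (homogeneousComponent d δ) * monomial α 1 := by
    ext1 β
    rw [h2_coeff_P, C_mul_monomial, C_mul_monomial, coeff_monomial, coeff_monomial]
    split_ifs with hβ
    · rw [mul_one, mul_one]
    · rw [map_zero]
  rw [← h1, ← hc, h2_P_sum]
  apply Ideal.sum_mem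
  intro k _
  rw [h2_P_mul d (n k) (c k) (f k) (hf k)]
  split_ifs with hne
  · exact Ideal.mul_mem_left _ _ (Ideal.subset_span ⟨k, rfl⟩)
  · exact Ideal.zero_mem _

end Pool.Agent.HCN
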