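import Pool.Agent.HCN.T1

namespace Pool.Agent.HCN

open Pool.Agent.HCH Pool.Agent.HCF Pool.Agent.HCJ MvPolynomial

variable {K : Type} [Field K] {σ : Type} {D : ℕ}

theorem restr_X_of_mem {A : Set σ} {i : σ} (h : i ∈ A) :
    restr A (X i : MvPolynomial σ K) = X i := by
  rw [restr, aeval_X, if_pos h]

theorem restr_X_of_notMem {A : Set σ} {i : σ} (h : i ∉ A) :
    restr A (X i : MvPolynomial σ K) = 0 := by
  rw [restr, aeval_X, if_neg h]

theorem restr_restr {A B : Set σ} (h : A ⊆ B) (f : MvPolynomial σ K) :
    restr A (restr B f) = restr A f := by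
  have h1 : (restr A : MvPolynomial σ K →ₐ[K] MvPolynomial σ K).comp (restr B) = restr A := by
    apply MvPolynomial.algHom_ext
    intro i
    rw [AlgHom.comp_apply]
    by_cases hB : i ∈ B
    · rw [restr_X_of_mem hB]
    · rw [restr_X_of_notMem hB, map_zero, restr_X_of_notMem (fun hA => hB (h hA))]
  exact AlgHom.congr_fun h1 f

theorem restr_supported (A : Set σ) (f : MvPolynomial σ K) : restr A f ∈ supported K A := by
  induction f using MvPolynomial.induction_on with
  | C r =>
    have : restr A (C r : MvPolynomial σ K) = algebraMap K _ r := (restr A).commutes r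
    rw [this]
    exact Subalgebra.algebraMap_mem _ r
  | add p q hp hq =>
    rw [map_add]
    exact add_mem hp hq
  | mul_X p i hp =>
    rw [map_mul]
    refine mul_mem hp ?_
    by_cases hi : i ∈ A
    · rw [restr_X_of_mem hi]
      exact Algebra.subset_adjoin ⟨i, hi, rfl⟩
    · rw [restr_X_of_notMem hi]
      exact zero_mem _

/-- Setting variables to zero does not introduce new variables. -/
theorem restr_mem_supported (A : Set σ) {B : Set σ} {f : MvPolynomial σ K}
    (h : f ∈ supported K B) : restr A f ∈ supported K B := by
  rw [supported] at h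
  induction h using Algebra.adjoin_induction with
  | mem x hx =>
    obtain ⟨i, hi, rfl⟩ := hx
    by_cases hA : i ∈ A
    · rw [restr_X_of_mem hA]
      exact Algebra.subset_adjoin ⟨i, hi, rfl⟩
    · rw [restr_X_of_notMem hA]
      exact zero_mem _
  | algebraMap r =>
    rw [AlgHom.commutes]
    exact Subalgebra.algebraMap_mem _ r
  | add x y _ _ hx hy =>
    rw [map_add]
    exact add_mem hx hy
  | mul x y _ _ hx hy =>
    rw [map_mul]
    exact mul_mem hx hy

theorem restr_of_supported {A : Set σ} {f : MvPolynomial σ K} (h : f ∈ supported K A) :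
    restr A f = f := by
  rw [supported] at h
  induction h using Algebra.adjoin_induction with
  | mem x hx =>
    obtain ⟨i, hi, rfl⟩ := hx
    exact restr_X_of_mem hi
  | algebraMap r => exact AlgHom.commutes _ r
  | add x y _ _ hx hy => rw [map_add, hx, hy]
  | mul x y _ _ hx hy => rw [map_mul, hx, hy]

theorem restr_homog (A : Set σ) {f : MvPolynomial σ K} {d : ℕ} (h : f.IsHomogeneous d) :
    (restr A f).IsHomogeneous d := by
  classical
  have h2 := h.aeval (fun i => if i ∈ A then (X i : MvPolynomial σ K) else 0) (n := 1) (by
    intro i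
    split_ifs
    · exact isHomogeneous_X _ _
    · exact isHomogeneous_zero _ _ _)
  rw [one_mul] at h2
  have e : restr A f = aeval (fun i => if i ∈ A then (X i : MvPolynomial σ K) else 0) f := by
    unfold restr
    congr 2
  rw [e]
  exact h2

theorem t2_comp_map {A B τ : Type} [CommRing A] [CommRing B] (φ : A →+* B)
    (f : MvPolynomial τ A) (k : ℕ) :
    MvPolynomial.map φ (homogeneousComponent k f) = homogeneousComponent k (MvPolynomial.map φ f) := by
  ext d
  rw [coeff_map, coeff_homogeneousComponent, coeff_homogeneousComponent, coeff_map]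
  split_ifs
  · rfl
  · rw [map_zero]

theorem t2_map_X {A B τ : Type} [CommRing A] [CommRing B] (φ : A →+* B) [Fintype τ]
    (P : τ → Prop) [DecidablePred P] :
    MvPolynomial.map φ (∑ a, if P a then (X a : MvPolynomial τ A) else 0) =
      ∑ a, if P a then X a else 0 := by
  rw [map_sum]
  refine Finset.sum_congr rfl fun a _ => ?_
  split_ifs
  · rw [map_X]
  · rw [map_zero]

theorem t2_tr_C (s : Fin D → σ) (r : K) : tr s (C r : MvPolynomial σ K) = C (C r) :=
  (tr s : MvPolynomial σ K →ₐ[K] _).commutes r

/-- The Taylor expansion of a polynomial without the variables `B` has none. -/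
theorem t2_tr_supp (s : Fin D → σ) {A : Set σ} {f : MvPolynomial σ K} (hf : f ∈ supported K A) :
    MvPolynomial.map ((restr A : MvPolynomial σ K →ₐ[K] MvPolynomial σ K) :
      MvPolynomial σ K →+* MvPolynomial σ K) (tr s f) = tr s f := by
  classical
  rw [supported] at hf
  induction hf using Algebra.adjoin_induction with
  | mem x hx =>
    obtain ⟨i, hi, rfl⟩ := hx
    rw [tr, aeval_X, map_add, map_C, t2_map_X]
    congr 2
    exact restr_X_of_mem hi
  | algebraMap r =>
    rw [algebraMap_eq, t2_tr_C, map_C]
    congr 1
    exact (restr A : MvPolynomial σ K →ₐ[K] MvPolynomial σ K).commutes r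
  | add x y _ _ hx hy => rw [map_add, map_add, hx, hy]
  | mul x y _ _ hx hy => rw [map_mul, map_mul, hx, hy]

theorem tay_free {s : Fin D → σ} {B : Set σ} {F : MvPolynomial σ K}
    (h : ∀ d ∈ F.support, ∀ a, ∀ b ∈ B, d (s a) = 0 ∨ d b = 0) {k : ℕ} (hk : 1 ≤ k) :
    MvPolynomial.map ((restr Bᶜ : MvPolynomial σ K →ₐ[K] MvPolynomial σ K) :
      MvPolynomial σ K →+* MvPolynomial σ K) (tay s F k) = tay s F k := by
  classical
  have key : ∀ d ∈ F.support, MvPolynomial.map
      ((restr Bᶜ : MvPolynomial σ K →ₐ[K] MvPolynomial σ K) :
        MvPolynomial σ K →+* MvPolynomial σ K) (tay s (monomial d (coeff d F)) k) =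
      tay s (monomial d (coeff d F)) k := by
    intro d hd
    by_cases hs : ∀ a, d (s a) = 0
    · have h1 : (monomial d (coeff d F)) ∈ supported K (Set.range s)ᶜ := by
        rw [mem_supported]
        intro x hx
        rw [Finset.mem_coe, mem_vars_iff_mem_support] at hx
        obtain ⟨e, he, hxe⟩ := hx
        have h2 := support_monomial_subset he
        rw [Finset.mem_singleton] at h2
        subst h2
        rintro ⟨a, rfl⟩
        exact (Finsupp.mem_support_iff.1 hxe) (hs a)
      have h2 : tay s (monomial d (coeff d F)) k = 0 := by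
        unfold tay
        rw [tr_supp h1]
        have h3 : (C (monomial d (coeff d F)) :
            MvPolynomial (Fin D) (MvPolynomial σ K)) ∈ homogeneousSubmodule (Fin D) _ 0 :=
          isHomogeneous_C _ _
        rw [homogeneousComponent_of_mem h3, if_neg (by omega)]
      rw [h2, map_zero]
    · push Not at hs
      obtain ⟨a, ha⟩ := hs
      have h1 : (monomial d (coeff d F)) ∈ supported K Bᶜ := by
        rw [mem_supported]
        intro x hx
        rw [Finset.mem_coe, mem_vars_iff_mem_support] at hx
        obtain ⟨e, he, hxe⟩ := hx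
        have h2 := support_monomial_subset he
        rw [Finset.mem_singleton] at h2
        subst h2
        intro hxB
        rcases h e hd a x hxB with h3 | h3
        · exact ha h3
        · exact (Finsupp.mem_support_iff.1 hxe) h3
      unfold tay
      rw [t2_comp_map, t2_tr_supp s h1]
  have e : tay s F k = ∑ d ∈ F.support, tay s (monomial d (coeff d F)) k := by
    unfold tay
    conv_lhs => rw [F.as_sum, map_sum, map_sum]
  rw [e, map_sum]
  exact Finset.sum_congr rfl key

theorem t2_tr_restr (s : Fin D → σ) (F : MvPolynomial σ K) :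
    MvPolynomial.map ((restr (Set.range s) : MvPolynomial σ K →ₐ[K] MvPolynomial σ K) :
      MvPolynomial σ K →+* MvPolynomial σ K) (tr s F) =
    MvPolynomial.map ((restr (Set.range s) : MvPolynomial σ K →ₐ[K] MvPolynomial σ K) :
      MvPolynomial σ K →+* MvPolynomial σ K) (tr s (restr (Set.range s) F)) := by
  classical
  induction F using MvPolynomial.induction_on with
  | C r =>
    have : restr (Set.range s) (C r : MvPolynomial σ K) = C r :=
      (restr (Set.range s) : MvPolynomial σ K →ₐ[K] MvPolynomial σ K).commutes r
    rw [this]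
  | add p q hp hq =>
    rw [map_add (tr s), map_add, hp, hq, ← map_add, ← map_add (tr s), ← map_add (restr _)]
  | mul_X p i hp =>
    rw [map_mul (tr s), map_mul, hp, map_mul (restr _), map_mul (tr s), map_mul]
    by_cases hi : i ∈ Set.range s
    · rw [restr_X_of_mem hi]
    · rw [restr_X_of_notMem hi, map_zero, map_zero, tr_X_of_notMem hi, map_C]
      have : ((restr (Set.range s) : MvPolynomial σ K →ₐ[K] MvPolynomial σ K) :
        MvPolynomial σ K →+* MvPolynomial σ K) (X i) = 0 := restr_X_of_notMem hi
      rw [this, C_0]

/-- Modulo the variables outside `s` only the restriction of `F` matters. -/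
theorem tay_restr (s : Fin D → σ) (F : MvPolynomial σ K) (k : ℕ) :
    MvPolynomial.map ((restr (Set.range s) : MvPolynomial σ K →ₐ[K] MvPolynomial σ K) :
      MvPolynomial σ K →+* MvPolynomial σ K) (tay s F k) =
    MvPolynomial.map ((restr (Set.range s) : MvPolynomial σ K →ₐ[K] MvPolynomial σ K) :
      MvPolynomial σ K →+* MvPolynomial σ K) (tay s (restr (Set.range s) F) k) := by
  unfold tay
  rw [t2_comp_map, t2_comp_map, t2_tr_restr]

/-- The Taylor expansion of a polynomial in the variables `s`. -/
theorem tay_rename {s : Fin D → σ} (hs : Function.Injective s) (G : MvPolynomial (Fin D) K)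
    (k : ℕ) : tay s (rename s G) k =
      MvPolynomial.map ((rename s : MvPolynomial (Fin D) K →ₐ[K] MvPolynomial σ K) :
        MvPolynomial (Fin D) K →+* MvPolynomial σ K) (tay id G k) := by
  classical
  unfold tay
  rw [t2_comp_map]
  congr 1
  induction G using MvPolynomial.induction_on with
  | C r =>
    rw [rename_C, t2_tr_C, t2_tr_C, map_C]
    congr 1
    exact (rename_C s r).symm
  | add p q hp hq => simp only [map_add, hp, hq]
  | mul_X p i hp =>
    rw [map_mul, map_mul, map_mul, map_mul, hp]
    congr 1
    rw [rename_X, tr_X_of_mem hs]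
    have h1 : tr (id : Fin D → Fin D) (X i : MvPolynomial (Fin D) K) = C (X i) + X i :=
      tr_X_of_mem Function.injective_id i
    rw [h1, map_add, map_C, map_X]
    congr 2
    exact (rename_X s i).symm

theorem exists_restr {s : Fin D → σ} (hs : Function.Injective s) (F : MvPolynomial σ K) :
    ∃ G : MvPolynomial (Fin D) K, rename s G = restr (Set.range s) F ∧
      (∀ d, F.IsHomogeneous d → G.IsHomogeneous d) ∧
      ∀ (y : Fin D → K) (a : Fin D), ∀ x : σ → K, (∀ b, x (s b) = y b) →
        (∀ k, k ∉ Set.range s → x k = 0) → eval x (pderiv (s a) F) = eval y (pderiv a G) := by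
  classical
  let g : σ → MvPolynomial (Fin D) K := fun k =>
    if h : k ∈ Set.range s then X h.choose else 0
  have hg1 : ∀ b, g (s b) = X b := by
    intro b
    have h : s b ∈ Set.range s := ⟨b, rfl⟩
    simp only [g, dif_pos h]
    congr 1
    exact hs h.choose_spec
  have hg2 : ∀ k, k ∉ Set.range s → g k = 0 := by
    intro k hk
    simp only [g, dif_neg hk]
  refine ⟨aeval g F, ?_, ?_, ?_⟩
  · have h1 : ((rename s : MvPolynomial (Fin D) K →ₐ[K] MvPolynomial σ K).comp (aeval g)) =
        restr (Set.range s) := by
      apply MvPolynomial.algHom_ext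
      intro k
      rw [AlgHom.comp_apply, aeval_X]
      by_cases hk : k ∈ Set.range s
      · obtain ⟨b, rfl⟩ := hk
        rw [hg1, rename_X, restr_X_of_mem (Set.mem_range_self b)]
      · rw [hg2 k hk, map_zero, restr_X_of_notMem hk]
    exact AlgHom.congr_fun h1 F
  · intro d hd
    have h1 := hd.aeval g (n := 1) (by
      intro k
      by_cases hk : k ∈ Set.range s
      · obtain ⟨b, rfl⟩ := hk
        rw [hg1]
        exact isHomogeneous_X _ _
      · rw [hg2 k hk]
        exact isHomogeneous_zero _ _ _)
    rwa [one_mul] at h1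
  · intro y a x hx1 hx2
    have hev : ∀ p : MvPolynomial σ K, eval y (aeval g p) = eval x p := by
      intro p
      induction p using MvPolynomial.induction_on with
      | C r => rw [aeval_C, algebraMap_eq, eval_C, eval_C]
      | add p q hp hq => simp only [map_add, hp, hq]
      | mul_X p i hp =>
        rw [map_mul, map_mul, hp, aeval_X, map_mul, eval_X]
        congr 1
        by_cases hi : i ∈ Set.range s
        · obtain ⟨b, rfl⟩ := hi
          rw [hg1, eval_X, hx1]
        · rw [hg2 i hi, map_zero, hx2 i hi]
    induction F using MvPolynomial.induction_on with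
    | C r => rw [pderiv_C, map_zero, aeval_C, algebraMap_eq, pderiv_C, map_zero]
    | add p q hp hq => simp only [map_add, hp, hq]
    | mul_X p i hp =>
      rw [map_mul (aeval g), aeval_X, pderiv_mul, pderiv_mul, map_add, map_mul, map_mul, map_add,
        map_mul, map_mul, hp, hev, eval_X]
      by_cases hi : i ∈ Set.range s
      · obtain ⟨b, rfl⟩ := hi
        rw [hg1, eval_X, hx1]
        congr 2
        by_cases hab : a = b
        · subst hab
          rw [pderiv_X_self, pderiv_X_self, map_one, map_one]
        · rw [pderiv_X_of_ne (fun h => hab (hs h.symm)), pderiv_X_of_ne (fun h => hab h.symm),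
            map_zero, map_zero]
      · rw [hg2 i hi, map_zero, hx2 i hi, map_zero, map_zero]
        have : s a ≠ i := fun h => hi ⟨a, h⟩
        rw [pderiv_X_of_ne (fun h => this h.symm), map_zero]

end Pool.Agent.HCN
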