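import Pool.Agent.HCN.H1
import Pool.Agent.HCN.H2
import Pool.Agent.HCN.G3
import Pool.Agent.HCN.T2

namespace Pool.Agent.HCN

open Pool.Agent.HCH Pool.Agent.HCF Pool.Agent.HCJ MvPolynomial

variable {K : Type} [Field K] {σ : Type} {D : ℕ}

theorem h3_TI_eq (s : Fin D → σ) (F : MvPolynomial σ K) :
    TI s F = Ideal.span (Set.range fun k : Fin D => tay s F (k + 1)) := by
  unfold TI
  congr 1
  ext f
  constructor
  · rintro ⟨k, h1, h2, rfl⟩
    exact ⟨⟨k - 1, by omega⟩, by simp only [Nat.sub_add_cancel h1]⟩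
  · rintro ⟨k, rfl⟩
    exact ⟨k + 1, by omega, by omega, rfl⟩

theorem h3_map_C_monomial {A B : Type} [CommRing A] [CommRing B] (φ : A →+* B) (a : A)
    (α : Fin D →₀ ℕ) :
    MvPolynomial.map φ (C a * monomial α 1) = C (φ a) * monomial α 1 := by
  rw [map_mul, map_C, map_monomial, map_one]

/-- Transport of `Elim` under renaming. -/
theorem h3_rename {s : Fin D → σ} (hs : Function.Injective s) {G ε : MvPolynomial (Fin D) K}
    {M : ℕ} (h : Elim id G ε M) : Elim s (rename s G) (rename s ε) M := by
  intro α hα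
  have h1 := Ideal.mem_map_of_mem (MvPolynomial.map ((rename s : MvPolynomial (Fin D) K →ₐ[K]
      MvPolynomial σ K) : MvPolynomial (Fin D) K →+* MvPolynomial σ K)) (h α hα)
  rw [h3_map_C_monomial] at h1
  refine (?_ : Ideal.map _ (TI id G) ≤ TI s (rename s G)) h1
  rw [TI, Ideal.map_span, Ideal.span_le]
  rintro _ ⟨f, ⟨k, hk1, hk2, rfl⟩, rfl⟩
  rw [← tay_rename hs]
  exact Ideal.subset_span ⟨k, hk1, hk2, rfl⟩

/-- The point `w` as a point of the big space. -/
noncomputable def ext0 (s : Fin D → σ) (w : Fin D → K) : σ → K :=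
  open Classical in fun k => ∑ a, if s a = k then w a else 0

theorem ext0_apply {s : Fin D → σ} (hs : Function.Injective s) (w : Fin D → K) (a : Fin D) :
    ext0 s w (s a) = w a := by
  classical
  unfold ext0
  rw [Finset.sum_eq_single a]
  · rw [if_pos rfl]
  · intro b _ hb
    rw [if_neg fun h => hb (hs h)]
  · intro h
    exact absurd (Finset.mem_univ a) h

theorem ext0_off {s : Fin D → σ} (w : Fin D → K) {k : σ} (hk : k ∉ Set.range s) :
    ext0 s w k = 0 := by
  classical
  unfold ext0
  refine Finset.sum_eq_zero fun b _ => ?_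
  rw [if_neg fun h => hk ⟨b, h⟩]

theorem tr_eval (s : Fin D → σ) (y : σ → K) (w : Fin D → K) (F : MvPolynomial σ K) :
    eval w (MvPolynomial.map (eval y) (tr s F)) = eval (y + ext0 s w) F := by
  classical
  have h : ((eval w).comp (MvPolynomial.map (eval y))).comp
      ((tr s : MvPolynomial σ K →ₐ[K] _) : MvPolynomial σ K →+* _) = eval (y + ext0 s w) := by
    apply MvPolynomial.ringHom_ext
    · intro r
      have e : (tr s : MvPolynomial σ K →ₐ[K] _) (C r) = C (C r) :=
        (tr s : MvPolynomial σ K →ₐ[K] MvPolynomial (Fin D) (MvPolynomial σ K)).commutes r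
      simp only [RingHom.comp_apply, RingHom.coe_coe]
      rw [e]
      simp
    · intro k
      simp only [RingHom.comp_apply, RingHom.coe_coe]
      unfold tr ext0
      rw [aeval_X]
      simp only [map_add, map_sum, map_C, eval_X, Pi.add_apply, eval_C]
      congr 1
      refine Finset.sum_congr rfl fun a _ => ?_
      split_ifs
      · rw [map_X, eval_X]
      · rw [map_zero, map_zero]
  exact RingHom.congr_fun h F

/-- The value of a form at a multiple of a point. -/
theorem eval_smul_hom {τ : Type} {f : MvPolynomial τ K} {k : ℕ} (hf : f.IsHomogeneous k) (t : K)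
    (w : τ → K) : eval (t • w) f = t ^ k * eval w f := by
  classical
  rw [eval_eq, eval_eq, Finset.mul_sum]
  refine Finset.sum_congr rfl fun d hd => ?_
  have h1 : ∑ i ∈ d.support, d i = k := by
    have h2 : d.degree = k := by
      rw [Finsupp.degree_eq_weight_one]
      exact hf (mem_support_iff.1 hd)
    exact h2
  have h2 : ∏ i ∈ d.support, (t • w) i ^ d i = t ^ k * ∏ i ∈ d.support, w i ^ d i := by
    simp only [Pi.smul_apply, smul_eq_mul, mul_pow]
    rw [Finset.prod_mul_distrib, Finset.prod_pow_eq_pow_sum, h1]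
  rw [h2]
  ring

theorem ext0_smul (s : Fin D → σ) (t : K) (w : Fin D → K) : ext0 s (t • w) = t • ext0 s w := by
  classical
  funext k
  simp only [ext0, Pi.smul_apply, smul_eq_mul, Finset.mul_sum]
  refine Finset.sum_congr rfl fun a _ => ?_
  split_ifs
  · rfl
  · rw [mul_zero]

/-- The Taylor expansion along a line. -/
theorem eval_line (s : Fin D → σ) {F : MvPolynomial σ K} (hF : F.IsHomogeneous D) (y : σ → K)
    (w : Fin D → K) (t : K) : eval (y + t • ext0 s w) F =
      ∑ k ∈ Finset.range (D + 1), t ^ k * eval w (MvPolynomial.map (eval y) (tay s F k)) := by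
  rw [← ext0_smul, ← tr_eval, ← tay_sum s hF, map_sum, map_sum]
  refine Finset.sum_congr rfl fun k _ => ?_
  exact eval_smul_hom ((homogeneousComponent_isHomogeneous k _).map (eval y)) t w

/-
PROOF. det_elim with Z = the kernel of the evaluation at the point y, f_k = tay s F (k + 1),
g_k = the value of f_k at y, ε = 1 (null_power): δ (y) ≠ 0. comp_elim (tay_coeff_hom): some homogeneous
component δ_d has restr δ_d ≠ 0. Finally replace δ by restr Bᶜ δ, B = U ∪ the ranges of the s j, j ∈ J,
j ≠ i (tay_free).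
-/
theorem exists_delta [IsAlgClosed K] {ι : Type} {J : Finset ι} {s : ι → Fin D → σ}
    {U : Set σ} {F : MvPolynomial σ K} (h : Nm J s U F) (i : ι) (hi : i ∈ J) :
    ∃ (δ : MvPolynomial σ K) (M d : ℕ), Elim (s i) F δ M ∧ δ.IsHomogeneous d ∧
      restr (Set.range (s i)) δ ≠ 0 ∧ (∀ j ∈ J, j ≠ i → δ ∈ supported K (Set.range (s j))ᶜ) ∧
      δ ∈ supported K Uᶜ := by
  classical
  have hinj := h.inj i hi
  obtain ⟨y, hy0, hy⟩ := h.good i hi
  let I : Ideal (MvPolynomial (Fin D) K) :=
    Ideal.span (Set.range fun k : Fin D => MvPolynomial.map (eval y) (tay (s i) F (k + 1)))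
  obtain ⟨M, hM⟩ := null_power (Ω := K) I (by
    intro w hw
    have h0 : ∀ k : Fin D, eval w (MvPolynomial.map (eval y) (tay (s i) F (k + 1))) = 0 := by
      intro k
      have h1 := hw _ (Ideal.subset_span ⟨k, rfl⟩)
      rw [aeval_def, Algebra.algebraMap_self] at h1
      exact h1
    have h2 : ext0 (s i) w = 0 := by
      refine hy _ (fun k hk => ext0_off w hk) fun t => ?_
      rw [eval_line (s i) h.hom, Finset.sum_range_succ']
      rw [Finset.sum_eq_zero, zero_add, pow_zero, one_mul, tay_zero, map_C, eval_C]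
      intro k hk
      rw [h0 ⟨k, Finset.mem_range.1 hk⟩, mul_zero]
    funext a
    have h3 := congrFun h2 (s i a)
    rwa [ext0_apply hinj] at h3)
  have hZ : (RingHom.ker (eval y : MvPolynomial σ K →+* K)).IsPrime := RingHom.ker_isPrime _
  obtain ⟨δ₀, hδ₀, hδ₀'⟩ := det_elim (hZ := hZ) (RingHom.ker (eval y : MvPolynomial σ K →+* K))
    (fun k : Fin D => tay (s i) F (k + 1))
    (fun k : Fin D => MvPolynomial.map (C : K →+* MvPolynomial σ K)
      (MvPolynomial.map (eval y) (tay (s i) F (k + 1)))) (fun k => k + 1)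
    (fun k => homogeneousComponent_isHomogeneous _ _)
    (fun k => ((homogeneousComponent_isHomogeneous _ _).map (eval y)).map C)
    (by
      intro k α
      rw [RingHom.mem_ker, map_sub, sub_eq_zero, coeff_map, coeff_map, eval_C])
    1
    (by
      rw [RingHom.mem_ker, map_one]
      exact one_ne_zero)
    M (by
      intro α hα
      have h1 := Ideal.mem_map_of_mem (MvPolynomial.map (C : K →+* MvPolynomial σ K)) (hM α hα)
      rw [map_monomial, map_one] at h1
      rw [C_1, one_mul]
      refine (?_ : Ideal.map _ I ≤ _) h1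
      rw [Ideal.map_span]
      refine Ideal.span_mono ?_
      rintro _ ⟨_, ⟨k, rfl⟩, rfl⟩
      exact ⟨k, rfl⟩)
  have hres : restr (Set.range (s i)) δ₀ ≠ 0 := by
    intro hz
    apply hδ₀
    rw [RingHom.mem_ker]
    have h1 : eval y (restr (Set.range (s i)) δ₀) = eval y δ₀ := by
      have h2 : ((eval y : MvPolynomial σ K →+* K).comp
          ((restr (Set.range (s i)) : MvPolynomial σ K →ₐ[K] MvPolynomial σ K) :
            MvPolynomial σ K →+* MvPolynomial σ K)) = eval y := by
        apply MvPolynomial.ringHom_ext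
        · intro r
          have e : (restr (Set.range (s i)) : MvPolynomial σ K →ₐ[K] MvPolynomial σ K) (C r) = C r :=
            (restr (Set.range (s i)) : MvPolynomial σ K →ₐ[K] MvPolynomial σ K).commutes r
          simp only [RingHom.comp_apply, RingHom.coe_coe]
          rw [e]
        · intro k
          simp only [RingHom.comp_apply, RingHom.coe_coe]
          by_cases hk : k ∈ Set.range (s i)
          · rw [restr_X_of_mem hk]
          · rw [restr_X_of_notMem hk, map_zero, eval_X, hy0 k hk]
      exact RingHom.congr_fun h2 δ₀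
    rw [← h1, hz, map_zero]
  have hd : ∃ d, restr (Set.range (s i)) (homogeneousComponent d δ₀) ≠ 0 := by
    by_contra hcon
    push Not at hcon
    apply hres
    rw [← sum_homogeneousComponent δ₀, map_sum]
    exact Finset.sum_eq_zero fun d _ => hcon d
  obtain ⟨d, hd⟩ := hd
  set B : Set σ := U ∪ {k | ∃ j ∈ J, j ≠ i ∧ k ∈ Set.range (s j)} with hB
  have hsub : Set.range (s i) ⊆ Bᶜ := by
    rintro k hk (hkU | ⟨j, hj, hji, hkj⟩)
    · exact Set.disjoint_left.1 (h.disjU i hi) hk hkU
    · exact Set.disjoint_left.1 (h.disj i hi j hj (Ne.symm hji)) hk hkj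
  refine ⟨restr Bᶜ (homogeneousComponent d δ₀), M, d, ?_, ?_, ?_, ?_, ?_⟩
  · intro α hα
    have h1 := comp_elim (fun k : Fin D => tay (s i) F (k + 1)) (fun k => D - (k + 1))
      (fun k α => tay_coeff_hom (s i) h.hom (k + 1) α) δ₀ α (hδ₀' α hα) d
    rw [← h3_TI_eq] at h1
    have h2 := Ideal.mem_map_of_mem (MvPolynomial.map ((restr Bᶜ : MvPolynomial σ K →ₐ[K]
      MvPolynomial σ K) : MvPolynomial σ K →+* MvPolynomial σ K)) h1
    rw [h3_map_C_monomial] at h2
    refine (?_ : Ideal.map _ (TI (s i) F) ≤ TI (s i) F) h2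
    rw [TI, Ideal.map_span, Ideal.span_le]
    rintro _ ⟨f, ⟨k, hk1, hk2, rfl⟩, rfl⟩
    rw [tay_free ?_ hk1]
    · exact Ideal.subset_span ⟨k, hk1, hk2, rfl⟩
    · rintro e he a b (hb | ⟨j, hj, hji, hb⟩)
      · exact h.mixU i hi e he a b hb
      · exact h.mix i hi j hj (Ne.symm hji) e he a b hb
  · exact restr_homog _ (homogeneousComponent_isHomogeneous _ _)
  · rw [restr_restr hsub]
    exact hd
  · intro j hj hji
    refine supported_mono ?_ (restr_supported Bᶜ _)
    rw [Set.compl_subset_compl]
    intro k hk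
    exact Or.inr ⟨j, hj, hji, hk⟩
  · refine supported_mono ?_ (restr_supported Bᶜ _)
    rw [Set.compl_subset_compl]
    intro k hk
    exact Or.inl hk

end Pool.Agent.HCN
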