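import Pool.Agent.HCN.H3

namespace Pool.Agent.HCN

open Pool.Agent.HCH Pool.Agent.HCF Pool.Agent.HCJ MvPolynomial

variable {K : Type} [Field K] {σ : Type} {D : ℕ}

theorem eval_restr {A : Set σ} {x : σ → K} (hx : ∀ k, k ∉ A → x k = 0) (F : MvPolynomial σ K) :
    eval x (restr A F) = eval x F := by
  have h2 : ((eval x : MvPolynomial σ K →+* K).comp
      ((restr A : MvPolynomial σ K →ₐ[K] MvPolynomial σ K) :
        MvPolynomial σ K →+* MvPolynomial σ K)) = eval x := by
    apply MvPolynomial.ringHom_ext
    · intro r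
      have e : (restr A : MvPolynomial σ K →ₐ[K] MvPolynomial σ K) (C r) = C r :=
        (restr A : MvPolynomial σ K →ₐ[K] MvPolynomial σ K).commutes r
      simp only [RingHom.comp_apply, RingHom.coe_coe]
      rw [e]
    · intro k
      simp only [RingHom.comp_apply, RingHom.coe_coe]
      by_cases hk : k ∈ A
      · rw [restr_X_of_mem hk]
      · rw [restr_X_of_notMem hk, map_zero, eval_X, hx k hk]
  exact RingHom.congr_fun h2 F

/-- A polynomial which is constant on an infinite field has no coefficients of positive degree. -/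
theorem coeff_of_const [Infinite K] {n : ℕ} {c : ℕ → K} {a : K}
    (h : ∀ t : K, ∑ k ∈ Finset.range (n + 1), t ^ k * c k = a) {k : ℕ} (hk : 1 ≤ k)
    (hkn : k ≤ n) : c k = 0 := by
  classical
  let P : Polynomial K := ∑ k ∈ Finset.range (n + 1), Polynomial.C (c k) * Polynomial.X ^ k
  have h1 : P = Polynomial.C a := by
    apply Polynomial.funext
    intro t
    rw [Polynomial.eval_C, ← h t, Polynomial.eval_finsetSum]
    refine Finset.sum_congr rfl fun k _ => ?_
    rw [Polynomial.eval_mul, Polynomial.eval_C, Polynomial.eval_pow, Polynomial.eval_X, mul_comm]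
  have h2 : P.coeff k = c k := by
    rw [Polynomial.finsetSum_coeff, Finset.sum_eq_single k]
    · rw [Polynomial.coeff_C_mul_X_pow, if_pos rfl]
    · intro b _ hb
      rw [Polynomial.coeff_C_mul_X_pow, if_neg (Ne.symm hb)]
    · intro hb
      exact absurd (Finset.mem_range.2 (by omega)) hb
  rw [← h2, h1, Polynomial.coeff_C, if_neg (by omega)]

/-- A smooth restriction is constant on no line through a general point. -/
theorem smooth_good [IsAlgClosed K] [CharZero K] (hD : 1 ≤ D) {s : Fin D → σ}
    (hs : Function.Injective s) {F : MvPolynomial σ K} (hF : F.IsHomogeneous D)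
    (hsm : ∀ x : σ → K, (∀ k, k ∉ Set.range s → x k = 0) →
      (∀ a, eval x (pderiv (s a) F) = 0) → x = 0) :
    ∃ y : σ → K, (∀ k, k ∉ Set.range s → y k = 0) ∧ ∀ w : σ → K,
      (∀ k, k ∉ Set.range s → w k = 0) → (∀ t : K, eval (y + t • w) F = eval y F) → w = 0 := by
  classical
  have hinf : Infinite K := IsAlgClosed.instInfinite
  obtain ⟨G, hG1, hG2, hG3⟩ := exists_restr hs F
  obtain ⟨ε, M, hε0, hε⟩ := good hD G (hG2 D hF) (by
    intro w hw
    have hx : ext0 s w = 0 := by
      refine hsm _ (fun k hk => ext0_off w hk) (fun a => ?_)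
      rw [hG3 w a _ (fun b => ext0_apply hs w b) (fun k hk => ext0_off w hk)]
      exact hw a
    funext b
    have := congrFun hx (s b)
    rwa [ext0_apply hs] at this)
  obtain ⟨y0, hy0⟩ : ∃ y0 : Fin D → K, eval y0 ε ≠ 0 := by
    by_contra hc
    push Not at hc
    exact hε0 (MvPolynomial.funext fun x => by rw [hc x, map_zero])
  refine ⟨ext0 s y0, fun k hk => ext0_off y0 hk, ?_⟩
  intro w hw ht
  let w0 : Fin D → K := fun a => w (s a)
  have hww : w = ext0 s w0 := by
    funext k
    by_cases hk : k ∈ Set.range s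
    · obtain ⟨a, rfl⟩ := hk
      rw [ext0_apply hs]
    · rw [hw k hk, ext0_off _ hk]
  have hFG : ∀ x : σ → K, (∀ k, k ∉ Set.range s → x k = 0) →
      eval x F = eval (fun a => x (s a)) G := by
    intro x hx
    rw [← eval_restr hx, ← hG1, eval_rename]
    rfl
  have hid : ∀ v : Fin D → K, ext0 (id : Fin D → Fin D) v = v := by
    intro v
    funext k
    exact ext0_apply Function.injective_id v k
  have hline : ∀ t : K, ∑ k ∈ Finset.range (D + 1),
      t ^ k * eval w0 (MvPolynomial.map (eval y0) (tay id G k)) = eval y0 G := by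
    intro t
    rw [← eval_line (id : Fin D → Fin D) (hG2 D hF), hid]
    have h1 := ht t
    rw [hFG _ (fun k hk => by
      rw [Pi.add_apply, Pi.smul_apply, ext0_off _ hk, hw k hk, smul_zero, add_zero]),
      hFG _ (fun k hk => ext0_off _ hk)] at h1
    have e1 : (fun a => (ext0 s y0 + t • w) (s a)) = y0 + t • w0 := by
      funext a
      rw [Pi.add_apply, Pi.smul_apply, ext0_apply hs]
      rfl
    have e2 : (fun a => ext0 s y0 (s a)) = y0 := by
      funext a
      rw [ext0_apply hs]
    rw [e1, e2] at h1
    exact h1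
  have hzero : ∀ k, 1 ≤ k → k ≤ D → eval w0 (MvPolynomial.map (eval y0) (tay id G k)) = 0 :=
    fun k h1 h2 => coeff_of_const hline h1 h2
  have hw0 : w0 = 0 := by
    funext a
    have h1 := hε (Finsupp.single a M) (by simp [Finsupp.degree_single])
    have h2 : TI id G ≤ RingHom.ker ((eval w0).comp (MvPolynomial.map (eval y0))) := by
      rw [TI, Ideal.span_le]
      rintro _ ⟨k, hk1, hk2, rfl⟩
      exact hzero k hk1 hk2
    have h3 := h2 h1
    rw [RingHom.mem_ker, RingHom.comp_apply, map_mul, map_C, map_monomial, map_one, map_mul,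
      eval_C] at h3
    rcases mul_eq_zero.1 h3 with h4 | h4
    · exact absurd h4 hy0
    · rw [← X_pow_eq_monomial, map_pow, eval_X] at h4
      exact eq_zero_of_pow_eq_zero h4
  rw [hww, hw0]
  funext k
  unfold ext0
  exact Finset.sum_eq_zero fun b _ => by
    split_ifs <;> rfl

end Pool.Agent.HCN
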