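import Pool.Agent.HCN.T2

namespace Pool.Agent.HCN

open Pool.Agent.HCH Pool.Agent.HCF Pool.Agent.HCJ MvPolynomial

variable {K : Type} [Field K] {σ : Type}

private theorem I1_single (A : Set σ) (i : σ) (k : ℕ) (c : K) :
    A1_e A (monomial (Finsupp.single i k) c) =
      monomial ((Finsupp.single i k).subtypeDomain (· ∈ A))
        (monomial ((Finsupp.single i k).subtypeDomain (· ∈ Aᶜ)) c) := by
  classical
  have h0 : (monomial (Finsupp.single i k) c : MvPolynomial σ K) = C c * X i ^ k := by
    rw [C_mul_X_pow_eq_monomial]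
  rw [h0, map_mul, map_pow]
  have hC : A1_e A (C c : MvPolynomial σ K) = C (C c) := (A1_e A).commutes c
  rw [hC]
  by_cases hi : i ∈ A
  · have h1 : ((Finsupp.single i k).subtypeDomain (· ∈ A)) = Finsupp.single ⟨i, hi⟩ k := by
      ext j
      by_cases hj : (⟨i, hi⟩ : A) = j
      · subst hj; simp
      · have hj' : i ≠ (j : σ) := fun h => hj (Subtype.ext h)
        rw [Finsupp.subtypeDomain_apply, Finsupp.single_eq_of_ne hj'.symm,
          Finsupp.single_eq_of_ne (Ne.symm hj)]
    have h2 : ((Finsupp.single i k).subtypeDomain (· ∈ Aᶜ)) = 0 := by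
      ext j
      have hj' : i ≠ (j : σ) := fun h => j.2 (h ▸ hi)
      rw [Finsupp.subtypeDomain_apply, Finsupp.single_eq_of_ne hj'.symm, Finsupp.zero_apply]
    rw [h1, h2, A1_e_X_mem A ⟨i, hi⟩, C_mul_X_pow_eq_monomial]
    rfl
  · have h1 : ((Finsupp.single i k).subtypeDomain (· ∈ A)) = 0 := by
      ext j
      have hj' : i ≠ (j : σ) := fun h => hi (h ▸ j.2)
      rw [Finsupp.subtypeDomain_apply, Finsupp.single_eq_of_ne hj'.symm, Finsupp.zero_apply]
    have h2 : ((Finsupp.single i k).subtypeDomain (· ∈ Aᶜ)) =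
        Finsupp.single (⟨i, hi⟩ : ↥Aᶜ) k := by
      ext j
      by_cases hj : (⟨i, hi⟩ : ↥Aᶜ) = j
      · subst hj; simp
      · have hj' : i ≠ (j : σ) := fun h => hj (Subtype.ext h)
        rw [Finsupp.subtypeDomain_apply, Finsupp.single_eq_of_ne hj'.symm,
          Finsupp.single_eq_of_ne (Ne.symm hj)]
    rw [h1, h2, A1_e_X_compl A ⟨i, hi⟩, ← C_pow, ← C_mul, C_mul_X_pow_eq_monomial]
    rfl

private theorem I1_mon (A : Set σ) (n : σ →₀ ℕ) (c : K) :
    A1_e A (monomial n c) = monomial (n.subtypeDomain (· ∈ A))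
        (monomial (n.subtypeDomain (· ∈ Aᶜ)) c) := by
  classical
  induction n using Finsupp.induction_linear generalizing c with
  | zero =>
    rw [Finsupp.subtypeDomain_zero, Finsupp.subtypeDomain_zero]
    exact (A1_e A).commutes c
  | add f g hf hg =>
    have h0 : (monomial (f + g) c : MvPolynomial σ K) = monomial f c * monomial g 1 := by
      rw [monomial_mul, mul_one]
    rw [h0, map_mul, hf, hg, Finsupp.subtypeDomain_add, Finsupp.subtypeDomain_add, monomial_mul,
      monomial_mul, mul_one]
  | single a b => exact I1_single A a b c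

private theorem I1_restr_mon (A : Set σ) (n : σ →₀ ℕ) (c : K)
    (h : restr A (monomial n c) ≠ 0) : ∀ i ∉ A, n i = 0 := by
  classical
  intro i hi
  by_contra hn
  apply h
  unfold restr
  rw [aeval_monomial]
  have : (n.prod fun i k => (if i ∈ A then (X i : MvPolynomial σ K) else 0) ^ k) = 0 := by
    rw [Finsupp.prod]
    refine Finset.prod_eq_zero (Finsupp.mem_support_iff.2 hn) ?_
    rw [if_neg hi, zero_pow hn]
  rw [this, mul_zero]

theorem not_mem_cyl {A : Set σ} {P : Ideal (MvPolynomial σ K)} (hP : P ≠ ⊤)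
    {h : MvPolynomial σ K} {d : ℕ} (hh : h.IsHomogeneous d) (h0 : restr A h ≠ 0) : h ∉ cyl A P := by
  classical
  intro hc
  obtain ⟨n, hn, hnA⟩ : ∃ n ∈ h.support, ∀ i ∉ A, n i = 0 := by
    by_contra hcon
    push Not at hcon
    apply h0
    rw [h.as_sum, map_sum]
    refine Finset.sum_eq_zero fun n hn => ?_
    by_contra hne
    obtain ⟨i, hi, hni⟩ := hcon n hn
    exact hni (I1_restr_mon A n _ hne i hi)
  rw [A1_cyl_eq, Ideal.mem_comap] at hc
  change A1_e A h ∈ _ at hc
  rw [mem_map_C_iff] at hc
  have h1 := hc (n.subtypeDomain (· ∈ A))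
  have h2 : coeff (n.subtypeDomain (· ∈ A)) (A1_e A h) = C (coeff n h) := by
    have hs : A1_e A h = ∑ v ∈ h.support, A1_e A (monomial v (coeff v h)) := by
      conv_lhs => rw [h.as_sum]
      rw [map_sum]
    rw [hs, coeff_sum, Finset.sum_eq_single n]
    · rw [I1_mon, coeff_monomial, if_pos rfl]
      have : n.subtypeDomain (· ∈ Aᶜ) = 0 := by
        ext j
        rw [Finsupp.subtypeDomain_apply, Finsupp.zero_apply]
        exact hnA _ j.2
      rw [this]
      rfl
    · intro v hv hvn
      rw [I1_mon, coeff_monomial, if_neg]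
      intro heq
      apply hvn
      have hle : n ≤ v := by
        intro i
        by_cases hi : i ∈ A
        · have := DFunLike.congr_fun heq ⟨i, hi⟩
          rw [Finsupp.subtypeDomain_apply, Finsupp.subtypeDomain_apply] at this
          exact this.ge
        · rw [hnA i hi]; exact Nat.zero_le _
      have hdn : n.degree = d := by
        have := hh (mem_support_iff.1 hn)
        rw [Finsupp.degree_eq_weight_one]
        exact this
      have hdv : v.degree = d := by
        have := hh (mem_support_iff.1 hv)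
        rw [Finsupp.degree_eq_weight_one]
        exact this
      have hadd : n + (v - n) = v := add_tsub_cancel_of_le hle
      have hdeg : (v - n).degree = 0 := by
        have := congrArg Finsupp.degree hadd
        rw [map_add, hdn, hdv] at this
        omega
      rw [Finsupp.degree_eq_zero_iff] at hdeg
      rw [hdeg, add_zero] at hadd
      exact hadd.symm
    · intro hn'
      exact absurd hn hn'
  rw [h2] at h1
  unfold A1_q at h1
  rw [Ideal.mem_comap] at h1
  change rename _ (C (coeff n h)) ∈ P at h1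
  rw [rename_C] at h1
  apply hP
  refine Ideal.eq_top_of_isUnit_mem P h1 ?_
  exact (isUnit_iff_ne_zero.2 (mem_support_iff.1 hn)).map C

theorem dim_bound {N : ℕ} {ι : Type} (J : Finset ι) (S : ι → Set (Fin N))
    (δ : ι → MvPolynomial (Fin N) K) (d : ι → ℕ) (hδ : ∀ i ∈ J, (δ i).IsHomogeneous (d i))
    (h0 : ∀ i ∈ J, restr (S i) (δ i) ≠ 0)
    (hfree : ∀ i ∈ J, ∀ j ∈ J, j ≠ i → δ i ∈ supported K (S j)ᶜ)
    (P : PrimeSpectrum (MvPolynomial (Fin N) K)) (hP : ∀ i ∈ J, δ i ∈ P.asIdeal) :
    dm K P.asIdeal + J.card ≤ N := by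
  classical
  induction J using Finset.induction_on generalizing P with
  | empty =>
    have h1 := dm_le (K := K) ⊥ P.asIdeal bot_le
    rw [dm_bot] at h1
    simpa using h1
  | insert i J hi ih =>
    have hQ : (cyl (S i) P.asIdeal).IsPrime := cyl_prime _ _ P.2
    have hlt : cyl (S i) P.asIdeal < P.asIdeal := by
      refine lt_of_le_of_ne (cyl_le _ _) ?_
      intro heq
      have h1 : δ i ∉ cyl (S i) P.asIdeal :=
        not_mem_cyl P.2.ne_top (hδ i (Finset.mem_insert_self i J)) (h0 i (Finset.mem_insert_self i J))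
      rw [heq] at h1
      exact h1 (hP i (Finset.mem_insert_self i J))
    have h2 := dm_lt (K := K) (cyl (S i) P.asIdeal) P.asIdeal hlt
    have h3 := ih (fun j hj => hδ j (Finset.mem_insert_of_mem hj))
      (fun j hj => h0 j (Finset.mem_insert_of_mem hj))
      (fun j hj k hk => hfree j (Finset.mem_insert_of_mem hj) k (Finset.mem_insert_of_mem hk))
      ⟨cyl (S i) P.asIdeal, hQ⟩ (fun j hj => by
        refine (mem_cyl (hfree j (Finset.mem_insert_of_mem hj) i (Finset.mem_insert_self i J) ?_)).2
          (hP j (Finset.mem_insert_of_mem hj))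
        rintro rfl
        exact hi hj)
    rw [Finset.card_insert_of_notMem hi]
    change dm K (cyl (S i) P.asIdeal) + J.card ≤ N at h3
    omega

end Pool.Agent.HCN
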