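import Pool.Agent.HCN.T2
import Pool.Agent.HCJ.F1

namespace Pool.Agent.HCN

open Pool.Agent.HCH Pool.Agent.HCF Pool.Agent.HCJ MvPolynomial

section
variable {R : Type} [CommRing R] {ι : Type}

theorem I2_coeff_zero {u : MvPolynomial ι R} {m : ℕ} (h : ∀ k, m ≤ k → homogeneousComponent k u = 0) {s : ι →₀ ℕ}
    (hs : m ≤ s.degree) : coeff s u = 0 := by
  have h1 := congrArg (coeff s) (h _ hs)
  rwa [coeff_homogeneousComponent, if_pos rfl, coeff_zero] at h1

theorem I2_zero {u : MvPolynomial ι R} (h : ∀ k, homogeneousComponent k u = 0) : u = 0 := by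
  ext s
  rw [coeff_zero]
  exact I2_coeff_zero (m := 0) (fun k _ => h k) (Nat.zero_le _)

theorem I2_top_mul {u v : MvPolynomial ι R} {m n : ℕ} (hu : ∀ k, m < k → homogeneousComponent k u = 0)
    (hv : ∀ k, n < k → homogeneousComponent k v = 0) :
    homogeneousComponent (m + n) (u * v) = homogeneousComponent m u * homogeneousComponent n v := by
  classical
  ext s
  rw [coeff_homogeneousComponent, coeff_mul, coeff_mul]
  split_ifs with hs
  · refine Finset.sum_congr rfl fun x hx => ?_
    have hx1 : x.1.degree + x.2.degree = m + n := by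
      rw [← map_add, Finset.HasAntidiagonal.mem_antidiagonal.1 hx, hs]
    rw [coeff_homogeneousComponent, coeff_homogeneousComponent]
    by_cases h1 : x.1.degree = m
    · rw [if_pos h1, if_pos (by omega)]
    · rw [if_neg h1, zero_mul]
      rcases Nat.lt_or_gt_of_ne h1 with h2 | h2
      · rw [I2_coeff_zero (u := v) (m := n + 1) (fun k hk => hv k hk) (by omega), mul_zero]
      · rw [I2_coeff_zero (u := u) (m := m + 1) (fun k hk => hu k hk) (by omega), zero_mul]
  · symm
    refine Finset.sum_eq_zero fun x hx => ?_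
    rw [coeff_homogeneousComponent, coeff_homogeneousComponent]
    by_cases h1 : x.1.degree = m
    · have h2 : ¬ x.2.degree = n := by
        intro h2
        apply hs
        rw [← Finset.HasAntidiagonal.mem_antidiagonal.1 hx, map_add, h1, h2]
      rw [if_neg h2, mul_zero]
    · rw [if_neg h1, zero_mul]

theorem I2_bound_mul {u v : MvPolynomial ι R} {m n : ℕ} (hu : ∀ k, m < k → homogeneousComponent k u = 0)
    (hv : ∀ k, n < k → homogeneousComponent k v = 0) : ∀ k, m + n < k → homogeneousComponent k (u * v) = 0 := by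
  classical
  intro k hk
  ext s
  rw [coeff_homogeneousComponent, coeff_mul, coeff_zero]
  split_ifs with hs
  · refine Finset.sum_eq_zero fun x hx => ?_
    have hx1 : x.1.degree + x.2.degree = k := by
      rw [← map_add, Finset.HasAntidiagonal.mem_antidiagonal.1 hx, hs]
    by_cases h1 : m + 1 ≤ x.1.degree
    · rw [I2_coeff_zero (u := u) (m := m + 1) (fun k hk => hu k hk) h1, zero_mul]
    · rw [I2_coeff_zero (u := v) (m := n + 1) (fun k hk => hv k hk) (by omega), mul_zero]
  · rfl

theorem I2_comp_comp {u : MvPolynomial ι R} (k m : ℕ) :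
    homogeneousComponent k (homogeneousComponent m u) = if k = m then homogeneousComponent m u else 0 := by
  rw [homogeneousComponent_of_mem (homogeneousComponent_mem m u)]

theorem I2_hi (u : MvPolynomial ι R) : ∀ k, u.totalDegree < k → homogeneousComponent k u = 0 := fun _ hk =>
  homogeneousComponent_eq_zero _ _ hk

theorem I2_top_ne {u : MvPolynomial ι R} (h : u ≠ 0) : homogeneousComponent u.totalDegree u ≠ 0 := by
  intro h1
  have h2 : u.support.Nonempty := support_nonempty.2 h
  obtain ⟨s, hs, h3⟩ := Finset.exists_mem_eq_sup u.support h2 fun s : ι →₀ ℕ => s.sum fun _ e => e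
  have h4 := congrArg (coeff s) h1
  rw [coeff_homogeneousComponent, coeff_zero, if_pos (show s.degree = u.totalDegree from h3.symm)] at h4
  exact mem_support_iff.1 hs h4

variable [IsDomain R]

/-- two nonzero top components of one polynomial -/
theorem I2_deg {u v w f : MvPolynomial ι R} {m n d e : ℕ} (hu : ∀ k, m < k → homogeneousComponent k u = 0)
    (hv : ∀ k, n < k → homogeneousComponent k v = 0) (hf : ∀ k, d < k → homogeneousComponent k f = 0)
    (hw : ∀ k, e < k → homogeneousComponent k w = 0) (h : u * v = f * w) (hu0 : homogeneousComponent m u ≠ 0)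
    (hv0 : homogeneousComponent n v ≠ 0) (hf0 : homogeneousComponent d f ≠ 0) (hw0 : homogeneousComponent e w ≠ 0) :
    m + n = d + e := by
  have h1 := I2_top_mul hu hv
  have h2 := I2_top_mul hf hw
  have h3 : homogeneousComponent (m + n) (u * v) ≠ 0 := by
    rw [h1]
    exact mul_ne_zero hu0 hv0
  have h4 : homogeneousComponent (d + e) (f * w) ≠ 0 := by
    rw [h2]
    exact mul_ne_zero hf0 hw0
  rcases lt_trichotomy (m + n) (d + e) with h5 | h5 | h5
  · exact (h4 (by rw [← h]; exact I2_bound_mul hu hv _ h5)).elim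
  · exact h5
  · exact (h3 (by rw [h]; exact I2_bound_mul hf hw _ h5)).elim

theorem I2_red {f u : MvPolynomial ι R} {d m : ℕ} (hf : ∀ k, d < k → homogeneousComponent k f = 0)
    (hf0 : homogeneousComponent d f ≠ 0) (hu : ∀ k, m + 1 ≤ k → homogeneousComponent k u = 0)
    (hu0 : homogeneousComponent m u ≠ 0) (h : homogeneousComponent m u ∈ Ideal.span {homogeneousComponent d f}) :
    ∃ a, ∀ k, m ≤ k → homogeneousComponent k (u - f * a) = 0 := by
  obtain ⟨a, ha⟩ := Ideal.mem_span_singleton'.1 h
  have ha0 : a ≠ 0 := by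
    rintro rfl
    rw [zero_mul] at ha
    exact hu0 ha.symm
  set b := a.totalDegree with hb
  have h1 : ∀ k, m < k → homogeneousComponent k (homogeneousComponent m u) = 0 := by
    intro k hk
    rw [I2_comp_comp, if_neg (by omega)]
  have h2 : ∀ k, d < k → homogeneousComponent k (homogeneousComponent d f) = 0 := by
    intro k hk
    rw [I2_comp_comp, if_neg (by omega)]
  have h0 : ∀ k, 0 < k → homogeneousComponent k (1 : MvPolynomial ι R) = 0 := by
    intro k hk
    exact homogeneousComponent_eq_zero _ _ (by rwa [totalDegree_one])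
  have h3 : m + 0 = d + b := by
    refine I2_deg (v := 1) h1 h0 h2 (I2_hi a) (by rw [mul_one, ← ha, mul_comm]) ?_ ?_ ?_ (I2_top_ne ha0)
    · rwa [I2_comp_comp, if_pos rfl]
    · rw [homogeneousComponent_zero, coeff_zero_one, C_1]
      exact one_ne_zero
    · rwa [I2_comp_comp, if_pos rfl]
  have h4 := I2_top_mul h2 (I2_hi a)
  rw [I2_comp_comp, if_pos rfl, ← hb, ← h3, add_zero, mul_comm, ha, I2_comp_comp, if_pos rfl] at h4
  refine ⟨homogeneousComponent b a, fun k hk => ?_⟩
  have h5 : ∀ k, b < k → homogeneousComponent k (homogeneousComponent b a) = 0 := by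
    intro k hk
    rw [I2_comp_comp, if_neg (by omega)]
  rw [map_sub]
  rcases Nat.lt_or_ge m k with h6 | h6
  · rw [hu k h6, I2_bound_mul hf h5 k (by omega), sub_zero]
  · obtain rfl : k = m := by omega
    have h7 := I2_top_mul hf h5
    rw [I2_comp_comp, if_pos rfl, ← h3, add_zero] at h7
    rw [h7, h4, sub_self]

/-- A polynomial over a domain is prime if its top form is. -/
theorem I2_prime {f : MvPolynomial ι R} {d : ℕ} (hf : ∀ k, d < k → homogeneousComponent k f = 0)
    (hf0 : homogeneousComponent d f ≠ 0) (hp : (Ideal.span {homogeneousComponent d f}).IsPrime) :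
    (Ideal.span {f}).IsPrime := by
  have key : ∀ N m n : ℕ, m + n = N → ∀ u v : MvPolynomial ι R, (∀ k, m ≤ k → homogeneousComponent k u = 0) →
      (∀ k, n ≤ k → homogeneousComponent k v = 0) → u * v ∈ Ideal.span {f} → u ∈ Ideal.span {f} ∨ v ∈ Ideal.span {f} := by
    intro N
    induction N with
    | zero =>
      intro m n hmn u v hu hv _
      left
      rw [I2_zero (u := u) fun k => hu k (by omega)]
      exact Ideal.zero_mem _
    | succ N ih =>
      intro m n hmn u v hu hv huv
      rcases m with - | m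
      · left
        rw [I2_zero (u := u) fun k => hu k (by omega)]
        exact Ideal.zero_mem _
      rcases n with - | n
      · right
        rw [I2_zero (u := v) fun k => hv k (by omega)]
        exact Ideal.zero_mem _
      by_cases hu0 : homogeneousComponent m u = 0
      · refine ih m (n + 1) (by omega) u v (fun k hk => ?_) hv huv
        rcases Nat.lt_or_ge m k with h | h
        · exact hu k h
        · rwa [show k = m by omega]
      by_cases hv0 : homogeneousComponent n v = 0
      · refine ih (m + 1) n (by omega) u v hu (fun k hk => ?_) huv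
        rcases Nat.lt_or_ge n k with h | h
        · exact hv k h
        · rwa [show k = n by omega]
      obtain ⟨w, hw⟩ := Ideal.mem_span_singleton'.1 huv
      have huv0 : u * v ≠ 0 := by
        refine mul_ne_zero ?_ ?_
        · rintro rfl
          exact hu0 (map_zero _)
        · rintro rfl
          exact hv0 (map_zero _)
      have hw0 : w ≠ 0 := by
        rintro rfl
        rw [zero_mul] at hw
        exact huv0 hw.symm
      have h1 := I2_deg (m := m) (n := n) hu hv hf (I2_hi w) (by rw [← hw, mul_comm]) hu0 hv0 hf0 (I2_top_ne hw0)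
      have h2 := I2_top_mul (m := m) (n := n) hu hv
      have h3 := I2_top_mul hf (I2_hi w)
      rw [← h1, mul_comm f w, hw, h2] at h3
      have h4 : homogeneousComponent m u * homogeneousComponent n v ∈ Ideal.span {homogeneousComponent d f} := by
        rw [h3]
        exact Ideal.mul_mem_right _ _ (Ideal.mem_span_singleton_self _)
      rcases hp.mem_or_mem h4 with h5 | h5
      · obtain ⟨a, ha⟩ := I2_red hf hf0 hu hu0 h5
        have h6 : (u - f * a) * v ∈ Ideal.span {f} := by
          rw [sub_mul, mul_assoc]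
          exact Ideal.sub_mem _ huv (Ideal.mul_mem_right _ _ (Ideal.mem_span_singleton_self _))
        rcases ih m (n + 1) (by omega) (u - f * a) v ha hv h6 with h7 | h7
        · left
          have h8 := Ideal.add_mem _ h7 (Ideal.mul_mem_right a _ (Ideal.mem_span_singleton_self f))
          rwa [sub_add_cancel] at h8
        · exact Or.inr h7
      · obtain ⟨a, ha⟩ := I2_red hf hf0 hv hv0 h5
        have h6 : u * (v - f * a) ∈ Ideal.span {f} := by
          rw [mul_sub, mul_left_comm]
          exact Ideal.sub_mem _ huv (Ideal.mul_mem_right _ _ (Ideal.mem_span_singleton_self _))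
        rcases ih (m + 1) n (by omega) u (v - f * a) hu ha h6 with h7 | h7
        · exact Or.inl h7
        · right
          have h8 := Ideal.add_mem _ h7 (Ideal.mul_mem_right a _ (Ideal.mem_span_singleton_self f))
          rwa [sub_add_cancel] at h8
  refine ⟨?_, ?_⟩
  · intro h
    have h1 : (1 : MvPolynomial ι R) ∈ Ideal.span {f} := by
      rw [h]
      exact Submodule.mem_top
    obtain ⟨w, hw⟩ := Ideal.mem_span_singleton'.1 h1
    have hw0 : w ≠ 0 := by
      rintro rfl
      rw [zero_mul] at hw
      exact zero_ne_one hw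
    have h0 : ∀ k, 0 < k → homogeneousComponent k (1 : MvPolynomial ι R) = 0 := by
      intro k hk
      exact homogeneousComponent_eq_zero _ _ (by rwa [totalDegree_one])
    have h01 : homogeneousComponent 0 (1 : MvPolynomial ι R) = 1 := by
      rw [homogeneousComponent_zero, coeff_zero_one, C_1]
    have h2 := I2_deg (u := 1) (v := 1) h0 h0 hf (I2_hi w) (by rw [mul_one, mul_comm, hw]) (by
      rw [h01]
      exact one_ne_zero) (by
      rw [h01]
      exact one_ne_zero) hf0 (I2_top_ne hw0)
    have h3 := I2_top_mul hf (I2_hi w)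
    rw [← h2, mul_comm f w, hw, add_zero, h01] at h3
    refine hp.ne_top ((Ideal.eq_top_iff_one _).2 ?_)
    rw [h3]
    exact Ideal.mul_mem_right _ _ (Ideal.mem_span_singleton_self _)
  · intro u v huv
    exact key _ (u.totalDegree + 1) (v.totalDegree + 1) rfl u v (fun k hk => I2_hi u k hk) (fun k hk => I2_hi v k hk) huv

end

section
variable {K R : Type} [Field K] [CommRing R] [Algebra K R] {σ ι : Type}

/-- `Φ F` has degree at most `d` and its part of degree `d` is `ψ F`. -/
def I2_P (Φ : MvPolynomial σ K →ₐ[K] MvPolynomial ι R) (ψ : MvPolynomial σ K →ₐ[K] MvPolynomial ι R) (d : ℕ)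
    (F : MvPolynomial σ K) : Prop :=
  (∀ k, d < k → homogeneousComponent k (Φ F) = 0) ∧ homogeneousComponent d (Φ F) = ψ F

variable {Φ ψ : MvPolynomial σ K →ₐ[K] MvPolynomial ι R}

theorem I2_P_mul {a b : ℕ} {F G : MvPolynomial σ K} (hF : I2_P Φ ψ a F) (hG : I2_P Φ ψ b G) : I2_P Φ ψ (a + b) (F * G) := by
  refine ⟨?_, ?_⟩
  · rw [map_mul Φ]
    exact I2_bound_mul hF.1 hG.1
  · rw [map_mul Φ, map_mul ψ, I2_top_mul hF.1 hG.1, hF.2, hG.2]

theorem I2_P_C (c : K) : I2_P Φ ψ 0 (C c) := by
  have h : ∀ χ : MvPolynomial σ K →ₐ[K] MvPolynomial ι R, χ (C c) = C (algebraMap K R c) := by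
    intro χ
    exact χ.commutes c
  refine ⟨fun k hk => ?_, ?_⟩
  · rw [h Φ]
    exact homogeneousComponent_eq_zero _ _ (by rwa [totalDegree_C])
  · rw [h Φ, h ψ, homogeneousComponent_zero, coeff_zero_C]

theorem I2_P_pow {a : ℕ} {F : MvPolynomial σ K} (hF : I2_P Φ ψ a F) (n : ℕ) : I2_P Φ ψ (n * a) (F ^ n) := by
  induction n with
  | zero =>
    rw [pow_zero, zero_mul, ← C_1]
    exact I2_P_C 1
  | succ n ih =>
    rw [pow_succ, Nat.succ_mul]
    exact I2_P_mul ih hF

theorem I2_P_prod (s : Finset σ) (e : σ → ℕ) (hX : ∀ i, I2_P Φ ψ 1 (X i)) : I2_P Φ ψ (∑ i ∈ s, e i) (∏ i ∈ s, X i ^ e i) := by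
  classical
  induction s using Finset.induction_on with
  | empty =>
    rw [Finset.sum_empty, Finset.prod_empty, ← C_1]
    exact I2_P_C 1
  | insert i s hi ih =>
    rw [Finset.sum_insert hi, Finset.prod_insert hi]
    have h := I2_P_pow (hX i) (e i)
    rw [mul_one] at h
    exact I2_P_mul h ih

theorem I2_P_hom {F : MvPolynomial σ K} {d : ℕ} (hF : F.IsHomogeneous d) (hX : ∀ i, I2_P Φ ψ 1 (X i)) : I2_P Φ ψ d F := by
  classical
  have h1 : ∀ s ∈ F.support, I2_P Φ ψ d (monomial s (coeff s F)) := by
    intro s hs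
    have h2 := I2_P_mul (I2_P_C (Φ := Φ) (ψ := ψ) (coeff s F)) (I2_P_prod s.support s hX)
    rw [zero_add] at h2
    have h3 : ∑ i ∈ s.support, s i = d := (hF.degree_eq_sum_deg_support hs).symm
    rw [h3] at h2
    rw [monomial_eq]
    exact h2
  have h2 := F.as_sum
  refine ⟨fun k hk => ?_, ?_⟩
  · rw [h2, map_sum, map_sum]
    exact Finset.sum_eq_zero fun s hs => (h1 s hs).1 k hk
  · conv_lhs => rw [h2, map_sum, map_sum]
    conv_rhs => rw [h2, map_sum]
    exact Finset.sum_congr rfl fun s hs => (h1 s hs).2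

end

/-
PROOF. K[σ] / Q = B'[A], B' = B / (Q ∩ B) a domain, B = K[σ ∖ A] (A1_e, A1_cyl_eq; Q = cyl A Q). The
image F' of F has degree d and its part of degree d is the image of restr A F, with coefficients in K
(as F is homogeneous). The ideal of the top form is prime (F1_prime); top forms multiply, so (F') is prime (I2_prime).
-/
theorem prime_top {K : Type} [Field K] [IsAlgClosed K] {σ : Type} [Finite σ] {A : Set σ}
    (Q : Ideal (MvPolynomial σ K)) (hQp : Q.IsPrime) (hQ : IsCyl A Q) {F : MvPolynomial σ K} {d : ℕ}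
    (hF : F.IsHomogeneous d) (hirr : Irreducible (restr A F)) :
    (Q ⊔ Ideal.span {F}).IsPrime := by
  classical
  set ρ : MvPolynomial ↥Aᶜ K →ₐ[K] MvPolynomial σ K := rename Subtype.val with hρ
  set q : Ideal (MvPolynomial ↥Aᶜ K) := Q.comap (ρ : MvPolynomial ↥Aᶜ K →+* MvPolynomial σ K) with hq
  haveI hqp : q.IsPrime := Ideal.comap_isPrime _ _
  let Φ : MvPolynomial σ K →ₐ[K] MvPolynomial ↥A (MvPolynomial ↥Aᶜ K ⧸ q) :=
    aeval fun i => if h : i ∈ A then X ⟨i, h⟩ else C (Ideal.Quotient.mk q (X ⟨i, h⟩))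
  have hΦA : ∀ i : ↥A, Φ (X i.1) = X i := by
    intro i
    show aeval _ (X i.1) = _
    rw [aeval_X, dif_pos i.2]
  have hΦB : ∀ b : MvPolynomial ↥Aᶜ K, Φ (ρ b) = C (Ideal.Quotient.mk q b) := by
    intro b
    have h1 : Φ.comp ρ = (IsScalarTower.toAlgHom K (MvPolynomial ↥Aᶜ K ⧸ q) (MvPolynomial ↥A (MvPolynomial ↥Aᶜ K ⧸ q))).comp
        (Ideal.Quotient.mkₐ K q) := by
      apply MvPolynomial.algHom_ext
      intro i
      show Φ (ρ (X i)) = C (Ideal.Quotient.mk q (X i))
      rw [hρ, rename_X]
      show aeval _ (X i.1) = _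
      rw [aeval_X, dif_neg i.2]
    exact congrArg (fun g : MvPolynomial ↥Aᶜ K →ₐ[K] _ => g b) h1
  have hsurj : Function.Surjective (Φ : MvPolynomial σ K →+* MvPolynomial ↥A (MvPolynomial ↥Aᶜ K ⧸ q)) := by
    intro y
    induction y using MvPolynomial.induction_on with
    | C r =>
      obtain ⟨b, rfl⟩ := Ideal.Quotient.mk_surjective r
      exact ⟨ρ b, hΦB b⟩
    | add a b ha hb =>
      obtain ⟨a', rfl⟩ := ha
      obtain ⟨b', rfl⟩ := hb
      exact ⟨a' + b', map_add _ _ _⟩
    | mul_X a i ha =>
      obtain ⟨a', rfl⟩ := ha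
      refine ⟨a' * X i.1, ?_⟩
      rw [map_mul]
      congr 1
      exact hΦA i
  have hker : Ideal.comap (Φ : MvPolynomial σ K →+* MvPolynomial ↥A (MvPolynomial ↥Aᶜ K ⧸ q)) ⊥ = Q := by
    apply le_antisymm
    · intro f hf
      have hf0 : Φ f = 0 := (Submodule.mem_bot _).1 (Ideal.mem_comap.1 hf)
      let g₀ : (MvPolynomial ↥Aᶜ K ⧸ q) →+* (MvPolynomial σ K ⧸ Q) :=
        Ideal.Quotient.lift q ((Ideal.Quotient.mk Q).comp (ρ : MvPolynomial ↥Aᶜ K →+* MvPolynomial σ K)) fun a ha =>
          Ideal.Quotient.eq_zero_iff_mem.2 ha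
      let Ψ : MvPolynomial ↥A (MvPolynomial ↥Aᶜ K ⧸ q) →+* (MvPolynomial σ K ⧸ Q) :=
        eval₂Hom g₀ fun i => Ideal.Quotient.mk Q (X i.1)
      have h1 : Ψ.comp (Φ : MvPolynomial σ K →+* _) = Ideal.Quotient.mk Q := by
        apply MvPolynomial.ringHom_ext
        · intro r
          have h2 : Φ (C r) = C (Ideal.Quotient.mk q (C r)) := by
            have h3 := hΦB (C r)
            rwa [hρ, rename_C] at h3
          show Ψ (Φ (C r)) = _
          rw [h2]
          show eval₂ g₀ _ (C (Ideal.Quotient.mk q (C r))) = _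
          rw [eval₂_C]
          show Ideal.Quotient.mk Q (ρ (C r)) = _
          rw [hρ, rename_C]
        · intro i
          show Ψ (Φ (X i)) = _
          by_cases h : i ∈ A
          · have h2 := hΦA ⟨i, h⟩
            rw [h2]
            show eval₂ g₀ _ (X _) = _
            rw [eval₂_X]
          · have h2 := hΦB (X ⟨i, h⟩)
            rw [hρ, rename_X] at h2
            rw [h2]
            show eval₂ g₀ _ (C (Ideal.Quotient.mk q (X ⟨i, h⟩))) = _
            rw [eval₂_C]
            show Ideal.Quotient.mk Q (ρ (X ⟨i, h⟩)) = _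
            rw [hρ, rename_X]
      have h2 : Ψ (Φ f) = Ideal.Quotient.mk Q f := congrArg (fun g : MvPolynomial σ K →+* _ => g f) h1
      rw [hf0, map_zero] at h2
      exact Ideal.Quotient.eq_zero_iff_mem.1 h2.symm
    · refine hQ.trans ?_
      unfold cyl
      rw [Ideal.span_le]
      rintro g ⟨hg1, hg2⟩
      have hg3 : g ∈ Set.range ρ := by
        have h4 := hg2
        rw [SetLike.mem_coe, supported_eq_range_rename] at h4
        exact h4
      obtain ⟨b, rfl⟩ := hg3
      rw [SetLike.mem_coe, Ideal.mem_comap, Submodule.mem_bot]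
      show Φ (ρ b) = 0
      rw [hΦB]
      have h5 : Ideal.Quotient.mk q b = 0 := Ideal.Quotient.eq_zero_iff_mem.2 hg1
      rw [h5, C_0]
  -- the top form
  let π : MvPolynomial σ K →ₐ[K] MvPolynomial ↥A K := aeval fun i => if h : i ∈ A then X ⟨i, h⟩ else 0
  have hπ : ∀ f, rename Subtype.val (π f) = restr A f := by
    intro f
    have h1 : (rename Subtype.val : MvPolynomial ↥A K →ₐ[K] MvPolynomial σ K).comp π = restr A := by
      apply MvPolynomial.algHom_ext
      intro i
      show rename Subtype.val (aeval _ (X i)) = aeval _ (X i)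
      rw [aeval_X, aeval_X]
      by_cases h : i ∈ A
      · rw [dif_pos h, if_pos h, rename_X]
      · rw [dif_neg h, if_neg h, map_zero]
    exact congrArg (fun g : MvPolynomial σ K →ₐ[K] _ => g f) h1
  have hH' := hπ F
  have hpr : Prime (π F) := by
    have hp0 : Prime (restr A F) := hirr.prime
    have hinj : Function.Injective (Subtype.val : ↥A → σ) := Subtype.val_injective
    have hk : ∀ a : MvPolynomial ↥A K, killCompl hinj (rename Subtype.val a) = a := killCompl_rename_app hinj
    refine ⟨?_, ?_, ?_⟩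
    · intro h
      rw [h, map_zero] at hH'
      exact hp0.ne_zero hH'.symm
    · intro hu
      have := hu.map (rename Subtype.val : MvPolynomial ↥A K →ₐ[K] MvPolynomial σ K)
      rw [hH'] at this
      exact hp0.not_isUnit this
    · intro a b hab
      have h1 := map_dvd (rename Subtype.val : MvPolynomial ↥A K →ₐ[K] MvPolynomial σ K) hab
      rw [hH', map_mul] at h1
      rcases hp0.dvd_or_dvd h1 with h2 | h2
      · left
        have h3 := map_dvd (killCompl hinj : MvPolynomial σ K →ₐ[K] MvPolynomial ↥A K) h2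
        rwa [← hH', hk, hk] at h3
      · right
        have h3 := map_dvd (killCompl hinj : MvPolynomial σ K →ₐ[K] MvPolynomial ↥A K) h2
        rwa [← hH', hk, hk] at h3
  have hsp : (Ideal.span {π F}).IsPrime := (Ideal.span_singleton_prime hpr.ne_zero).2 hpr
  have h1 := F1_prime (R := MvPolynomial ↥Aᶜ K ⧸ q) _ hsp
  rw [Ideal.map_span, Set.image_singleton] at h1
  -- the map to the top forms
  let ψ : MvPolynomial σ K →ₐ[K] MvPolynomial ↥A (MvPolynomial ↥Aᶜ K ⧸ q) :=
    aeval fun i => if h : i ∈ A then X ⟨i, h⟩ else 0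
  have hψ : ∀ f, ψ f = MvPolynomial.map (algebraMap K (MvPolynomial ↥Aᶜ K ⧸ q)) (π f) := by
    intro f
    have h2 : (ψ : MvPolynomial σ K →+* _) = (MvPolynomial.map (algebraMap K (MvPolynomial ↥Aᶜ K ⧸ q))).comp
        (π : MvPolynomial σ K →+* MvPolynomial ↥A K) := by
      apply MvPolynomial.ringHom_ext
      · intro r
        show ψ (C r) = MvPolynomial.map _ (π (C r))
        have h3 : π (C r) = C r := π.commutes r
        rw [h3, map_C]
        exact ψ.commutes r
      · intro i
        show aeval _ (X i) = MvPolynomial.map _ (aeval _ (X i))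
        rw [aeval_X, aeval_X]
        by_cases h : i ∈ A
        · rw [dif_pos h, dif_pos h, map_X]
        · rw [dif_neg h, dif_neg h, map_zero]
    exact congrArg (fun g : MvPolynomial σ K →+* _ => g f) h2
  have hX : ∀ i, I2_P Φ ψ 1 (X i) := by
    intro i
    by_cases h : i ∈ A
    · have h2 : Φ (X i) = X ⟨i, h⟩ := hΦA ⟨i, h⟩
      have h3 : ψ (X i) = X ⟨i, h⟩ := by
        show aeval _ (X i) = _
        rw [aeval_X, dif_pos h]
      have h4 := isHomogeneous_X (R := MvPolynomial ↥Aᶜ K ⧸ q) (⟨i, h⟩ : ↥A)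
      refine ⟨fun k hk => ?_, ?_⟩
      · rw [h2, homogeneousComponent_of_mem h4, if_neg (by omega)]
      · rw [h2, h3, homogeneousComponent_of_mem h4, if_pos rfl]
    · have h2 : Φ (X i) = C (Ideal.Quotient.mk q (X ⟨i, h⟩)) := by
        show aeval _ (X i) = _
        rw [aeval_X, dif_neg h]
      have h3 : ψ (X i) = 0 := by
        show aeval _ (X i) = _
        rw [aeval_X, dif_neg h]
      have h4 : ∀ k, 0 < k → homogeneousComponent k (Φ (X i)) = 0 := by
        intro k hk
        rw [h2]
        exact homogeneousComponent_eq_zero _ _ (by rwa [totalDegree_C])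
      exact ⟨fun k hk => h4 k (by omega), by rw [h4 1 one_pos, h3]⟩
  have hP := I2_P_hom hF hX
  have h2 : (Ideal.span {Φ F}).IsPrime := by
    refine I2_prime (d := d) hP.1 ?_ ?_
    · rw [hP.2, hψ]
      intro h3
      apply hpr.ne_zero
      have hinj : Function.Injective (algebraMap K (MvPolynomial ↥Aᶜ K ⧸ q)) := FaithfulSMul.algebraMap_injective _ _
      exact MvPolynomial.map_injective _ hinj (by rw [h3, map_zero])
    · rw [hP.2, hψ]
      exact h1
  have h3 := Ideal.comap_map_of_surjective (Φ : MvPolynomial σ K →+* MvPolynomial ↥A (MvPolynomial ↥Aᶜ K ⧸ q)) hsurj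
    (Ideal.span {F})
  rw [hker, sup_comm, Ideal.map_span, Set.image_singleton] at h3
  rw [← h3]
  haveI : (Ideal.span {(Φ : MvPolynomial σ K →+* MvPolynomial ↥A (MvPolynomial ↥Aᶜ K ⧸ q)) F}).IsPrime := h2
  exact Ideal.comap_isPrime _ _

end Pool.Agent.HCN
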