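import Pool.Agent.HCN.C1
import Pool.Agent.HCN.H3
import Pool.Agent.HCN.I1
import Pool.Agent.HCN.I2
import Pool.Agent.HCJ.F2

namespace Pool.Agent.HCN

open Pool.Agent.HCH Pool.Agent.HCF Pool.Agent.HCJ MvPolynomial

/-- The affine cone: cycles of codimension at most the number of groups are torsion. -/
theorem aff_cone {K : Type} [Field K] [IsAlgClosed K] [CharZero K] {N D : ℕ} {ι : Type}
    {J : Finset ι} {s : ι → Fin D → Fin N} {U : Set (Fin N)} {F : MvPolynomial (Fin N) K}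
    (hD : 1 ≤ D) (h : Nm J s U F) (e : ℕ) (he : N ≤ e + 1 + J.card) (he1 : e + 1 < N) :
    AT K F e := by
  classical
  have hex : ∀ i, ∃ (δ : MvPolynomial (Fin N) K) (M d : ℕ), i ∈ J → (Elim (s i) F δ M ∧
      δ.IsHomogeneous d ∧ restr (Set.range (s i)) δ ≠ 0 ∧
        (∀ j ∈ J, j ≠ i → δ ∈ supported K (Set.range (s j))ᶜ) ∧ δ ∈ supported K Uᶜ) := by
    intro i
    by_cases hi : i ∈ J
    · obtain ⟨δ, M, d, h1⟩ := exists_delta h i hi
      exact ⟨δ, M, d, fun _ => h1⟩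
    · exact ⟨0, 0, 0, fun h1 => absurd h1 hi⟩
  choose δ M d hδ using hex
  rw [AT_iff]
  intro p hp hdp
  refine aff_ind hD h.hom J s h.inj δ M (fun i hi => (hδ i hi).1)
    (fun i hi j hj hji => (hδ i hi).2.2.2.1 j hj hji) e he1 ?_ J.card ∅ (Finset.empty_subset _)
    (by omega) p hp hdp (by simp)
  intro P hFP hdP hδP
  have hPpr := P.isPrime
  set Q := cyl U P.asIdeal with hQ
  have hQpr : Q.IsPrime := cyl_prime U _ P.isPrime
  have hQle : Q ≤ P.asIdeal := cyl_le U _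
  have hr0 : restr U F ≠ 0 := h.irr.ne_zero
  have hFQ : F ∉ Q := not_mem_cyl P.isPrime.ne_top h.hom hr0
  have h1 : dm K Q + J.card ≤ N := by
    refine dim_bound J (fun i => Set.range (s i)) δ d (fun i hi => (hδ i hi).2.1)
      (fun i hi => (hδ i hi).2.2.1) (fun i hi j hj hji => (hδ i hi).2.2.2.1 j hj hji) ⟨Q, hQpr⟩ ?_
    intro i hi
    exact (mem_cyl (hδ i hi).2.2.2.2).2 (hδP i hi)
  have h2 : dm K P.asIdeal < dm K Q := by
    refine dm_lt Q P.asIdeal (lt_of_le_of_ne hQle fun h3 => hFQ ?_)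
    rw [h3]
    exact hFP
  have h3 : dm K Q = e + 1 := by omega
  have h4 : (Q ⊔ Ideal.span {F}).IsPrime := prime_top Q hQpr (isCyl_cyl U _) h.hom h.irr
  obtain ⟨h5, h6⟩ := fdiv_of_prime (K := K) Q hQpr F hFQ h4 e h3
  have h7 : Q ⊔ Ideal.span {F} ≤ P.asIdeal :=
    sup_le hQle ((Ideal.span_singleton_le_iff_mem _).2 hFP)
  have h8 := eq_of_dm_le (K := K) (Q ⊔ Ideal.span {F}) P.asIdeal h7 (by rw [h5, hdP])
  have h9 : (⟨Q ⊔ Ideal.span {F}, h4⟩ : PrimeSpectrum (MvPolynomial (Fin N) K)) = P :=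
    PrimeSpectrum.ext h8
  rw [h9] at h6
  have h10 := HCR.gys_tors' N e he1 F ⟨Q, hQpr⟩ h3 hFQ
  change fdiv K Q F e ∈ sat (Rt K (Ideal.span {F}) e) at h10
  rwa [h6] at h10

end Pool.Agent.HCN
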