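import Pool.Agent.HCN.T2
import Pool.Agent.HCH.G8
import Pool.Agent.HCH.E7
import Pool.Agent.HCH.F2
import Pool.Agent.HCH.P6
import Pool.Agent.HCH.H1
import Pool.Agent.HCH.I2
import Pool.Agent.HCF.N7
import Pool.Agent.HCT.C1

namespace Pool.Agent.HCN

open Pool.Agent.HCH Pool.Agent.HCF Pool.Agent.HCJ MvPolynomial

theorem rhoI_ext {k E : Type} [Field k] [Field E] [Algebra k E] {m : ℕ}
    (F : MvPolynomial (Fin (m + 1)) k) : rhoI (HCH.ext k E (m + 1) F) = ext k E m (rhoI F) := by
  have h : ((rhoI : MvPolynomial (Fin (m + 1)) E →ₐ[E] MvPolynomial (Fin m) E) :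
      MvPolynomial (Fin (m + 1)) E →+* MvPolynomial (Fin m) E).comp (HCH.ext k E (m + 1)) =
      (HCH.ext k E m).comp ((rhoI : MvPolynomial (Fin (m + 1)) k →ₐ[k] MvPolynomial (Fin m) k) :
      MvPolynomial (Fin (m + 1)) k →+* MvPolynomial (Fin m) k) := by
    apply MvPolynomial.ringHom_ext
    · intro a
      simp [HCH.ext, rhoI]
    · intro i
      refine Fin.lastCases ?_ (fun i => ?_) i
      · simp [HCH.ext, rhoI]
      · simp [HCH.ext, rhoI]
  exact RingHom.congr_fun h F

variable {K : Type} [Field K]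

/-- Hart is invariant under permutations of the variables. -/
theorem hart_rename {m : ℕ} (τ : Equiv.Perm (Fin m)) (F : MvPolynomial (Fin m) K) (j : ℕ)
    (h : Hart (rename τ F) j) : Hart F j := by
  have h1 := Pool.Agent.HCF.hart_rename τ.symm _ j h
  rw [MvPolynomial.rename_rename] at h1
  have e : (τ.symm : Fin m → Fin m) ∘ τ = id := by
    funext x
    simp
  rw [e, rename_id, AlgHom.id_apply] at h1
  exact h1

/-- An irreducible polynomial over an extension is irreducible; the ideal is prime, the dimension. -/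
theorem prime_of_ext {m : ℕ} {L : Type} [Field L] [Algebra K L] {F : MvPolynomial (Fin (m + 1)) K}
    (h : Irreducible (ext K L (m + 1) F)) :
    (Ideal.span {F}).IsPrime ∧ dm K (Ideal.span {F}) = m := by
  have hF0 : F ≠ 0 := by
    rintro rfl
    rw [map_zero] at h
    exact not_irreducible_zero h
  have hu : ∀ a : MvPolynomial (Fin (m + 1)) K, IsUnit (ext K L (m + 1) a) → IsUnit a := by
    intro a ha
    obtain ⟨c, hc, hc2⟩ := MvPolynomial.isUnit_iff_eq_C_of_isReduced.1 ha
    have hinj : Function.Injective (ext K L (m + 1)) := MvPolynomial.map_injective _ (algebraMap K L).injective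
    have e1 : a = C (coeff 0 a) := by
      ext d
      by_cases hd : 0 = d
      · subst hd
        rw [coeff_C, if_pos rfl]
      · rw [coeff_C, if_neg hd]
        have h1 : coeff d (ext K L (m + 1) a) = 0 := by
          rw [hc2, coeff_C, if_neg hd]
        have h2 : coeff d (ext K L (m + 1) a) = algebraMap K L (coeff d a) := coeff_map _ _ _
        rw [h2] at h1
        exact (map_eq_zero _).1 h1
    have e2 : coeff 0 a ≠ 0 := by
      intro h0
      rw [h0, C_0] at e1
      rw [e1, map_zero] at ha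
      exact not_isUnit_zero ha
    rw [e1]
    exact (isUnit_iff_ne_zero.2 e2).map C
  have hF : Irreducible F := by
    constructor
    · intro hFu
      exact h.not_isUnit (hFu.map (ext K L (m + 1)))
    · intro a b hab
      rw [hab, map_mul] at h
      rcases h.isUnit_or_isUnit rfl with h1 | h1
      · exact Or.inl (hu _ h1)
      · exact Or.inr (hu _ h1)
  have hp : (Ideal.span {F}).IsPrime := (Ideal.span_singleton_prime hF0).2 hF.prime
  refine ⟨hp, ?_⟩
  have hlt : (⊥ : Ideal (MvPolynomial (Fin (m + 1)) K)) < Ideal.span {F} := by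
    refine lt_of_le_of_ne bot_le fun h0 => hF0 ?_
    have h1 : F ∈ (⊥ : Ideal (MvPolynomial (Fin (m + 1)) K)) := by
      rw [h0]
      exact Ideal.mem_span_singleton_self F
    exact (Submodule.mem_bot _).1 h1
  have h0 : (⊥ : Ideal (MvPolynomial (Fin (m + 1)) K)).IsPrime := Ideal.isPrime_bot
  have h1 : dm K (Ideal.span {F}) < dm K (⊥ : Ideal (MvPolynomial (Fin (m + 1)) K)) := dm_lt _ _ hlt
  have h2 : dm K (⊥ : Ideal (MvPolynomial (Fin (m + 1)) K)) ≤ dm K (Ideal.span {F}) + 1 := by
    refine dm_le_min _ _ F ?_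
    rw [bot_sup_eq]
    exact ⟨⟨hp, le_rfl⟩, fun q hq _ => hq.2⟩
  rw [dm_bot] at h1 h2
  omega


end Pool.Agent.HCN
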