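import Pool.Agent.HCN.T2
import Pool.Agent.HCH.H1

namespace Pool.Agent.HCN

open Pool.Agent.HCH Pool.Agent.HCF Pool.Agent.HCJ MvPolynomial

variable {K : Type} [Field K] {D : ℕ} {ι : Type} {J : Finset ι}

theorem l1_restr_monomial {σ : Type} (A : Set σ) (d : σ →₀ ℕ) (c : K) :
    restr A (monomial d c) = 0 ∨ restr A (monomial d c) = monomial d c := by
  classical
  by_cases h : ∀ k ∈ d.support, k ∈ A
  · right
    rw [restr, aeval_monomial, monomial_eq, algebraMap_eq]
    congr 1
    exact Finset.prod_congr rfl fun k hk => by simp only [if_pos (h k hk)]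
  · left
    push Not at h
    obtain ⟨k, hk, hkA⟩ := h
    rw [restr, aeval_monomial, Finsupp.prod, Finset.prod_eq_zero hk, mul_zero]
    rw [if_neg hkA, zero_pow (Finsupp.mem_support_iff.1 hk)]

theorem l1_support_restr {σ : Type} (A : Set σ) (F : MvPolynomial σ K) :
    (restr A F).support ⊆ F.support := by
  classical
  intro e he
  rw [F.as_sum, map_sum] at he
  obtain ⟨d, hd, h⟩ := Finset.mem_biUnion.1 (support_sum he)
  rcases l1_restr_monomial A d (coeff d F) with h1 | h1
  · rw [h1] at h
    simp at h
  · rw [h1] at h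
    have := support_monomial_subset h
    rw [Finset.mem_singleton] at this
    rwa [this]

theorem l1_irr_of_rename {σ τ : Type} {f : σ → τ} (hf : Function.Injective f)
    {q : MvPolynomial σ K} (h : Irreducible (MvPolynomial.rename f q)) : Irreducible q := by
  have hu : ∀ p : MvPolynomial σ K, IsUnit (MvPolynomial.rename f p) → IsUnit p := fun p hp => by
    have := hp.map (killCompl (R := K) hf)
    rwa [killCompl_rename_app] at this
  refine ⟨fun hq => h.not_isUnit (hq.map _), fun {a b} hab => ?_⟩
  rcases h.isUnit_or_isUnit (by rw [hab, map_mul]) with h1 | h1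
  · exact Or.inl (hu a h1)
  · exact Or.inr (hu b h1)

theorem Nm.rename {σ τ : Type} {s : ι → Fin D → σ} {U : Set σ} {F : MvPolynomial σ K}
    (h : Nm J s U F) (e : σ ≃ τ) :
    Nm J (fun i a => e (s i a)) (e '' U) (MvPolynomial.rename e F) := by
  classical
  have hr : ∀ i, Set.range (fun a => e (s i a)) = e '' Set.range (s i) := fun i => by
    rw [← Set.range_comp]
    rfl
  have hsup : ∀ d ∈ (MvPolynomial.rename e F).support, ∃ d' ∈ F.support, ∀ k, d (e k) = d' k := by
    intro d hd
    rw [support_rename_of_injective e.injective] at hd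
    obtain ⟨d', hd', rfl⟩ := Finset.mem_image.1 hd
    exact ⟨d', hd', fun k => Finsupp.mapDomain_apply e.injective d' k⟩
  refine ⟨?_, ?_, ?_, ?_, ?_, ?_, ?_, ?_⟩
  · exact h.hom.rename_isHomogeneous
  · intro i hi a b hab
    exact h.inj i hi (e.injective hab)
  · intro i hi j hj hij
    rw [hr, hr]
    exact (Set.disjoint_image_iff e.injective).2 (h.disj i hi j hj hij)
  · intro i hi
    rw [hr]
    exact (Set.disjoint_image_iff e.injective).2 (h.disjU i hi)
  · intro i hi j hj hij d hd a b hb
    obtain ⟨d', hd', hdd⟩ := hsup d hd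
    rw [hr] at hb
    obtain ⟨b', hb', rfl⟩ := hb
    rw [hdd, hdd]
    exact h.mix i hi j hj hij d' hd' a b' hb'
  · intro i hi d hd a b hb
    obtain ⟨d', hd', hdd⟩ := hsup d hd
    obtain ⟨b', hb', rfl⟩ := hb
    rw [hdd, hdd]
    exact h.mixU i hi d' hd' a b' hb'
  · intro i hi
    obtain ⟨y, hy, hy'⟩ := h.good i hi
    have h0 : ∀ z : σ → K, (∀ k, k ∉ Set.range (s i) → z k = 0) →
        ∀ k, k ∉ Set.range (fun a => e (s i a)) → (z ∘ e.symm) k = 0 := by
      intro z hz k hk
      refine hz _ fun hk' => hk ?_
      rw [hr]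
      exact ⟨e.symm k, hk', e.apply_symm_apply k⟩
    refine ⟨y ∘ e.symm, h0 y hy, fun w hw hwt => ?_⟩
    have h1 : w ∘ e = 0 := by
      refine hy' _ (fun k hk => hw _ fun hk' => hk ?_) fun t => ?_
      · rw [hr] at hk'
        obtain ⟨b, hb, hbk⟩ := hk'
        rwa [← e.injective hbk]
      · have := hwt t
        rw [eval_rename, eval_rename] at this
        have e1 : (y ∘ e.symm + t • w) ∘ e = y + t • (w ∘ e) := by
          funext k
          simp
        have e2 : (y ∘ e.symm) ∘ e = y := by
          funext k
          simp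
        rw [e1, e2] at this
        exact this
    funext k
    have := congrFun h1 (e.symm k)
    simpa using this
  · have h1 : ∀ G : MvPolynomial σ K, restr (e '' U) (MvPolynomial.rename e G) =
        MvPolynomial.rename e (restr U G) := by
      intro G
      have : (restr (e '' U)).comp (MvPolynomial.rename (R := K) e) =
          (MvPolynomial.rename (R := K) e).comp (restr U) := by
        ext k : 1
        simp only [AlgHom.comp_apply, rename_X, restr, aeval_X]
        by_cases hk : k ∈ U
        · rw [if_pos (Set.mem_image_of_mem e hk), if_pos hk, rename_X]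
        · rw [if_neg, if_neg hk, map_zero]
          rintro ⟨k', hk', hkk⟩
          exact hk (e.injective hkk ▸ hk')
      exact DFunLike.congr_fun this G
    rw [h1]
    exact (MulEquiv.irreducible_iff (renameEquiv K e)).2 h.irr

/-- A form whose restriction to a coordinate space is irreducible is irreducible. -/
theorem Nm.irr_F {σ : Type} {s : ι → Fin D → σ} {U : Set σ} {F : MvPolynomial σ K}
    (h : Nm J s U F) (hD : 1 ≤ D) : Irreducible F := by
  classical
  have hF0 : F ≠ 0 := by
    rintro rfl
    have := h.irr.ne_zero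
    rw [map_zero] at this
    exact this rfl
  have key : ∀ a b : MvPolynomial σ K, F = a * b → IsUnit (restr U a) → IsUnit a := by
    intro a b hab ha
    have ha0 : a ≠ 0 := by
      rintro rfl
      rw [zero_mul] at hab
      exact hF0 hab
    have hb0 : b ≠ 0 := by
      rintro rfl
      rw [mul_zero] at hab
      exact hF0 hab
    have hc : coeff 0 a ≠ 0 := by
      have h1 := ha.map (constantCoeff (R := K) (σ := σ))
      have h2 : constantCoeff (restr U a) = constantCoeff a := by
        have h3 : (constantCoeff (R := K) (σ := σ)).comp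
            ((restr U : MvPolynomial σ K →ₐ[K] MvPolynomial σ K) :
              MvPolynomial σ K →+* MvPolynomial σ K) = constantCoeff := by
          apply MvPolynomial.ringHom_ext
          · intro r
            rw [RingHom.comp_apply, RingHom.coe_coe, algHom_C, algebraMap_eq]
          · intro k
            rw [RingHom.comp_apply, RingHom.coe_coe, restr, aeval_X]
            split_ifs
            · rfl
            · rw [map_zero, constantCoeff_X]
        exact RingHom.congr_fun h3 a
      rw [h2] at h1
      exact h1.ne_zero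
    obtain ⟨d, hd, hmin⟩ := Finset.exists_min_image b.support Finsupp.degree
      (support_nonempty.2 hb0)
    have h1 : coeff d (a * b) = coeff 0 a * coeff d b := by
      rw [coeff_mul, Finset.sum_eq_single (0, d)]
      · rintro ⟨u, v⟩ huv hne
        rw [Finset.HasAntidiagonal.mem_antidiagonal] at huv
        simp only at huv ⊢
        by_cases hv : coeff v b = 0
        · rw [hv, mul_zero]
        · exfalso
          have h2 := hmin v (mem_support_iff.2 hv)
          have h3 : u.degree + v.degree = d.degree := by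
            rw [← huv, map_add]
          have h4 : u = 0 := (Finsupp.degree_eq_zero_iff u).1 (by omega)
          apply hne
          rw [h4] at huv ⊢
          rw [← huv, zero_add]
      · intro hn
        exact absurd (Finset.HasAntidiagonal.mem_antidiagonal.2 (zero_add d)) hn
    have h2 : coeff d F ≠ 0 := by
      rw [hab, h1]
      exact mul_ne_zero hc (mem_support_iff.1 hd)
    have h3 : d.degree = D := by
      by_contra hne
      exact h2 (h.hom.coeff_eq_zero hne)
    have h4 : D ≤ b.totalDegree := by
      rw [← h3]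
      exact le_totalDegree hd
    have h5 : a.totalDegree + b.totalDegree ≤ D := by
      rw [← totalDegree_mul_of_isDomain ha0 hb0, ← hab]
      exact h.hom.totalDegree_le
    have h6 : a.totalDegree = 0 := by omega
    rw [totalDegree_eq_zero_iff_eq_C.1 h6] at ha0 ⊢
    have h7 : coeff 0 a ≠ 0 := hc
    exact (isUnit_iff_ne_zero.2 h7).map (C : K →+* MvPolynomial σ K)
  refine ⟨fun hu => h.irr.not_isUnit (hu.map _), fun {a b} hab => ?_⟩
  have h1 : restr U F = restr U a * restr U b := by rw [hab, map_mul]
  rcases h.irr.isUnit_or_isUnit h1 with h2 | h2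
  · exact Or.inl (key a b hab h2)
  · exact Or.inr (key b a (by rw [hab, mul_comm]) h2)

theorem Nm.card {N : ℕ} {s : ι → Fin D → Fin N} {U : Set (Fin N)}
    {F : MvPolynomial (Fin N) K} (h : Nm J s U F) (hD : 1 ≤ D) : J.card * D + 1 ≤ N := by
  classical
  have hU : U.Nonempty := by
    by_contra hU
    rw [Set.not_nonempty_iff_eq_empty] at hU
    have h1 := h.irr
    have h2 := restr_supported U F
    rw [hU, supported_empty, Algebra.mem_bot] at h2
    obtain ⟨r, hr⟩ := h2
    rw [hU, ← hr] at h1
    by_cases hr0 : r = 0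
    · rw [hr0, map_zero] at h1
      exact h1.ne_zero rfl
    · exact h1.not_isUnit ((isUnit_iff_ne_zero.2 hr0).map (algebraMap K (MvPolynomial (Fin N) K)))
  obtain ⟨u, hu⟩ := hU
  have h1 : (J.biUnion fun i => Finset.univ.image (s i)).card = J.card * D := by
    rw [Finset.card_biUnion, Finset.sum_congr rfl (g := fun _ => D), Finset.sum_const, smul_eq_mul]
    · intro i hi
      rw [Finset.card_image_of_injective _ (h.inj i hi), Finset.card_univ, Fintype.card_fin]
    · intro i hi j hj hij
      refine Finset.disjoint_left.2 ?_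
      intro k hk hk'
      obtain ⟨a, -, ha⟩ := Finset.mem_image.1 hk
      obtain ⟨b, -, hb⟩ := Finset.mem_image.1 hk'
      exact Set.disjoint_left.1 (h.disj i hi j hj hij) ⟨a, ha⟩ ⟨b, hb⟩
  have h2 : u ∉ J.biUnion fun i => Finset.univ.image (s i) := by
    intro hu'
    obtain ⟨i, hi, hk⟩ := Finset.mem_biUnion.1 hu'
    obtain ⟨a, -, ha⟩ := Finset.mem_image.1 hk
    exact Set.disjoint_left.1 (h.disjU i hi) ⟨a, ha⟩ hu
  have h3 := Finset.card_le_univ (insert u (J.biUnion fun i => Finset.univ.image (s i)))
  rw [Finset.card_insert_of_notMem h2, h1, Fintype.card_fin] at h3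
  exact h3

/-- The hyperplane section `x_last = 0`, the last variable being one of the variables `s i₀`. -/
theorem Nm.rhoI {m : ℕ} [DecidableEq ι] {s : ι → Fin D → Fin (m + 1)} {U : Set (Fin (m + 1))}
    {F : MvPolynomial (Fin (m + 1)) K} (h : Nm J s U F) {i₀ : ι} (hi₀ : i₀ ∈ J) {a₀ : Fin D}
    (ha : s i₀ a₀ = Fin.last m) : ∃ s' : ι → Fin D → Fin m,
      Nm (J.erase i₀) s' {k | k.castSucc ∈ U} (HCH.rhoI F) := by
  classical
  have hD : 1 ≤ D := by have := a₀.2; omega
  have hm : 0 < m := by
    have h1 := h.card hD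
    have h2 : 0 < J.card := Finset.card_pos.2 ⟨i₀, hi₀⟩
    have h3 : 1 ≤ J.card * D := Nat.mul_pos h2 hD
    omega
  have hlast : ∀ i ∈ J, i ≠ i₀ → ∀ a, s i a ≠ Fin.last m := fun i hi hne a he =>
    Set.disjoint_left.1 (h.disj i hi i₀ hi₀ hne) ⟨a, rfl⟩ ⟨a₀, ha.trans he.symm⟩
  have hlastU : Fin.last m ∉ U := fun hU =>
    Set.disjoint_left.1 (h.disjU i₀ hi₀) ⟨a₀, ha⟩ hU
  let s' : ι → Fin D → Fin m := fun i a =>
    if hs : s i a = Fin.last m then ⟨0, hm⟩ else (s i a).castPred hs
  have hs' : ∀ i ∈ J.erase i₀, ∀ a, (s' i a).castSucc = s i a := by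
    intro i hi a
    rw [Finset.mem_erase] at hi
    have h1 := hlast i hi.2 hi.1 a
    simp only [s', dif_neg h1]
    exact Fin.castSucc_castPred _ _
  have hrange : ∀ i ∈ J.erase i₀, ∀ k, k ∈ Set.range (s' i) ↔ k.castSucc ∈ Set.range (s i) := by
    intro i hi k
    constructor
    · rintro ⟨a, rfl⟩
      exact ⟨a, (hs' i hi a).symm⟩
    · rintro ⟨a, hk⟩
      refine ⟨a, Fin.castSucc_injective m ?_⟩
      rw [hs' i hi a, hk]
  have hXc : ∀ k : Fin m, (HCH.rhoI : MvPolynomial (Fin (m + 1)) K →ₐ[K] _) (X k.castSucc) = X k :=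
    fun k => by simp [HCH.rhoI]
  have hXl : (HCH.rhoI : MvPolynomial (Fin (m + 1)) K →ₐ[K] _) (X (Fin.last m)) = 0 := by
    simp [HCH.rhoI]
  have hren : ∀ G : MvPolynomial (Fin (m + 1)) K,
      MvPolynomial.rename Fin.castSucc (HCH.rhoI G) = restr {Fin.last m}ᶜ G := by
    intro G
    have : (MvPolynomial.rename (R := K) Fin.castSucc).comp HCH.rhoI = restr {Fin.last m}ᶜ := by
      ext k : 1
      rw [AlgHom.comp_apply]
      refine Fin.lastCases ?_ (fun k => ?_) k
      · rw [hXl, map_zero, restr, aeval_X, if_neg (by simp)]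
      · rw [hXc, rename_X, restr, aeval_X, if_pos (by simp [Fin.castSucc_ne_last])]
    exact DFunLike.congr_fun this G
  have hsup : ∀ d ∈ (HCH.rhoI F).support, ∃ d' ∈ F.support, ∀ k : Fin m, d' k.castSucc = d k := by
    intro d hd
    refine ⟨Finsupp.mapDomain Fin.castSucc d, ?_,
      fun k => Finsupp.mapDomain_apply (Fin.castSucc_injective m) d k⟩
    apply l1_support_restr {Fin.last m}ᶜ
    rw [← hren, support_rename_of_injective (Fin.castSucc_injective m)]
    exact Finset.mem_image_of_mem _ hd
  have heval : ∀ (y : Fin (m + 1) → K), y (Fin.last m) = 0 → ∀ G : MvPolynomial (Fin (m + 1)) K,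
      eval (fun k : Fin m => y k.castSucc) (HCH.rhoI G) = eval y G := by
    intro y hy G
    have : (eval fun k : Fin m => y k.castSucc).comp
        ((HCH.rhoI : MvPolynomial (Fin (m + 1)) K →ₐ[K] MvPolynomial (Fin m) K) :
          MvPolynomial (Fin (m + 1)) K →+* MvPolynomial (Fin m) K) = eval y := by
      apply MvPolynomial.ringHom_ext
      · intro r
        rw [RingHom.comp_apply, RingHom.coe_coe, algHom_C, algebraMap_eq, eval_C, eval_C]
      · intro k
        rw [RingHom.comp_apply, RingHom.coe_coe]
        refine Fin.lastCases ?_ (fun k => ?_) k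
        · rw [hXl, map_zero, eval_X, hy]
        · rw [hXc, eval_X, eval_X]
    exact RingHom.congr_fun this G
  have herase : ∀ i ∈ J.erase i₀, i ∈ J ∧ i ≠ i₀ := fun i hi =>
    ⟨(Finset.mem_erase.1 hi).2, (Finset.mem_erase.1 hi).1⟩
  refine ⟨s', ?_, ?_, ?_, ?_, ?_, ?_, ?_, ?_⟩
  · have h1 : (MvPolynomial.rename Fin.castSucc (HCH.rhoI F)).IsHomogeneous D := by
      rw [hren]
      exact restr_homog _ h.hom
    exact (IsHomogeneous.rename_isHomogeneous_iff (Fin.castSucc_injective m)).1 h1
  · intro i hi a b hab
    apply h.inj i (herase i hi).1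
    rw [← hs' i hi a, ← hs' i hi b, hab]
  · intro i hi j hj hij
    rw [Set.disjoint_left]
    intro k hk hk'
    rw [hrange i hi] at hk
    rw [hrange j hj] at hk'
    exact Set.disjoint_left.1 (h.disj i (herase i hi).1 j (herase j hj).1 hij) hk hk'
  · intro i hi
    rw [Set.disjoint_left]
    intro k hk hk'
    rw [hrange i hi] at hk
    exact Set.disjoint_left.1 (h.disjU i (herase i hi).1) hk hk'
  · intro i hi j hj hij d hd a b hb
    obtain ⟨d', hd', hdd⟩ := hsup d hd
    rw [hrange j hj] at hb
    have := h.mix i (herase i hi).1 j (herase j hj).1 hij d' hd' a b.castSucc hb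
    rwa [← hs' i hi a, hdd, hdd] at this
  · intro i hi d hd a b hb
    obtain ⟨d', hd', hdd⟩ := hsup d hd
    have := h.mixU i (herase i hi).1 d' hd' a b.castSucc hb
    rwa [← hs' i hi a, hdd, hdd] at this
  · intro i hi
    obtain ⟨y, hy, hy'⟩ := h.good i (herase i hi).1
    have hlr : Fin.last m ∉ Set.range (s i) := by
      rintro ⟨a, hal⟩
      exact hlast i (herase i hi).1 (herase i hi).2 a hal
    refine ⟨fun k => y k.castSucc, fun k hk => hy _ fun hk' => hk ((hrange i hi k).2 hk'),
      fun w hw hwt => ?_⟩
    have h1 : (Fin.snoc (α := fun _ => K) w 0 : Fin (m + 1) → K) = 0 := by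
      refine hy' _ (fun k => ?_) fun t => ?_
      · refine Fin.lastCases ?_ (fun k => ?_) k
        · intro _
          exact Fin.snoc_last _ _
        · intro hk
          rw [Fin.snoc_castSucc]
          exact hw k fun hk' => hk ((hrange i hi k).1 hk')
      · have h2 := hwt t
        rw [heval y (hy _ hlr)] at h2
        rw [← h2, ← heval]
        · congr 2
          funext k
          simp
        · simp [hy _ hlr]
    funext k
    have := congrFun h1 k.castSucc
    rwa [Fin.snoc_castSucc] at this
  · apply l1_irr_of_rename (Fin.castSucc_injective m)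
    have h1 : ∀ G : MvPolynomial (Fin (m + 1)) K, MvPolynomial.rename Fin.castSucc
        (restr {k : Fin m | k.castSucc ∈ U} (HCH.rhoI G)) = restr U G := by
      intro G
      have : (MvPolynomial.rename (R := K) Fin.castSucc).comp
          ((restr {k : Fin m | k.castSucc ∈ U}).comp HCH.rhoI) = restr U := by
        ext k : 1
        rw [AlgHom.comp_apply, AlgHom.comp_apply]
        refine Fin.lastCases ?_ (fun k => ?_) k
        · rw [hXl, map_zero, map_zero, restr, aeval_X, if_neg hlastU]
        · rw [hXc, restr, restr, aeval_X, aeval_X]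
          by_cases hk : k.castSucc ∈ U
          · rw [if_pos hk, if_pos (by exact hk), rename_X]
          · rw [if_neg hk, if_neg (by exact hk), map_zero]
      exact DFunLike.congr_fun this G
    rw [h1]
    exact h.irr

/-- The base change to the algebraic closure of the data of the theorem. -/
theorem hart_lin {K : Type} [Field K] {m : ℕ}
    (φ : MvPolynomial (Fin m) K ≃ₐ[K] MvPolynomial (Fin m) K) (hφ : ∀ k, (φ (X k)).IsHomogeneous 1)
    (F : MvPolynomial (Fin m) K) (j : ℕ) (h : Hart (φ F) j) : Hart F j := by
  have h1 : ∀ (f : MvPolynomial (Fin m) K) (a : ℕ), f.IsHomogeneous a → (φ f).IsHomogeneous a := by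
    intro f a hf
    have h2 : φ f = aeval (fun k => φ (X k)) f := by
      have : (φ : MvPolynomial (Fin m) K →ₐ[K] MvPolynomial (Fin m) K) =
          aeval (fun k => φ (X k)) := by
        ext k : 1
        rw [aeval_X]
        rfl
      exact DFunLike.congr_fun this f
    rw [h2]
    have := hf.aeval (fun k => φ (X k)) hφ
    rwa [one_mul] at this
  refine hart_equiv (RingEquiv.refl K) φ.toRingEquiv (fun a => ?_) h1 ?_ F j h
  · exact φ.commutes a
  · intro f a hf
    have h3 : φ (homogeneousComponent a (φ.symm f)) = f := by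
      have := h1_comp φ.toRingEquiv h1 (φ.symm f) a
      change homogeneousComponent a (φ (φ.symm f)) = φ (homogeneousComponent a (φ.symm f)) at this
      rw [← this, AlgEquiv.apply_symm_apply, homogeneousComponent_of_mem hf, if_pos rfl]
    have h4 : φ.symm f = homogeneousComponent a (φ.symm f) := by
      rw [AlgEquiv.symm_apply_eq, h3]
    change (φ.symm f).IsHomogeneous a
    rw [h4]
    exact homogeneousComponent_isHomogeneous a _

end Pool.Agent.HCN
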