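import Pool.Agent.HCN.K1
import Pool.Agent.HCN.L1
import Pool.Agent.HCN.L0
import Pool.Agent.HCN.H4

namespace Pool.Agent.HCN

open Pool.Agent.HCH Pool.Agent.HCF Pool.Agent.HCJ MvPolynomial

/-- The statement for a fixed codimension. -/
def PJ (K : Type) [Field K] (ι : Type) (D j : ℕ) : Prop :=
  ∀ (n : ℕ) (F : MvPolynomial (Fin (n + 2)) K) (J : Finset ι) (s : ι → Fin D → Fin (n + 2))
    (U : Set (Fin (n + 2))), F.IsHomogeneous D →
    Nm J s U (HCH.ext K (AlgebraicClosure K) (n + 2) F) → j ≤ J.card → Hart F j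

theorem M1_step {K : Type} [Field K] [CharZero K] {ι : Type} {D : ℕ} (hD : 2 ≤ D) (j : ℕ)
    (ih : PJ K ι D j) (n : ℕ) (F : MvPolynomial (Fin (n + 2)) K) (J : Finset ι)
    (s : ι → Fin D → Fin (n + 2)) (U : Set (Fin (n + 2))) (hF : F.IsHomogeneous D)
    (h : Nm J s U (HCH.ext K (AlgebraicClosure K) (n + 2) F)) (hj : j + 1 ≤ J.card) {i₀ : ι}
    (hi₀ : i₀ ∈ J) {a₀ : Fin D} (ha₀ : s i₀ a₀ = Fin.last (n + 1)) : Hart F (j + 1) := by
  classical
  have hD1 : 1 ≤ D := by omega
  set L := AlgebraicClosure K with hL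
  obtain ⟨hprime, hdm⟩ := prime_of_ext (h.irr_F hD1)
  have hcard := h.card hD1
  have hj2 : (j + 1) * 2 ≤ J.card * D := Nat.mul_le_mul hj hD
  have hjn : j + 1 ≤ n := by omega
  refine hart_of_affine (M := n) (d := D) F hF hprime hdm (j + 1) (by omega) hjn ?_ ?_
  · -- the hyperplane section
    rw [Nat.add_sub_cancel]
    obtain ⟨n', rfl⟩ : ∃ n', n = n' + 1 := ⟨n - 1, by omega⟩
    obtain ⟨s', h'⟩ := h.rhoI hi₀ ha₀
    rw [rhoI_ext] at h'
    refine ih n' (HCH.rhoI F) (J.erase i₀) s' _ (rhoI_homog F hF) h' ?_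
    rw [Finset.card_erase_of_mem hi₀]
    omega
  · -- the affine part
    apply descend_AT (L := L)
    rw [← deh_ext]
    apply HCT.cone_chart (d := D) _ h.hom
    exact aff_cone hD1 h _ (by omega) (by omega)

theorem proj {K : Type} [Field K] [CharZero K] {ι : Type} {D : ℕ} (hD : 2 ≤ D) (j : ℕ) :
    PJ K ι D j := by
  classical
  induction j with
  | zero =>
    intro n F J s U hF h _
    obtain ⟨hprime, hdm⟩ := prime_of_ext (h.irr_F (by omega))
    exact hart_zero _ hprime hdm
  | succ j ih =>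
    intro n F J s U hF h hj
    have hJ : J.Nonempty := Finset.card_pos.1 (by omega)
    obtain ⟨i₀, hi₀⟩ := hJ
    let a₀ : Fin D := ⟨0, by omega⟩
    let τ : Equiv.Perm (Fin (n + 2)) := Equiv.swap (s i₀ a₀) (Fin.last (n + 1))
    apply HCN.hart_rename τ
    have h3 := h.rename τ
    have h4 : ∀ h : MvPolynomial (Fin (n + 2)) K,
        HCH.ext K (AlgebraicClosure K) (n + 2) (rename τ h) =
          rename τ (HCH.ext K (AlgebraicClosure K) (n + 2) h) := fun h => map_rename _ _ _
    rw [← h4] at h3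
    exact M1_step hD j ih n (rename τ F) J (fun i a => τ (s i a)) (τ '' U)
      (hF.rename_isHomogeneous) h3 hj hi₀ (a₀ := a₀) (Equiv.swap_apply_left _ _)

theorem mix_of_pderiv {K σ : Type} [Field K] [CharZero K] {G : MvPolynomial σ K} {a b : σ}
    (hab : a ≠ b) (h : pderiv a (pderiv b G) = 0) {d : σ →₀ ℕ} (hd : d ∈ G.support) :
    d a = 0 ∨ d b = 0 := by
  classical
  by_contra hc
  rw [not_or] at hc
  obtain ⟨h1, h2⟩ := hc
  have h3 : coeff (d - Finsupp.single a 1 - Finsupp.single b 1) (pderiv a (pderiv b G)) = 0 := by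
    rw [h, coeff_zero]
  have e1 : d - Finsupp.single a 1 - Finsupp.single b 1 + Finsupp.single a 1 +
      Finsupp.single b 1 = d := by
    ext k
    simp only [Finsupp.coe_add, Finsupp.coe_tsub, Pi.add_apply, Pi.sub_apply, Finsupp.single_apply]
    by_cases hk1 : a = k
    · subst hk1
      rw [if_pos rfl, if_neg (fun h => hab h.symm)]
      omega
    · by_cases hk2 : b = k
      · subst hk2
        rw [if_pos rfl, if_neg hk1]
        omega
      · rw [if_neg hk1, if_neg hk2]
        omega
  rw [coeff_pderiv, coeff_pderiv, e1] at h3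
  rcases mul_eq_zero.1 h3 with h4 | h4
  · rcases mul_eq_zero.1 h4 with h5 | h5
    · exact (mem_support_iff.1 hd) h5
    · exact Nat.cast_add_one_ne_zero _ h5
  · exact Nat.cast_add_one_ne_zero _ h4

theorem lin_homog {K : Type} [Field K] {m : ℕ}
    (φ : MvPolynomial (Fin m) K →ₐ[K] MvPolynomial (Fin m) K) (hφ : ∀ k, (φ (X k)).IsHomogeneous 1)
    {F : MvPolynomial (Fin m) K} {d : ℕ} (hF : F.IsHomogeneous d) : (φ F).IsHomogeneous d := by
  have h1 : φ F = aeval (fun k => φ (X k)) F := by
    have : φ = aeval (fun k => φ (X k)) := by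
      apply MvPolynomial.algHom_ext
      intro k
      rw [aeval_X]
    exact congrArg (fun f => f F) this
  rw [h1]
  have h2 := hF.aeval (fun k => φ (X k)) (n := 1) hφ
  rwa [one_mul] at h2

/-- The final theorem. -/
theorem final {K : Type} [Field K] [CharZero K] {n D m : ℕ} (hD : 2 ≤ D)
    (F : MvPolynomial (Fin (n + 2)) K) (hF : F.IsHomogeneous D)
    (φ : MvPolynomial (Fin (n + 2)) K ≃ₐ[K] MvPolynomial (Fin (n + 2)) K)
    (hφ : ∀ k, (φ (X k)).IsHomogeneous 1)
    (s : Fin m → Fin D → Fin (n + 2)) (U : Finset (Fin (n + 2)))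
    (hs : Function.Injective fun p : Fin m × Fin D => s p.1 p.2) (hU : ∀ i a, s i a ∉ U)
    (hmix : ∀ i j, i ≠ j → ∀ a b, pderiv (s i a) (pderiv (s j b) (φ F)) = 0)
    (hmixU : ∀ i a, ∀ u ∈ U, pderiv (s i a) (pderiv u (φ F)) = 0)
    (hgood : ∀ i : Fin m,
      (∀ x : Fin (n + 2) → AlgebraicClosure K, (∀ k, (∀ a, k ≠ s i a) → x k = 0) →
        (∀ a, aeval x (pderiv (s i a) (φ F)) = 0) → x = 0) ∨
      ∃ y : Fin (n + 2) → AlgebraicClosure K, (∀ k, (∀ a, k ≠ s i a) → y k = 0) ∧
        ∀ w : Fin (n + 2) → AlgebraicClosure K, (∀ k, (∀ a, k ≠ s i a) → w k = 0) →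
          (∀ t : AlgebraicClosure K, aeval (y + t • w) (φ F) = aeval y (φ F)) → w = 0)
    (hirr : Irreducible (aeval (fun k => if k ∈ U then X k else 0 :
      Fin (n + 2) → MvPolynomial (Fin (n + 2)) (AlgebraicClosure K)) (φ F)))
    (j : ℕ) (hj : j ≤ m) : ChowTriv F j := by
  classical
  apply ct_of_hart _ hF
  apply hart_lin φ hφ
  have hφF : (φ F).IsHomogeneous D := lin_homog (φ : MvPolynomial (Fin (n + 2)) K →ₐ[K] _) hφ hF
  set G := φ F with hG
  set L := AlgebraicClosure K with hL
  have hinj : Function.Injective (HCH.ext K L (n + 2)) :=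
    map_injective _ (algebraMap K L).injective
  have hsupp : ∀ d, d ∈ (HCH.ext K L (n + 2) G).support → d ∈ G.support := by
    intro d hd
    rw [mem_support_iff] at hd ⊢
    intro h0
    apply hd
    change coeff d (map (algebraMap K L) G) = 0
    rw [coeff_map, h0, map_zero]
  have hne : ∀ i j a b, (i, a) ≠ (j, b) → s i a ≠ s j b := fun i j a b hij h => hij (hs h)
  refine proj hD j n G Finset.univ s (U : Set (Fin (n + 2))) hφF ?_ ?_
  · refine ⟨e6_ext_homog _ _ hφF, ?_, ?_, ?_, ?_, ?_, ?_, ?_⟩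
    · intro i _ a b hab
      by_contra hc
      exact hne i i a b (fun h => hc (Prod.ext_iff.1 h).2) hab
    · intro i _ k _ hik
      rw [Set.disjoint_left]
      rintro x ⟨a, rfl⟩ ⟨b, hb⟩
      exact hne k i b a (fun h => hik (Prod.ext_iff.1 h).1.symm) hb
    · intro i _
      rw [Set.disjoint_left]
      rintro x ⟨a, rfl⟩ hx
      exact hU i a hx
    · rintro i _ k _ hik d hd a _ ⟨b, rfl⟩
      exact mix_of_pderiv (hne i k a b fun h => hik (Prod.ext_iff.1 h).1) (hmix i k hik a b)
        (hsupp d hd)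
    · intro i _ d hd a b hb
      have hab : s i a ≠ b := by
        rintro rfl
        exact hU i a hb
      exact mix_of_pderiv hab (hmixU i a b hb) (hsupp d hd)
    · intro i _
      have hev : ∀ (x : Fin (n + 2) → L) (f : MvPolynomial (Fin (n + 2)) K),
          eval x (HCH.ext K L (n + 2) f) = aeval x f := by
        intro x f
        change eval x (map (algebraMap K L) f) = _
        rw [eval_map, aeval_def]
      have hr : ∀ k, k ∉ Set.range (s i) → ∀ a, k ≠ s i a := fun k hk a h => hk ⟨a, h.symm⟩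
      have hr' : ∀ k, (∀ a, k ≠ s i a) → k ∉ Set.range (s i) := by
        rintro k hk ⟨a, rfl⟩
        exact hk a rfl
      have hinj_i : Function.Injective (s i) := by
        intro a b hab
        by_contra hc
        exact hne i i a b (fun h => hc (Prod.ext_iff.1 h).2) hab
      rcases hgood i with h1 | ⟨y, hy1, hy2⟩
      · refine smooth_good (by omega) hinj_i (e6_ext_homog _ _ hφF) ?_
        intro x hx1 hx2
        refine h1 x (fun k hk => hx1 k (hr' k hk)) fun a => ?_
        rw [← hx2 a, ← hev]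
        change _ = eval x (pderiv (s i a) (map (algebraMap K L) G))
        rw [pderiv_map]
        rfl
      · refine ⟨y, fun k hk => hy1 k (hr k hk), fun w hw1 hw2 => ?_⟩
        refine hy2 w (fun k hk => hw1 k (hr' k hk)) fun t => ?_
        rw [← hev, ← hev]
        exact hw2 t
    · have e : restr (U : Set (Fin (n + 2))) (HCH.ext K L (n + 2) G) =
          aeval (fun k => if k ∈ U then X k else 0 :
            Fin (n + 2) → MvPolynomial (Fin (n + 2)) L) G := by
        change aeval _ (map (algebraMap K L) G) = _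
        rw [aeval_map_algebraMap]
        congr 1
        apply MvPolynomial.algHom_ext
        intro k
        rw [aeval_X, aeval_X]
        by_cases hk : k ∈ U
        · rw [if_pos hk, if_pos (Finset.mem_coe.2 hk)]
        · rw [if_neg hk, if_neg (fun h => hk (Finset.mem_coe.1 h))]
      rw [e]
      exact hirr
  · rw [Finset.card_univ, Fintype.card_fin]
    exact hj

end Pool.Agent.HCN
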